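import Mathlib

namespace Pool.Agent.Helper863.RAbs

/-- tower of twos: `tw j x` is `2^(2^(...^x))` with `j` twos -/
def tw : ℕ → ℕ → ℕ
  | 0, x => x
  | (j+1), x => 2 ^ tw j x

/-- `t` is a strictly increasing `r`-tuple of elements of `T` -/
def Inc (r : ℕ) (T : Finset ℕ) (t : Fin r → ℕ) : Prop := StrictMono t ∧ ∀ i, t i ∈ T

lemma tw_mono (C : ℕ) : Monotone (tw C) := by
  induction C with
  | zero => exact fun a b h => h
  | succ j ih => exact fun a b h => Nat.pow_le_pow_right (by norm_num) (ih h)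

lemma tw_pos (C x : ℕ) (hx : 1 ≤ x) : 1 ≤ tw C x := by
  cases C with
  | zero => exact hx
  | succ j => exact Nat.one_le_two_pow

lemma mul_tw_le (C c x : ℕ) (hc : 1 ≤ c) (hx : 1 ≤ x) : c * tw C x ≤ tw C (c * x) := by
  induction C with
  | zero => exact le_rfl
  | succ j ih =>
    show c * 2 ^ tw j x ≤ 2 ^ tw j (c * x)
    have h1 : 2 ^ (c * tw j x) ≤ 2 ^ tw j (c * x) := Nat.pow_le_pow_right (by norm_num) ih
    refine le_trans ?_ h1
    have hy := tw_pos j x hx
    set y := tw j x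
    obtain ⟨c', rfl⟩ : ∃ c', c = c' + 1 := ⟨c - 1, by omega⟩
    have h2 : c' + 1 ≤ 2 ^ c' := by
      have := @Nat.lt_two_pow_self c'
      omega
    calc (c' + 1) * 2 ^ y ≤ 2 ^ c' * 2 ^ y := Nat.mul_le_mul_right _ h2
      _ = 2 ^ (c' + y) := by rw [pow_add]
      _ ≤ 2 ^ ((c' + 1) * y) := Nat.pow_le_pow_right (by norm_num) (by nlinarith)

lemma tw_tw (a b x : ℕ) : tw a (tw b x) = tw (a + b) x := by
  induction a with
  | zero => simp [tw]
  | succ j ih => rw [Nat.succ_add]; show 2 ^ tw j (tw b x) = 2 ^ tw (j + b) x; rw [ih]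

lemma Inc.mono {r : ℕ} {S T : Finset ℕ} (h : S ⊆ T) {t : Fin r → ℕ} (ht : Inc r S t) : Inc r T t :=
  ⟨ht.1, fun i => h (ht.2 i)⟩


/-- Ramsey's theorem for increasing `r`-tuples with a tower bound of height `2r` -/
def RamseyStmt : Prop := ∀ r q : ℕ, ∃ A : ℕ, 1 ≤ A ∧ ∀ m : ℕ, 1 ≤ m → ∀ S : Finset ℕ,
  tw (2 * r) (A * m) ≤ S.card → ∀ (κ : Type) [Fintype κ], Fintype.card κ ≤ q →
  ∀ c : (Fin r → ℕ) → κ, ∃ T ⊆ S, m ≤ T.card ∧ ∀ t t', Inc r T t → Inc r T t' → c t = c t'

/-- the differences `G b - G a` (`a < b`) are increasing on `S`, with jumps at least `B` -/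
def Spread (N : ℕ) (B : ℝ) (S : Finset ℕ) (G : Fin N → ℕ → ℝ) : Prop :=
  ∀ a b : Fin N, a < b → ∀ i ∈ S, ∀ j ∈ S, i < j → (G b i - G a i) + B ≤ G b j - G a j

/-- on `T`, `log |f|` equals `G + c` up to `B` -/
def Win (B : ℝ) (T : Finset ℕ) (f : ℕ → ℝ) (G : ℕ → ℝ) (c : ℝ) : Prop :=
  ∀ i ∈ T, f i ≠ 0 ∧ |Real.log |f i| - G i - c| ≤ B

/-- on `T`, the values of `log |f| - G b` are pairwise `B`-separated, for every `b` -/
def Gen (P : ℕ) (B : ℝ) (T : Finset ℕ) (G : Fin P → ℕ → ℝ) (f : ℕ → ℝ) : Prop :=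
  (∀ i ∈ T, f i ≠ 0) ∧ ∀ b, ∀ i ∈ T, ∀ j ∈ T, i ≠ j →
    B ≤ |(Real.log |f i| - G b i) - (Real.log |f j| - G b j)|

/-- an element of the affine space `f0 + span (w a : a ∈ A)` -/
def ev {P : ℕ} (A : Finset (Fin P)) (w : Fin P → ℕ → ℝ) (f0 : ℕ → ℝ) (lam : Fin P → ℝ) (i : ℕ) : ℝ :=
  f0 i + ∑ a ∈ A, lam a * w a i

/-- the functions `w a`, `a ∈ A`, are positive with logarithm within `ℓ` of `G a` -/
def Near {P : ℕ} (ℓ : ℝ) (U : Finset ℕ) (G : Fin P → ℕ → ℝ) (A : Finset (Fin P))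
    (w : Fin P → ℕ → ℝ) : Prop := ∀ a ∈ A, ∀ i ∈ U, 0 < w a i ∧ |Real.log (w a i) - G a i| ≤ ℓ

/-- a large subset on which some element of the affine space vanishes, or lies in a window of a
type not in `A` -/
def Concl (P K : ℕ) (B : ℝ) (U : Finset ℕ) (G : Fin P → ℕ → ℝ) (A : Finset (Fin P))
    (w : Fin P → ℕ → ℝ) (f0 : ℕ → ℝ) : Prop :=
  ∃ (lam : Fin P → ℝ) (T' : Finset ℕ), T' ⊆ U ∧ U.card ≤ K * T'.card ∧
    ((∀ i ∈ T', ev A w f0 lam i = 0) ∨ ∃ b, b ∉ A ∧ ∃ c, Win B T' (ev A w f0 lam) (G b) c)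

/-- no element of the affine space is generic on `S` elements -/
def NoGen (P S : ℕ) (B : ℝ) (U : Finset ℕ) (G : Fin P → ℕ → ℝ) (A : Finset (Fin P))
    (w : Fin P → ℕ → ℝ) (f0 : ℕ → ℝ) : Prop :=
  ∀ lam : Fin P → ℝ, ∀ T' ⊆ U, Gen P B T' G (ev A w f0 lam) → T'.card < S

/-- one step of the chain: a large left part `Bs` far from the element, a large right part `Ts`
close to it -/
def StepData (P : ℕ) (B η β : ℝ) (K : ℕ) (U : Finset ℕ) (G : Fin P → ℕ → ℝ) (A : Finset (Fin P))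
    (a0 : Fin P) (w : Fin P → ℕ → ℝ) (f0 : ℕ → ℝ) : Prop :=
  ∃ (lam : Fin P → ℝ) (c : ℝ) (a : Fin P) (cs : ℝ) (Bs Ts : Finset ℕ), a ∈ A ∧ Bs ⊆ U ∧ Ts ⊆ U ∧
    U.card ≤ K * Bs.card ∧ U.card ≤ K * Ts.card ∧ (∀ p ∈ Bs, ∀ i ∈ Ts, p < i) ∧
    (∀ i ∈ Ts, |ev A w f0 lam i| ≤ η * (Real.exp c * w a0 i)) ∧
    (∀ p ∈ Bs, β * (Real.exp c * w a0 p) ≤ |ev A w f0 lam p|) ∧
    Win B Bs (ev A w f0 lam) (G a) cs

/-- the main lemma for `m` functions -/
def MainStmt (m : ℕ) : Prop := ∀ (P : ℕ), 1 ≤ P → ∀ (B ℓ : ℝ), 1 ≤ B → 0 ≤ ℓ →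
  ∃ A1 : ℕ, 1 ≤ A1 ∧ ∃ B0 : ℝ, ∀ S : ℕ, 1 ≤ S → ∀ (U : Finset ℕ) (G : Fin P → ℕ → ℝ),
    tw 2 (A1 * S) ≤ U.card → Spread P B0 U G → ∀ A : Finset (Fin P), A.card = m →
    ∀ (w : Fin P → ℕ → ℝ) (f0 : ℕ → ℝ), Near ℓ U G A w → NoGen P S B U G A w f0 →
    Concl P (tw 2 (A1 * S)) B U G A w f0

/-- one step -/
def OneStepStmt (m : ℕ) : Prop := ∀ (P : ℕ), 1 ≤ P → ∀ (B ℓ η : ℝ), 1 ≤ B → 0 ≤ ℓ → 0 < η →
  η ≤ Real.exp (-(B + ℓ)) / (16 * (m + 1)) →
  ∃ A1 : ℕ, 1 ≤ A1 ∧ ∃ B0 : ℝ, ∀ S : ℕ, 1 ≤ S → ∀ (U : Finset ℕ) (G : Fin P → ℕ → ℝ),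
    tw 2 (A1 * S) ≤ U.card → Spread P B0 U G → ∀ (A : Finset (Fin P)) (a0 : Fin P),
    A.card = m + 1 → a0 ∈ A → (∀ a ∈ A, a0 ≤ a) →
    ∀ (w : Fin P → ℕ → ℝ) (f0 : ℕ → ℝ), Near ℓ U G A w → NoGen P S B U G A w f0 →
    Concl P (tw 2 (A1 * S)) B U G A w f0 ∨
      StepData P B η (Real.exp (-(B + ℓ)) / 4) (tw 2 (A1 * S)) U G A a0 w f0

/-- window lemma -/
def WindowStmt : Prop := ∀ (P S : ℕ) (_ : 1 ≤ P) (B : ℝ) (_ : 0 ≤ B) (G : Fin P → ℕ → ℝ) (f : ℕ → ℝ)
    (U : Finset ℕ) (_ : ∀ T' ⊆ U, Gen P B T' G f → T'.card < S),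
    ∃ T' ⊆ U, U.card ≤ (2 * S * P + 2) * T'.card ∧
      ((∀ i ∈ T', f i = 0) ∨ ∃ b c, Win B T' f (G b) c)

/-- common points of many large sets -/
def CommonStmt : Prop := ∀ (M K : ℕ) (_ : 1 ≤ K) (X Y : Finset ℕ) (T : ℕ → Finset ℕ)
    (_ : ∀ p ∈ X, T p ⊆ Y) (_ : ∀ p ∈ X, Y.card ≤ K * (T p).card) (_ : 2 * K * M ≤ Y.card),
    ∃ Q ⊆ Y, Q.card = M ∧ ∃ X' ⊆ X, X.card ≤ (2 * K) ^ M * X'.card ∧ ∀ p ∈ X', Q ⊆ T p

/-- interpolation lemma -/
def InterpStmt : Prop := ∀ (P : ℕ) (ℓ : ℝ) (_ : 0 ≤ ℓ) (A : Finset (Fin P)) (a0 : Fin P)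
    (_ : a0 ∈ A) (_ : ∀ a ∈ A, a0 ≤ a) (B0 : ℝ)
    (_ : 4 * ℓ + Real.log (4 * (A.card : ℝ) ^ 2) + 1 ≤ B0) (U : Finset ℕ) (G : Fin P → ℕ → ℝ)
    (_ : Spread P B0 U G) (w : Fin P → ℕ → ℝ) (_ : Near ℓ U G A w) (p : ℕ) (_ : p ∈ U)
    (Q : Finset ℕ) (_ : Q ⊆ U) (_ : A.card ^ 2 < Q.card) (_ : ∀ i ∈ Q, p < i)
    (lam : Fin P → ℝ) (ε : ℝ) (_ : ∀ i ∈ Q, |∑ a ∈ A, lam a * w a i| ≤ ε * w a0 i),
    |∑ a ∈ A, lam a * w a p| ≤ 2 * A.card * ε * w a0 p

/-- a long chain contains a generic subset -/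
def ChainStmt : Prop := ∀ (m P S : ℕ) (B ℓ η B0 : ℝ), 1 ≤ B → 0 ≤ ℓ → 0 < η →
    η ≤ Real.exp (-(3 * B + 3 * ℓ)) / (1000 * (m + 1)) →
    4 * ℓ + Real.log (4 * ((m : ℝ) + 1) ^ 2) + 8 * B + 10 ≤ B0 →
    ∀ (U : Finset ℕ) (G : Fin P → ℕ → ℝ), Spread P B0 U G → ∀ (A : Finset (Fin P)) (a0 : Fin P),
    A.card = m + 1 → a0 ∈ A → (∀ a ∈ A, a0 ≤ a) →
    ∀ (w : Fin P → ℕ → ℝ) (f0 : ℕ → ℝ), Near ℓ U G A w → ∀ (t : ℕ), (m + 1) * S ≤ t →
    ∀ (Ts Bs : ℕ → Finset ℕ) (lam : ℕ → Fin P → ℝ) (c cs : ℕ → ℝ) (as : ℕ → Fin P),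
    Ts 0 ⊆ U → (∀ s ≤ t, Ts (s + 1) ⊆ Ts s) → (∀ s ≤ t, Bs s ⊆ Ts s) →
    (∀ s ≤ t, ∀ p ∈ Bs s, ∀ i ∈ Ts (s + 1), p < i) →
    (∀ s ≤ t, A.card ^ 2 < (Ts (s + 1)).card) → (∀ s ≤ t, P * (t + 1) < (Bs s).card) →
    (∀ s ≤ t, as s ∈ A) →
    (∀ s ≤ t, ∀ i ∈ Ts (s + 1), |ev A w f0 (lam s) i| ≤ η * (Real.exp (c s) * w a0 i)) →
    (∀ s ≤ t, ∀ p ∈ Bs s, Real.exp (-(B + ℓ)) / 4 * (Real.exp (c s) * w a0 p) ≤
      |ev A w f0 (lam s) p|) →
    (∀ s ≤ t, Win B (Bs s) (ev A w f0 (lam s)) (G (as s)) (cs s)) →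
    ∃ T' ⊆ U, S ≤ T'.card ∧ Gen P B T' G (ev A w f0 (lam t))

/-- linear combination of the functions `h j` -/
def lin {N : ℕ} (h : Fin N → ℕ → ℝ) (mu : Fin N → ℝ) (i : ℕ) : ℝ := ∑ j, mu j * h j i

/-- the sign of the `k`-linear form with coefficients `c` is constant on increasing tuples -/
def Hom {N : ℕ} (k : ℕ) (T : Finset ℕ) (h : Fin N → ℕ → ℝ) (c : (Fin k → Fin N) → ℝ) : Prop :=
  (∀ t, Inc k T t → 0 ≤ ∑ a : Fin k → Fin N, c a * ∏ l, h (a l) (t l)) ∨
  (∀ t, Inc k T t → ∑ a : Fin k → Fin N, c a * ∏ l, h (a l) (t l) < 0)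

/-- dominance for sums of products of spread positive functions -/
def DominanceStmt : Prop := ∀ (N k : ℕ), ∃ A : ℕ, 1 ≤ A ∧ ∃ B₀ : ℝ,
    ∀ m : ℕ, 1 ≤ m → ∀ S : Finset ℕ, tw 12 (A * m) ≤ S.card →
    ∀ g : Fin N → ℕ → ℝ, (∀ a, ∀ i ∈ S, 0 < g a i) →
    Spread N B₀ S (fun a i => Real.log (g a i)) →
    ∀ c : (Fin k → Fin N) → ℝ, ∃ T ⊆ S, m ≤ T.card ∧
      ((∀ t, Inc k T t → 0 ≤ ∑ a : Fin k → Fin N, c a * ∏ l, g (a l) (t l)) ∨
       (∀ t, Inc k T t → ∑ a : Fin k → Fin N, c a * ∏ l, g (a l) (t l) < 0))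

/-- adding all functions: either a generic combination, or a spread basis on a large subset -/
def RoundStmt : Prop := ∀ (P : ℕ), 1 ≤ P → ∀ (B : ℝ), 1 ≤ B → ∀ (N : ℕ),
  ∃ A1 : ℕ, 1 ≤ A1 ∧ ∃ B0 : ℝ, ∀ S : ℕ, 1 ≤ S → ∀ (U : Finset ℕ) (G : Fin P → ℕ → ℝ),
    tw 2 (A1 * S) ≤ U.card → Spread P B0 U G → ∀ h : Fin N → ℕ → ℝ,
    (∃ mu : Fin N → ℝ, ∃ T ⊆ U, S ≤ T.card ∧ Gen P B T G (lin h mu)) ∨
    (∃ (A : Finset (Fin P)) (w : Fin P → ℕ → ℝ) (T : Finset ℕ), T ⊆ U ∧
      U.card ≤ tw 2 (A1 * S) * T.card ∧ Near B T G A w ∧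
      ∃ Lam : Fin N → Fin P → ℝ, ∀ j, ∀ i ∈ T, h j i = ∑ a ∈ A, Lam j a * w a i)

/-- a spread basis gives a homogeneous subset -/
def FinishStmt : Prop := ∀ (P N k : ℕ) (B : ℝ), 0 ≤ B → ∃ A1 : ℕ, 1 ≤ A1 ∧ ∃ B0 : ℝ,
    ∀ m : ℕ, 1 ≤ m → ∀ (T : Finset ℕ) (G : Fin P → ℕ → ℝ), tw 12 (A1 * m) ≤ T.card →
    Spread P B0 T G → ∀ (A : Finset (Fin P)) (w : Fin P → ℕ → ℝ), Near B T G A w →
    ∀ (h : Fin N → ℕ → ℝ) (Lam : Fin N → Fin P → ℝ),
    (∀ j, ∀ i ∈ T, h j i = ∑ a ∈ A, Lam j a * w a i) →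
    ∀ c : (Fin k → Fin N) → ℝ, ∃ T' ⊆ T, m ≤ T'.card ∧ Hom k T' h c

/-- `u` increases on `T` by at least `B` at each step -/
def Up (B : ℝ) (T : Finset ℕ) (u : ℕ → ℝ) : Prop := ∀ i ∈ T, ∀ j ∈ T, i < j → u i + B ≤ u j

/-- scales: all small nonzero integer combinations of the `L l` are monotone with jumps `≥ B` -/
def Sc (r R : ℕ) (B : ℝ) (T : Finset ℕ) (L : Fin r → ℕ → ℝ) : Prop :=
  ∀ z : Fin r → ℤ, z ≠ 0 → (∀ l, |z l| ≤ R) →
    Up B T (fun i => ∑ l, (z l : ℝ) * L l i) ∨ Up B T (fun i => -∑ l, (z l : ℝ) * L l i)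

/-- the type functions: rational combinations of the scales with denominator `Q` -/
noncomputable def Gt {r : ℕ} (R Q : ℕ) (L : Fin r → ℕ → ℝ) (x : Fin r → Fin (2 * R + 1)) (i : ℕ) : ℝ :=
  (∑ l, (((x l : ℕ) : ℝ) - R) * L l i) / Q

/-- any `d + 1` combinations of the `h j` satisfy a nontrivial polynomial relation of degree at
most `M` in each argument -/
def AlgDep (d M N : ℕ) (h : Fin N → ℕ → ℝ) : Prop := ∀ mu : Fin (d + 1) → Fin N → ℝ,
  ∃ c : (Fin (d + 1) → Fin (M + 1)) → ℝ, c ≠ 0 ∧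
    ∀ i, ∑ α : Fin (d + 1) → Fin (M + 1), c α * ∏ l, (lin h (mu l) i) ^ (α l : ℕ) = 0

/-- types of a system of scales can be sorted into a spread family -/
def SortStmt : Prop := ∀ (r R Q : ℕ), 1 ≤ Q → ∀ (B : ℝ), 0 < B → ∀ (T : Finset ℕ)
    (L : Fin r → ℕ → ℝ), Sc r (2 * R) B T L →
    ∃ e : Fin ((2 * R + 1) ^ r) ≃ (Fin r → Fin (2 * R + 1)),
      Spread ((2 * R + 1) ^ r) (B / Q) T (fun b => Gt R Q L (e b))

/-- at the top level nothing is generic -/
def AlgGenStmt : Prop := ∀ (d M : ℕ), ∃ (S0 : ℕ) (B1 : ℝ), 1 ≤ S0 ∧ 1 ≤ B1 ∧ ∀ (N : ℕ) (h : Fin N → ℕ → ℝ),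
    AlgDep d M N h → ∀ (mu : Fin d → Fin N → ℝ) (nu : Fin N → ℝ) (T : Finset ℕ),
    (∀ l, ∀ i ∈ T, lin h (mu l) i ≠ 0) → (∀ i ∈ T, lin h nu i ≠ 0) →
    Sc d M B1 T (fun l i => Real.log |lin h (mu l) i|) →
    (∀ x : Fin d → Fin (2 * (M * M.factorial) + 1), ∀ i ∈ T, ∀ j ∈ T, i ≠ j →
      B1 ≤ |(Real.log |lin h nu i| - Gt (M * M.factorial) M.factorial
          (fun l i => Real.log |lin h (mu l) i|) x i) -
        (Real.log |lin h nu j| - Gt (M * M.factorial) M.factorial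
          (fun l i => Real.log |lin h (mu l) i|) x j)|) → T.card < S0

/-- a generic function gives one more scale, after passing to a monotone subset -/
def NewScaleStmt : Prop := ∀ (r H : ℕ), ∃ A : ℕ, 1 ≤ A ∧ ∀ (B : ℝ), 0 ≤ B → ∀ m : ℕ, 1 ≤ m →
    ∀ (T : Finset ℕ) (L : Fin r → ℕ → ℝ) (F : ℕ → ℝ), tw 4 (A * m) ≤ T.card → Sc r H B T L →
    (∀ x : Fin r → Fin (2 * (H * H.factorial) + 1), ∀ i ∈ T, ∀ j ∈ T, i ≠ j →
      B ≤ |(F i - Gt (H * H.factorial) H.factorial L x i) -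
        (F j - Gt (H * H.factorial) H.factorial L x j)|) →
    ∃ T' ⊆ T, m ≤ T'.card ∧ Sc (r + 1) H B T' (Fin.snoc L F)

/-- the main induction over the number of scales -/
def GoodStmt (d M N k r : ℕ) : Prop := ∃ (R : ℕ) (B : ℝ) (A : ℕ), 1 ≤ B ∧ 1 ≤ A ∧ ∀ m : ℕ, 1 ≤ m →
    ∀ T : Finset ℕ, tw (6 * (d - r) + 12) (A * m) ≤ T.card → ∀ h : Fin N → ℕ → ℝ, AlgDep d M N h →
    ∀ mu : Fin r → Fin N → ℝ, (∀ l, ∀ i ∈ T, lin h (mu l) i ≠ 0) →
    Sc r R B T (fun l i => Real.log |lin h (mu l) i|) →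
    ∀ c : (Fin k → Fin N) → ℝ, ∃ T' ⊆ T, m ≤ T'.card ∧ Hom k T' h c

section K1


/-- inductive step for `end_hom` -/
theorem end_hom_aux (κ : Type) [Fintype κ] (M : ℕ) (S : Finset ℕ)
    (hS : (2 * (Fintype.card κ) ^ (2 ^ M)) ^ M ≤ S.card) (c : Finset ℕ → κ) (j : ℕ) :
    j ≤ M → ∃ X Y : Finset ℕ, X ⊆ S ∧ Y ⊆ S ∧ X.card = j ∧ (∀ x ∈ X, ∀ y ∈ Y, x < y) ∧
      (2 * (Fintype.card κ) ^ (2 ^ M)) ^ (M - j) ≤ Y.card ∧
      ∀ P ⊆ X, ∀ x ∈ X, (∀ p ∈ P, p < x) → ∀ y ∈ X ∪ Y, (∀ p ∈ P, p < y) →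
        c (insert x P) = c (insert y P) := by
  classical
  induction j with
  | zero =>
    intro _
    refine ⟨∅, S, Finset.empty_subset _, subset_rfl, rfl, by simp, by simpa using hS, ?_⟩
    intro P _ x hx
    simp at hx
  | succ j ih =>
    intro hj
    obtain ⟨X, Y, hXS, hYS, hXc, hXY, hYc, hI⟩ := ih (by omega)
    have hκ : 0 < Fintype.card κ := Fintype.card_pos_iff.2 ⟨c ∅⟩
    set Q : ℕ := (Fintype.card κ) ^ (2 ^ M) with hQ
    have hQpos : 0 < Q := by positivity
    let f : ℕ → ({P // P ∈ X.powerset} → κ) := fun y P => c (insert y P.1)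
    have hcard : Fintype.card ({P // P ∈ X.powerset} → κ) ≤ Q := by
      rw [Fintype.card_fun, Fintype.card_coe, Finset.card_powerset, hXc, hQ]
      exact Nat.pow_le_pow_right hκ (Nat.pow_le_pow_right (by norm_num) (by omega))
    have hMj : M - j = (M - (j + 1)) + 1 := by omega
    have hpig : (Finset.univ : Finset ({P // P ∈ X.powerset} → κ)).card *
        (2 * (2 * Q) ^ (M - (j + 1))) ≤ Y.card := by
      rw [Finset.card_univ]
      refine le_trans (Nat.mul_le_mul_right _ hcard) (le_trans (le_of_eq ?_) hYc)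
      rw [hMj, pow_succ]; ring
    have hne : (Finset.univ : Finset ({P // P ∈ X.powerset} → κ)).Nonempty :=
      ⟨fun _ => c ∅, Finset.mem_univ _⟩
    obtain ⟨g, _, hg⟩ := Finset.exists_le_card_fiber_of_mul_le_card_of_maps_to
      (s := Y) (t := Finset.univ) (f := f) (fun a _ => Finset.mem_univ _) hne hpig
    set Y' := Y.filter (fun y => f y = g) with hY'
    have h1 : 1 ≤ (2 * Q) ^ (M - (j + 1)) := Nat.one_le_pow _ _ (by positivity)
    have hY'ne : Y'.Nonempty := by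
      rw [← Finset.card_pos]; omega
    set x := Y'.min' hY'ne with hx
    have hxY' : x ∈ Y' := Finset.min'_mem _ _
    have hxY : x ∈ Y := (Finset.mem_filter.1 hxY').1
    have hxX : x ∉ X := fun h => lt_irrefl _ (hXY x h x hxY)
    refine ⟨insert x X, Y'.erase x, ?_, ?_, ?_, ?_, ?_, ?_⟩
    · exact Finset.insert_subset (hYS hxY) hXS
    · exact (Finset.erase_subset _ _).trans ((Finset.filter_subset _ _).trans hYS)
    · rw [Finset.card_insert_of_notMem hxX, hXc]
    · intro a ha b hb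
      have hbY' : b ∈ Y' := Finset.mem_of_mem_erase hb
      rcases Finset.mem_insert.1 ha with rfl | ha
      · exact lt_of_le_of_ne (Finset.min'_le _ _ hbY') (Finset.ne_of_mem_erase hb).symm
      · exact hXY a ha b (Finset.mem_filter.1 hbY').1
    · rw [Finset.card_erase_of_mem hxY']; omega
    · intro P hP a ha hPa b hb hPb
      -- `x ∉ P`
      have hxP : x ∉ P := by
        intro hxP
        have h2 := hPa x hxP
        rcases Finset.mem_insert.1 ha with rfl | ha
        · exact lt_irrefl _ h2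
        · exact lt_asymm h2 (hXY a ha x hxY)
      have hPX : P ⊆ X := by
        intro p hp
        rcases Finset.mem_insert.1 (hP hp) with rfl | h
        · exact absurd hp hxP
        · exact h
      have hbb : b ∈ X ∨ b ∈ Y' := by
        rcases Finset.mem_union.1 hb with h | h
        · rcases Finset.mem_insert.1 h with rfl | h
          · exact Or.inr hxY'
          · exact Or.inl h
        · exact Or.inr (Finset.mem_of_mem_erase h)
      have haa : a ∈ X ∨ a ∈ Y' := by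
        rcases Finset.mem_insert.1 ha with rfl | h
        · exact Or.inr hxY'
        · exact Or.inl h
      have hsub : ∀ z, z ∈ Y' → z ∈ X ∪ Y := fun z hz =>
        Finset.mem_union_right _ (Finset.mem_filter.1 hz).1
      rcases haa with ha' | ha'
      · refine hI P hPX a ha' hPa b ?_ hPb
        rcases hbb with h | h
        · exact Finset.mem_union_left _ h
        · exact hsub b h
      · rcases hbb with h | h
        · exact (hI P hPX b h hPb a (hsub a ha') hPa).symm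
        · have e1 : f a = g := (Finset.mem_filter.1 ha').2
          have e2 : f b = g := (Finset.mem_filter.1 h).2
          have e3 := congrFun (e1.trans e2.symm) ⟨P, Finset.mem_powerset.2 hPX⟩
          exact e3

/-- TARGET 1: end-homogeneous subset -/
theorem end_hom (κ : Type) [Fintype κ] (M : ℕ) (S : Finset ℕ)
    (hS : (2 * (Fintype.card κ) ^ (2 ^ M)) ^ M ≤ S.card) (c : Finset ℕ → κ) :
    ∃ T ⊆ S, T.card = M ∧ ∀ P ⊆ T, ∀ y ∈ T, ∀ y' ∈ T,
      (∀ p ∈ P, p < y) → (∀ p ∈ P, p < y') → c (insert y P) = c (insert y' P) := by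
  obtain ⟨X, Y, hXS, _, hXc, _, _, hI⟩ := end_hom_aux κ M S hS c M le_rfl
  exact ⟨X, hXS, hXc, fun P hP y hy y' hy' h1 h2 =>
    hI P hP y hy h1 y' (Finset.mem_union_left _ hy') h2⟩

open Classical in
/-- TARGET 2 -/
theorem ramsey : RamseyStmt := by
  intro r
  induction r with
  | zero =>
    intro q
    refine ⟨1, le_rfl, fun m _ S hS κ _ _ c => ⟨S, subset_rfl, by simpa [tw] using hS, ?_⟩⟩
    intro t t' _ _
    congr 1
    exact Subsingleton.elim _ _
  | succ r ih =>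
    intro q
    obtain ⟨A, hA, ih⟩ := ih q
    refine ⟨(q + 4) * A, Nat.one_le_iff_ne_zero.2 (by positivity), ?_⟩
    intro m hm S hS κ _ hκ c
    set a : ℕ := tw (2 * r) (A * m) with ha
    have hAm : 1 ≤ A * m := Nat.one_le_iff_ne_zero.2 (by positivity)
    have ha1 : 1 ≤ a := tw_pos _ _ hAm
    set M : ℕ := a + 1 with hM
    -- size estimate
    have hsize : (2 * (Fintype.card κ) ^ (2 ^ M)) ^ M ≤ S.card := by
      refine le_trans ?_ hS
      have e0 : 2 * (r + 1) = (2 * r + 1) + 1 := by ring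
      rw [e0]
      show _ ≤ 2 ^ (2 ^ tw (2 * r) ((q + 4) * A * m))
      have h1 : q + 2 * M ≤ tw (2 * r) ((q + 4) * A * m) := by
        have h2 := mul_tw_le (2 * r) (q + 4) (A * m) (by omega) hAm
        rw [← ha] at h2
        rw [mul_assoc (q + 4) A m]
        refine le_trans ?_ h2
        rw [hM]; nlinarith
      have h3 : (2 * (Fintype.card κ) ^ (2 ^ M)) ^ M ≤ 2 ^ ((1 + q * 2 ^ M) * M) := by
        have h4 : Fintype.card κ ≤ 2 ^ q := hκ.trans (Nat.lt_two_pow_self).le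
        have h5 : (Fintype.card κ) ^ (2 ^ M) ≤ 2 ^ (q * 2 ^ M) := by
          rw [pow_mul]
          exact Nat.pow_le_pow_left h4 _
        have h6 : 2 * (Fintype.card κ) ^ (2 ^ M) ≤ 2 ^ (1 + q * 2 ^ M) := by
          rw [pow_add 2 1 (q * 2 ^ M), pow_one]
          exact Nat.mul_le_mul_left _ h5
        rw [pow_mul]
        exact Nat.pow_le_pow_left h6 _
      refine h3.trans (Nat.pow_le_pow_right (by norm_num) ?_)
      have h7 : 1 + q * 2 ^ M ≤ (q + 1) * 2 ^ M := by
        have : 1 ≤ 2 ^ M := Nat.one_le_two_pow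
        nlinarith
      have h8 : q + 1 ≤ 2 ^ q := Nat.lt_two_pow_self
      have h9 : M ≤ 2 ^ M := (Nat.lt_two_pow_self).le
      calc (1 + q * 2 ^ M) * M ≤ (2 ^ q * 2 ^ M) * 2 ^ M :=
            Nat.mul_le_mul (h7.trans (Nat.mul_le_mul_right _ h8)) h9
        _ = 2 ^ (q + 2 * M) := by rw [← pow_add, ← pow_add]; congr 1; ring
        _ ≤ 2 ^ tw (2 * r) ((q + 4) * A * m) := Nat.pow_le_pow_right (by norm_num) h1
    let c0 : Finset ℕ → κ := fun Q =>
      if h : Q.card = r + 1 then c (Q.orderEmbOfFin h) else c (fun _ => 0)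
    have hc0 : ∀ t : Fin (r + 1) → ℕ, StrictMono t → c0 (Finset.univ.image t) = c t := by
      intro t ht
      have h1 : (Finset.univ.image t).card = r + 1 := by
        rw [Finset.card_image_of_injective _ ht.injective, Finset.card_univ, Fintype.card_fin]
      have h2 : t = (Finset.univ.image t).orderEmbOfFin h1 :=
        Finset.orderEmbOfFin_unique h1 (fun x => Finset.mem_image_of_mem _ (Finset.mem_univ _)) ht
      simp only [c0, dif_pos h1]
      rw [← h2]
    obtain ⟨T₀, hT₀S, hT₀c, hend⟩ := end_hom κ M S hsize c0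
    have hT₀ne : T₀.Nonempty := by
      rw [← Finset.card_pos]; omega
    set y₀ := T₀.max' hT₀ne with hy₀
    have hy₀T : y₀ ∈ T₀ := Finset.max'_mem _ _
    have hT₁c : tw (2 * r) (A * m) ≤ (T₀.erase y₀).card := by
      rw [Finset.card_erase_of_mem hy₀T]; omega
    obtain ⟨T, hTT, hTm, hT⟩ := ih m hm (T₀.erase y₀) hT₁c κ hκ
      (fun t => c0 (insert y₀ (Finset.univ.image t)))
    have hTT₀ : T ⊆ T₀ := hTT.trans (Finset.erase_subset _ _)
    refine ⟨T, hTT₀.trans hT₀S, hTm, ?_⟩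
    have key : ∀ t : Fin (r + 1) → ℕ, Inc (r + 1) T t →
        c t = c0 (insert y₀ (Finset.univ.image (fun i : Fin r => t i.castSucc))) ∧
        Inc r T (fun i : Fin r => t i.castSucc) := by
      intro t ht
      have hinc : Inc r T (fun i : Fin r => t i.castSucc) :=
        ⟨fun i j hij => ht.1 (Fin.castSucc_lt_castSucc_iff.2 hij), fun i => ht.2 _⟩
      refine ⟨?_, hinc⟩
      rw [← hc0 t ht.1]
      have e1 : Finset.univ.image t =
          insert (t (Fin.last r)) (Finset.univ.image (fun i : Fin r => t i.castSucc)) := by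
        ext z
        simp only [Finset.mem_image, Finset.mem_univ, true_and, Finset.mem_insert]
        constructor
        · rintro ⟨i, rfl⟩
          rcases Fin.eq_castSucc_or_eq_last i with ⟨k, rfl⟩ | rfl
          · exact Or.inr ⟨k, rfl⟩
          · exact Or.inl rfl
        · rintro (rfl | ⟨k, rfl⟩)
          · exact ⟨_, rfl⟩
          · exact ⟨_, rfl⟩
      rw [e1]
      have hPT : Finset.univ.image (fun i : Fin r => t i.castSucc) ⊆ T := by
        intro z hz
        obtain ⟨i, _, rfl⟩ := Finset.mem_image.1 hz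
        exact ht.2 _
      refine hend _ (hPT.trans hTT₀) _ (hTT₀ (ht.2 _)) _ hy₀T ?_ ?_
      · intro p hp
        obtain ⟨i, _, rfl⟩ := Finset.mem_image.1 hp
        exact ht.1 (Fin.castSucc_lt_last i)
      · intro p hp
        have h1 := hTT (hPT hp)
        exact lt_of_le_of_ne (Finset.le_max' _ _ (Finset.mem_of_mem_erase h1))
          (Finset.ne_of_mem_erase h1)
    intro t t' ht ht'
    rw [(key t ht).1, (key t' ht').1]
    exact hT _ _ (key t ht).2 (key t' ht').2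


end K1

section K2


/-- TARGET 1: one member of a finite family dominates -/
theorem dom {ι τ : Type} [Fintype ι] [DecidableEq ι] (x : ι → τ → ℝ) (κ : ℝ)
    (hκ : 2 * (Fintype.card ι : ℝ) + 2 ≤ κ)
    (hcmp : ∀ l l', l ≠ l' → (∀ t, κ * |x l t| ≤ |x l' t|) ∨ (∀ t, κ * |x l' t| ≤ |x l t|))
    (hsgn : ∀ l, (∀ t, 0 ≤ x l t) ∨ (∀ t, x l t ≤ 0)) (hpos : ∀ t, ∃ l, 0 < |x l t|) [Nonempty ι] :
    ∃ L : ι, (∀ t, ∀ l, |x l t| ≤ |x L t|) ∧
      ((∀ t, |x L t| / 2 ≤ ∑ l, x l t) ∨ (∀ t, ∑ l, x l t ≤ -(|x L t| / 2))) := by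
  rcases isEmpty_or_nonempty τ with hτ | ⟨⟨t0⟩⟩
  · exact ⟨Classical.arbitrary ι, fun t => hτ.elim t, Or.inl fun t => hτ.elim t⟩
  have hκ2 : 2 ≤ κ := by
    have : (0 : ℝ) ≤ Fintype.card ι := Nat.cast_nonneg _
    linarith
  have hκ0 : 0 < κ := by linarith
  obtain ⟨L, -, hL⟩ := Finset.exists_max_image Finset.univ (fun l => |x l t0|)
    Finset.univ_nonempty
  have hL0 : 0 < |x L t0| := by
    obtain ⟨l, hl⟩ := hpos t0
    exact hl.trans_le (hL l (Finset.mem_univ l))
  have hdom : ∀ l, l ≠ L → ∀ t, κ * |x l t| ≤ |x L t| := by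
    intro l hl
    rcases hcmp L l (Ne.symm hl) with h | h
    · exfalso
      have h1 := h t0
      have h2 := hL l (Finset.mem_univ l)
      nlinarith
    · exact h
  have hrest : ∀ t, |∑ l ∈ Finset.univ.erase L, x l t| ≤ |x L t| / 2 := by
    intro t
    calc |∑ l ∈ Finset.univ.erase L, x l t| ≤ ∑ l ∈ Finset.univ.erase L, |x l t| :=
          Finset.abs_sum_le_sum_abs _ _
      _ ≤ ∑ l ∈ Finset.univ.erase L, |x L t| / κ := by
          refine Finset.sum_le_sum fun l hl => ?_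
          rw [le_div_iff₀ hκ0, mul_comm]
          exact hdom l (Finset.ne_of_mem_erase hl) t
      _ ≤ ∑ l : ι, |x L t| / κ :=
          Finset.sum_le_sum_of_subset_of_nonneg (Finset.erase_subset _ _) fun _ _ _ =>
            div_nonneg (abs_nonneg _) hκ0.le
      _ = (Fintype.card ι : ℝ) * (|x L t| / κ) := by
          rw [Finset.sum_const, Finset.card_univ, nsmul_eq_mul]
      _ ≤ |x L t| / 2 := by
          rw [← mul_div_assoc, div_le_div_iff₀ hκ0 two_pos]
          have h1 : 0 ≤ |x L t| := abs_nonneg _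
          nlinarith
  have hsum : ∀ t, ∑ l, x l t = x L t + ∑ l ∈ Finset.univ.erase L, x l t := fun t =>
    (Finset.add_sum_erase _ _ (Finset.mem_univ L)).symm
  refine ⟨L, fun t l => ?_, ?_⟩
  · by_cases hl : l = L
    · rw [hl]
    · have h1 := hdom l hl t
      have h2 : 0 ≤ |x l t| := abs_nonneg _
      nlinarith
  · rcases hsgn L with h | h
    · left
      intro t
      have h1 := (abs_le.1 (hrest t)).1
      rw [hsum t]
      have h2 := abs_of_nonneg (h t)
      rw [h2] at h1 ⊢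
      linarith
    · right
      intro t
      have h1 := (abs_le.1 (hrest t)).2
      rw [hsum t]
      have h2 := abs_of_nonpos (h t)
      rw [h2] at h1 ⊢
      linarith

lemma sl_chain1 (f : ℕ → ℝ) (T : Finset ℕ) : T.Nonempty →
    (∀ i ∈ T, ∀ j ∈ T, i < j → 2 * f i ≤ f j) →
    ∃ a ∈ T, ∃ b ∈ T, (∀ i ∈ T, i ≤ b) ∧ 2 ^ (T.card - 1) * f a ≤ f b := by
  induction T using Finset.induction_on_max with
  | empty => intro h; exact absurd h Finset.not_nonempty_empty
  | insert c T hc ih =>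
    intro _ h
    rcases T.eq_empty_or_nonempty with rfl | hne
    · exact ⟨c, by simp, c, by simp, by simp, by simp⟩
    · obtain ⟨a, ha, b, hb, hmax, hab⟩ := ih hne fun i hi j hj hij =>
        h i (Finset.mem_insert_of_mem hi) j (Finset.mem_insert_of_mem hj) hij
      refine ⟨a, Finset.mem_insert_of_mem ha, c, Finset.mem_insert_self _ _, ?_, ?_⟩
      · intro i hi
        rcases Finset.mem_insert.1 hi with rfl | hi
        · exact le_rfl
        · exact (hc i hi).le
      · have hcT : c ∉ T := fun h' => lt_irrefl _ (hc c h')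
        rw [Finset.card_insert_of_notMem hcT, Nat.add_sub_cancel]
        have h1 := h b (Finset.mem_insert_of_mem hb) c (Finset.mem_insert_self _ _) (hc b hb)
        have h2 : T.card = (T.card - 1) + 1 := by
          have := Finset.card_pos.2 hne
          omega
        rw [h2, pow_succ]
        calc (2 : ℝ) ^ (T.card - 1) * 2 * f a = 2 * (2 ^ (T.card - 1) * f a) := by ring
          _ ≤ 2 * f b := by linarith
          _ ≤ f c := h1

lemma sl_chain2 (f : ℕ → ℝ) (T : Finset ℕ) : T.Nonempty →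
    (∀ i ∈ T, ∀ j ∈ T, i < j → 2 * f j ≤ f i) →
    ∃ a ∈ T, ∃ b ∈ T, (∀ i ∈ T, i ≤ a) ∧ 2 ^ (T.card - 1) * f a ≤ f b := by
  induction T using Finset.induction_on_max with
  | empty => intro h; exact absurd h Finset.not_nonempty_empty
  | insert c T hc ih =>
    intro _ h
    rcases T.eq_empty_or_nonempty with rfl | hne
    · exact ⟨c, by simp, c, by simp, by simp, by simp⟩
    · obtain ⟨a, ha, b, hb, hmax, hab⟩ := ih hne fun i hi j hj hij =>
        h i (Finset.mem_insert_of_mem hi) j (Finset.mem_insert_of_mem hj) hij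
      refine ⟨c, Finset.mem_insert_self _ _, b, Finset.mem_insert_of_mem hb, ?_, ?_⟩
      · intro i hi
        rcases Finset.mem_insert.1 hi with rfl | hi
        · exact le_rfl
        · exact (hc i hi).le
      · have hcT : c ∉ T := fun h' => lt_irrefl _ (hc c h')
        rw [Finset.card_insert_of_notMem hcT, Nat.add_sub_cancel]
        have h1 := h a (Finset.mem_insert_of_mem ha) c (Finset.mem_insert_self _ _) (hc a ha)
        have h2 : T.card = (T.card - 1) + 1 := by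
          have := Finset.card_pos.2 hne
          omega
        rw [h2, pow_succ]
        calc (2 : ℝ) ^ (T.card - 1) * 2 * f c = 2 ^ (T.card - 1) * (2 * f c) := by ring
          _ ≤ 2 ^ (T.card - 1) * f a := mul_le_mul_of_nonneg_left h1 (by positivity)
          _ ≤ f b := hab

/-- a lacunary function cannot stay comparable to a constant on a large set -/
lemma sl_squeeze (f : ℕ → ℝ) (T : Finset ℕ) (κ F : ℝ) (r0 : ℕ) (hκ : 0 < κ) (hr : κ ^ 2 ≤ 2 ^ r0)
    (hT : r0 + 1 ≤ T.card) (hpos : ∀ i ∈ T, 0 < f i)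
    (h : (∀ i ∈ T, ∀ j ∈ T, i < j → 2 * f i ≤ f j) ∨ (∀ i ∈ T, ∀ j ∈ T, i < j → 2 * f j ≤ f i))
    (h1 : ∀ i ∈ T, f i < κ * F) (h2 : ∀ i ∈ T, F < κ * f i) : False := by
  have hne : T.Nonempty := Finset.card_pos.1 (by omega)
  have hex : ∃ a ∈ T, ∃ b ∈ T, 2 ^ (T.card - 1) * f a ≤ f b := by
    rcases h with h | h
    · obtain ⟨a, ha, b, hb, -, hab⟩ := sl_chain1 f T hne h
      exact ⟨a, ha, b, hb, hab⟩
    · obtain ⟨a, ha, b, hb, -, hab⟩ := sl_chain2 f T hne h
      exact ⟨a, ha, b, hb, hab⟩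
  obtain ⟨a, ha, b, hb, hab⟩ := hex
  have h3 : (2 : ℝ) ^ r0 ≤ 2 ^ (T.card - 1) := pow_le_pow_right₀ (by norm_num) (by omega)
  have h4 := hpos a ha
  have h5 : κ ^ 2 * f a ≤ f b := (mul_le_mul_of_nonneg_right (hr.trans h3) h4.le).trans hab
  have h6 := h1 b hb
  have h7 := h2 a ha
  have h8 : κ * F < κ * (κ * f a) := mul_lt_mul_of_pos_left h7 hκ
  nlinarith

lemma sl_centre_inc (D : ℕ → ℝ) (B0 : ℝ) (hB : 0 < B0) (T T' : Finset ℕ) (lo hi : ℕ)
    (hlo : lo ∈ T) (hhi : hi ∈ T) (hT' : ∀ i ∈ T', i ∈ T ∧ lo < i ∧ i < hi)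
    (hD : ∀ i ∈ T, ∀ j ∈ T, i < j → D i + B0 ≤ D j)
    (h3 : (∀ x ∈ T, ∀ y ∈ T, ∀ z ∈ T, x < y → y < z → |D y - D x| ≤ |D z - D y|) ∨
      (∀ x ∈ T, ∀ y ∈ T, ∀ z ∈ T, x < y → y < z → ¬ |D y - D x| ≤ |D z - D y|)) :
    ∃ c : ℝ, ((∀ i ∈ T', B0 ≤ D i - c) ∨ (∀ i ∈ T', D i - c ≤ -B0)) ∧
      ((∀ i ∈ T', ∀ j ∈ T', i < j → 2 * |D i - c| ≤ |D j - c|) ∨
       (∀ i ∈ T', ∀ j ∈ T', i < j → 2 * |D j - c| ≤ |D i - c|)) := by
  rcases h3 with h3 | h3
  · refine ⟨D lo, Or.inl fun i hi' => ?_, Or.inl fun i hi' j hj hij => ?_⟩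
    · have := hD lo hlo i (hT' i hi').1 (hT' i hi').2.1
      linarith
    · have e1 := hD lo hlo i (hT' i hi').1 (hT' i hi').2.1
      have e2 := hD i (hT' i hi').1 j (hT' j hj).1 hij
      have e3 := h3 lo hlo i (hT' i hi').1 j (hT' j hj).1 (hT' i hi').2.1 hij
      rw [abs_of_pos (by linarith), abs_of_pos (by linarith)] at e3
      rw [abs_of_pos (by linarith), abs_of_pos (by linarith)]
      linarith
  · refine ⟨D hi, Or.inr fun i hi' => ?_, Or.inr fun i hi' j hj hij => ?_⟩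
    · have := hD i (hT' i hi').1 hi hhi (hT' i hi').2.2
      linarith
    · have e1 := hD j (hT' j hj).1 hi hhi (hT' j hj).2.2
      have e2 := hD i (hT' i hi').1 j (hT' j hj).1 hij
      have e3 := h3 i (hT' i hi').1 j (hT' j hj).1 hi hhi hij (hT' j hj).2.2
      rw [abs_of_pos (by linarith), abs_of_pos (by linarith)] at e3
      rw [abs_of_neg (by linarith), abs_of_neg (by linarith)]
      push Not at e3
      linarith

lemma sl_centre (D : ℕ → ℝ) (B0 : ℝ) (hB : 0 < B0) (T T' : Finset ℕ) (lo hi : ℕ)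
    (hlo : lo ∈ T) (hhi : hi ∈ T) (hT' : ∀ i ∈ T', i ∈ T ∧ lo < i ∧ i < hi)
    (hD : (∀ i ∈ T, ∀ j ∈ T, i < j → D i + B0 ≤ D j) ∨
      (∀ i ∈ T, ∀ j ∈ T, i < j → D j + B0 ≤ D i))
    (h3 : (∀ x ∈ T, ∀ y ∈ T, ∀ z ∈ T, x < y → y < z → |D y - D x| ≤ |D z - D y|) ∨
      (∀ x ∈ T, ∀ y ∈ T, ∀ z ∈ T, x < y → y < z → ¬ |D y - D x| ≤ |D z - D y|)) :
    ∃ c : ℝ, ((∀ i ∈ T', B0 ≤ D i - c) ∨ (∀ i ∈ T', D i - c ≤ -B0)) ∧
      ((∀ i ∈ T', ∀ j ∈ T', i < j → 2 * |D i - c| ≤ |D j - c|) ∨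
       (∀ i ∈ T', ∀ j ∈ T', i < j → 2 * |D j - c| ≤ |D i - c|)) := by
  rcases hD with hD | hD
  · exact sl_centre_inc D B0 hB T T' lo hi hlo hhi hT' hD h3
  · have hab : ∀ a b : ℝ, |(-a) - (-b)| = |a - b| := by
      intro a b
      rw [← abs_neg]
      congr 1
      ring
    obtain ⟨c, h1, h2⟩ := sl_centre_inc (fun i => - D i) B0 hB T T' lo hi hlo hhi hT'
      (fun i hi' j hj hij => by have := hD i hi' j hj hij; linarith)
      (by simpa only [hab] using h3)
    refine ⟨-c, ?_, ?_⟩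
    · rcases h1 with h1 | h1
      · right
        intro i hi'
        have := h1 i hi'
        linarith
      · left
        intro i hi'
        have := h1 i hi'
        linarith
    · have hab2 : ∀ i, |(- D i) - c| = |D i - (-c)| := by
        intro i
        rw [← abs_neg]
        congr 1
        ring
      simpa only [hab2] using h2

lemma sl_ramsey (hR : RamseyStmt) (r n : ℕ) : ∃ A : ℕ, 1 ≤ A ∧ ∀ m : ℕ, 1 ≤ m →
    ∀ S : Finset ℕ, tw (2 * r) (A * m) ≤ S.card → ∀ (X : Type) [Fintype X],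
    Fintype.card X ≤ n → ∀ R : X → (Fin r → ℕ) → Prop, ∃ T ⊆ S, m ≤ T.card ∧
      ∀ x, (∀ t, Inc r T t → R x t) ∨ (∀ t, Inc r T t → ¬ R x t) := by
  obtain ⟨A, hA, h⟩ := hR r (2 ^ n)
  refine ⟨A, hA, fun m hm S hS X _ hX R => ?_⟩
  classical
  obtain ⟨T, hTS, hTm, hc⟩ := h m hm S hS (X → Prop) (by
    rw [Fintype.card_fun, Fintype.card_prop]
    exact Nat.pow_le_pow_right (by norm_num) hX) (fun t x => R x t)
  refine ⟨T, hTS, hTm, fun x => ?_⟩
  by_cases hx : ∃ t, Inc r T t ∧ R x t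
  · left
    obtain ⟨t, ht, htR⟩ := hx
    intro t' ht'
    have h1 : R x t = R x t' := congrFun (hc t t' ht ht') x
    rw [← h1]
    exact htR
  · right
    intro t ht htR
    exact hx ⟨t, ht, htR⟩

lemma sl_inc2 {T : Finset ℕ} {i j : ℕ} (hi : i ∈ T) (hj : j ∈ T) (hij : i < j) :
    Inc 2 T ![i, j] := by
  refine ⟨?_, ?_⟩
  · intro a b hab
    fin_cases a <;> fin_cases b <;> simp_all
  · intro a
    fin_cases a
    · exact hi
    · exact hj

lemma sl_inc3 {T : Finset ℕ} {x y z : ℕ} (hx : x ∈ T) (hy : y ∈ T) (hz : z ∈ T) (hxy : x < y)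
    (hyz : y < z) : Inc 3 T ![x, y, z] := by
  have hxz := hxy.trans hyz
  refine ⟨?_, ?_⟩
  · intro a b hab
    fin_cases a <;> fin_cases b <;> simp_all
  · intro a
    fin_cases a
    · exact hx
    · exact hy
    · exact hz

lemma sl_tw_le (a b x : ℕ) (hab : a ≤ b) : tw a x ≤ tw b x := by
  induction b, hab using Nat.le_induction with
  | base => exact le_rfl
  | succ b _ ih => exact ih.trans (Nat.lt_two_pow_self).le

/-- the combinatorial core: centres and comparisons -/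
lemma sl_core (hR : RamseyStmt) (N k q : ℕ) (κ : ℝ) (hκ : 0 < κ) : ∃ A : ℕ, 1 ≤ A ∧
    ∀ B0 : ℝ, 0 < B0 →
    ∀ m : ℕ, 1 ≤ m → ∀ S : Finset ℕ, tw 12 (A * m) ≤ S.card →
    ∀ G : Fin N → ℕ → ℝ, Spread N B0 S G →
    ∀ (ι : Type) [Fintype ι], Fintype.card ι ≤ q → ∀ Γ : ι → ℝ,
    ∃ T ⊆ S, m ≤ T.card ∧ ∃ zc : Fin N × Fin N → ℝ,
      (∀ p : Fin N × Fin N, p.1 ≠ p.2 → (∀ i ∈ T, B0 ≤ (G p.1 i - G p.2 i) - zc p) ∨
        (∀ i ∈ T, (G p.1 i - G p.2 i) - zc p ≤ -B0)) ∧
      (∀ u w : Fin N × Fin N, u.1 ≠ u.2 → w.1 ≠ w.2 →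
        (∀ i ∈ T, ∀ j ∈ T, i < j → κ * |(G u.1 i - G u.2 i) - zc u| ≤
          |(G w.1 j - G w.2 j) - zc w|) ∨
        (∀ i ∈ T, ∀ j ∈ T, i < j → κ * |(G w.1 j - G w.2 j) - zc w| ≤
          |(G u.1 i - G u.2 i) - zc u|)) ∧
      (∀ (γ : ι) (a b : Fin k → Fin N) (u : Fin N × Fin N), u.1 ≠ u.2 →
        (∀ i ∈ T, κ * |Γ γ + ∑ l, (if a l = b l then 0 else zc (a l, b l))| ≤
          |(G u.1 i - G u.2 i) - zc u|) ∨
        (∀ i ∈ T, κ * |(G u.1 i - G u.2 i) - zc u| ≤
          |Γ γ + ∑ l, (if a l = b l then 0 else zc (a l, b l))|)) := by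
  classical
  obtain ⟨r0, hr0⟩ : ∃ r0 : ℕ, κ ^ 2 ≤ 2 ^ r0 := by
    obtain ⟨n, hn⟩ := pow_unbounded_of_one_lt (κ ^ 2) (one_lt_two (α := ℝ))
    exact ⟨n, hn.le⟩
  obtain ⟨A1, hA1, h1⟩ := sl_ramsey hR 3 (Fintype.card (Fin N × Fin N))
  obtain ⟨A2, hA2, h2⟩ := sl_ramsey hR 2
    (Fintype.card ((Fin N × Fin N) × (Fin N × Fin N) × Bool) +
      q * Fintype.card ((Fin k → Fin N) × (Fin k → Fin N) × (Fin N × Fin N) × Bool))
  refine ⟨(A1 * 3) * (A2 * (r0 + 3)), by nlinarith [Nat.mul_pos hA1 hA2], ?_⟩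
  intro B0 hB0 m hm S hS G hG ι _ hι Γ
  set t4 := tw 4 (A2 * ((r0 + 3) * m)) with ht4
  have hpos4 : 1 ≤ A2 * ((r0 + 3) * m) := Nat.mul_pos hA2 (Nat.mul_pos (by omega) hm)
  have ht41 : 1 ≤ t4 := tw_pos 4 _ hpos4
  have hS' : tw (2 * 3) (A1 * (3 * t4)) ≤ S.card := by
    refine le_trans ?_ hS
    have e1 : A1 * (3 * t4) ≤ tw 4 ((A1 * 3) * (A2 * ((r0 + 3) * m))) := by
      rw [← mul_assoc]
      exact mul_tw_le 4 (A1 * 3) _ (by omega) hpos4
    have e2 : (A1 * 3) * (A2 * ((r0 + 3) * m)) = (A1 * 3) * (A2 * (r0 + 3)) * m := by ring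
    rw [e2] at e1
    calc tw (2 * 3) (A1 * (3 * t4)) ≤ tw (2 * 3) (tw 4 ((A1 * 3) * (A2 * (r0 + 3)) * m)) :=
          tw_mono (2 * 3) e1
      _ = tw (2 * 3 + 4) ((A1 * 3) * (A2 * (r0 + 3)) * m) := tw_tw _ _ _
      _ ≤ tw 12 ((A1 * 3) * (A2 * (r0 + 3)) * m) := sl_tw_le _ _ _ (by norm_num)
  obtain ⟨T1, hT1S, hT1m, hT1⟩ := h1 (3 * t4) (by omega) S hS' (Fin N × Fin N) le_rfl
    (fun p t => |(G p.1 (t 1) - G p.2 (t 1)) - (G p.1 (t 0) - G p.2 (t 0))| ≤
      |(G p.1 (t 2) - G p.2 (t 2)) - (G p.1 (t 1) - G p.2 (t 1))|)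
  have hT1ne : T1.Nonempty := Finset.card_pos.1 (by omega)
  set lo := T1.min' hT1ne with hlo
  set hi := T1.max' hT1ne with hhi
  have hloT : lo ∈ T1 := Finset.min'_mem _ _
  have hhiT : hi ∈ T1 := Finset.max'_mem _ _
  let T1' : Finset ℕ := (T1.erase lo).erase hi
  have hT1' : ∀ i ∈ T1', i ∈ T1 ∧ lo < i ∧ i < hi := by
    intro i hi'
    have e1 := Finset.mem_erase.1 hi'
    have e2 := Finset.mem_erase.1 e1.2
    exact ⟨e2.2, lt_of_le_of_ne (Finset.min'_le _ _ e2.2) (Ne.symm e2.1),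
      lt_of_le_of_ne (Finset.le_max' _ _ e2.2) e1.1⟩
  have hT1'c : t4 ≤ T1'.card := by
    have e1 : (T1.erase lo).card - 1 ≤ T1'.card := Finset.pred_card_le_card_erase
    have e2 : T1.card - 1 ≤ (T1.erase lo).card := Finset.pred_card_le_card_erase
    omega
  have hzc : ∀ p : Fin N × Fin N, ∃ c : ℝ, p.1 ≠ p.2 →
      ((∀ i ∈ T1', B0 ≤ (G p.1 i - G p.2 i) - c) ∨ (∀ i ∈ T1', (G p.1 i - G p.2 i) - c ≤ -B0)) ∧
      ((∀ i ∈ T1', ∀ j ∈ T1', i < j →
          2 * |(G p.1 i - G p.2 i) - c| ≤ |(G p.1 j - G p.2 j) - c|) ∨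
       (∀ i ∈ T1', ∀ j ∈ T1', i < j →
          2 * |(G p.1 j - G p.2 j) - c| ≤ |(G p.1 i - G p.2 i) - c|)) := by
    intro p
    by_cases hp : p.1 = p.2
    · exact ⟨0, fun h => absurd hp h⟩
    · have hD : (∀ i ∈ T1, ∀ j ∈ T1, i < j →
            (G p.1 i - G p.2 i) + B0 ≤ (G p.1 j - G p.2 j)) ∨
          (∀ i ∈ T1, ∀ j ∈ T1, i < j → (G p.1 j - G p.2 j) + B0 ≤ (G p.1 i - G p.2 i)) := by
        rcases lt_or_gt_of_ne hp with h | h
        · right
          intro i hi' j hj hij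
          have := hG p.1 p.2 h i (hT1S hi') j (hT1S hj) hij
          linarith
        · left
          intro i hi' j hj hij
          have := hG p.2 p.1 h i (hT1S hi') j (hT1S hj) hij
          linarith
      obtain ⟨c, hc⟩ := sl_centre (fun i => G p.1 i - G p.2 i) B0 hB0 T1 T1' lo hi hloT hhiT hT1'
        hD (by
          rcases hT1 p with h | h
          · left
            intro x hx y hy z hz hxy hyz
            exact h _ (sl_inc3 hx hy hz hxy hyz)
          · right
            intro x hx y hy z hz hxy hyz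
            exact h _ (sl_inc3 hx hy hz hxy hyz))
      exact ⟨c, fun _ => hc⟩
  choose zc hzc using hzc
  obtain ⟨T2, hT2S, hT2m, hT2⟩ := h2 ((r0 + 3) * m) (Nat.mul_pos (by omega) hm) T1' hT1'c
    (((Fin N × Fin N) × (Fin N × Fin N) × Bool) ⊕
      (ι × (Fin k → Fin N) × (Fin k → Fin N) × (Fin N × Fin N) × Bool))
    (by
      rw [Fintype.card_sum, Fintype.card_prod ι]
      exact Nat.add_le_add_left (Nat.mul_le_mul_right _ hι) _)
    (fun x t => match x with
      | Sum.inl (u, w, true) => κ * |(G u.1 (t 0) - G u.2 (t 0)) - zc u| ≤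
          |(G w.1 (t 1) - G w.2 (t 1)) - zc w|
      | Sum.inl (u, w, false) => κ * |(G w.1 (t 1) - G w.2 (t 1)) - zc w| ≤
          |(G u.1 (t 0) - G u.2 (t 0)) - zc u|
      | Sum.inr (γ, a, b, u, true) =>
          κ * |Γ γ + ∑ l, (if a l = b l then 0 else zc (a l, b l))| ≤
          |(G u.1 (t 0) - G u.2 (t 0)) - zc u|
      | Sum.inr (γ, a, b, u, false) => κ * |(G u.1 (t 0) - G u.2 (t 0)) - zc u| ≤
          |Γ γ + ∑ l, (if a l = b l then 0 else zc (a l, b l))|)
  have hcard2 : r0 + 3 ≤ T2.card := le_trans (Nat.le_mul_of_pos_right _ hm) hT2m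
  have hT2ne : T2.Nonempty := Finset.card_pos.1 (by omega)
  have hT2T : ∀ i ∈ T2, i ∈ T1' := fun i hi' => hT2S hi'
  set mx := T2.max' hT2ne with hmx
  have hmxT : mx ∈ T2 := Finset.max'_mem _ _
  set mn := T2.min' hT2ne with hmn
  have hmnT : mn ∈ T2 := Finset.min'_mem _ _
  have hlpos : ∀ p : Fin N × Fin N, p.1 ≠ p.2 → ∀ i ∈ T1', 0 < |(G p.1 i - G p.2 i) - zc p| := by
    intro p hp i hi'
    rcases (hzc p hp).1 with h | h
    · have := h i hi'
      rw [abs_of_pos (by linarith)]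
      linarith
    · have := h i hi'
      rw [abs_of_neg (by linarith)]
      linarith
  have hsub : ∀ i ∈ T2.erase mx, i ∈ T2 := fun i hi' => Finset.mem_of_mem_erase hi'
  refine ⟨T2.erase mx, fun i hi' => hT1S (hT1' i (hT2T i (hsub i hi'))).1, ?_, zc, ?_, ?_, ?_⟩
  · have e1 : T2.card - 1 ≤ (T2.erase mx).card := Finset.pred_card_le_card_erase
    have e2 : 3 * m ≤ (r0 + 3) * m := Nat.mul_le_mul_right _ (by omega)
    omega
  · intro p hp
    rcases (hzc p hp).1 with h | h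
    · left
      exact fun i hi' => h i (hT2T i (hsub i hi'))
    · right
      exact fun i hi' => h i (hT2T i (hsub i hi'))
  · intro u w hu hw
    have ha := hT2 (Sum.inl (u, w, true))
    have hb := hT2 (Sum.inl (u, w, false))
    rcases ha with ha | ha
    · left
      intro i hi' j hj hij
      exact ha _ (sl_inc2 (hsub i hi') (hsub j hj) hij)
    rcases hb with hb | hb
    · right
      intro i hi' j hj hij
      exact hb _ (sl_inc2 (hsub i hi') (hsub j hj) hij)
    exfalso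
    have hlt : ∀ i ∈ T2.erase mn, mn < i := fun i hi' =>
      lt_of_le_of_ne (Finset.min'_le _ _ (Finset.mem_of_mem_erase hi'))
        (Ne.symm (Finset.ne_of_mem_erase hi'))
    refine sl_squeeze (fun i => |(G w.1 i - G w.2 i) - zc w|) (T2.erase mn) κ
      (|(G u.1 mn - G u.2 mn) - zc u|) r0 hκ hr0 ?_ ?_ ?_ ?_ ?_
    · have e1 : T2.card - 1 ≤ (T2.erase mn).card := Finset.pred_card_le_card_erase
      omega
    · exact fun i hi' => hlpos w hw i (hT2T i (Finset.mem_of_mem_erase hi'))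
    · rcases (hzc w hw).2 with h | h
      · left
        exact fun i hi' j hj hij => h i (hT2T i (Finset.mem_of_mem_erase hi')) j
          (hT2T j (Finset.mem_of_mem_erase hj)) hij
      · right
        exact fun i hi' j hj hij => h i (hT2T i (Finset.mem_of_mem_erase hi')) j
          (hT2T j (Finset.mem_of_mem_erase hj)) hij
    · intro i hi'
      exact not_le.1 (ha _ (sl_inc2 hmnT (Finset.mem_of_mem_erase hi') (hlt i hi')))
    · intro i hi'
      exact not_le.1 (hb _ (sl_inc2 hmnT (Finset.mem_of_mem_erase hi') (hlt i hi')))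
  · intro γ a b u hu
    have ha := hT2 (Sum.inr (γ, a, b, u, true))
    have hb := hT2 (Sum.inr (γ, a, b, u, false))
    have hlt : ∀ i ∈ T2.erase mx, i < mx := fun i hi' =>
      lt_of_le_of_ne (Finset.le_max' _ _ (Finset.mem_of_mem_erase hi'))
        (Finset.ne_of_mem_erase hi')
    rcases ha with ha | ha
    · left
      intro i hi'
      exact ha _ (sl_inc2 (hsub i hi') hmxT (hlt i hi'))
    rcases hb with hb | hb
    · right
      intro i hi'
      exact hb _ (sl_inc2 (hsub i hi') hmxT (hlt i hi'))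
    exfalso
    refine sl_squeeze (fun i => |(G u.1 i - G u.2 i) - zc u|) (T2.erase mx) κ
      (|Γ γ + ∑ l, (if a l = b l then 0 else zc (a l, b l))|) r0 hκ hr0 ?_ ?_ ?_ ?_ ?_
    · have e1 : T2.card - 1 ≤ (T2.erase mx).card := Finset.pred_card_le_card_erase
      omega
    · exact fun i hi' => hlpos u hu i (hT2T i (hsub i hi'))
    · rcases (hzc u hu).2 with h | h
      · left
        exact fun i hi' j hj hij => h i (hT2T i (hsub i hi')) j (hT2T j (hsub j hj)) hij
      · right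
        exact fun i hi' j hj hij => h i (hT2T i (hsub i hi')) j (hT2T j (hsub j hj)) hij
    · intro i hi'
      exact not_le.1 (ha _ (sl_inc2 (hsub i hi') hmxT (hlt i hi')))
    · intro i hi'
      exact not_le.1 (hb _ (sl_inc2 (hsub i hi') hmxT (hlt i hi')))

/-- TARGET 2: semilinear lemma -/
theorem semilinear (hR : RamseyStmt) (N k q : ℕ) (B : ℝ) : ∃ A : ℕ, 1 ≤ A ∧ ∃ B₀ : ℝ,
    ∀ m : ℕ, 1 ≤ m → ∀ S : Finset ℕ, tw 12 (A * m) ≤ S.card →
    ∀ G : Fin N → ℕ → ℝ, Spread N B₀ S G →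
    ∀ (ι : Type) [Fintype ι], Fintype.card ι ≤ q → ∀ Γ : ι → ℝ,
    ∃ T ⊆ S, m ≤ T.card ∧ ∀ (γ : ι) (a b : Fin k → Fin N), a ≠ b →
      (∀ t, Inc k T t → B ≤ Γ γ + ∑ l, (G (a l) (t l) - G (b l) (t l))) ∨
      (∀ t, Inc k T t → Γ γ + ∑ l, (G (a l) (t l) - G (b l) (t l)) ≤ -B) := by
  classical
  have hκ : (0 : ℝ) < 2 * ((k : ℝ) + 1) + 2 := by positivity
  obtain ⟨A, hA, hcore⟩ := sl_core hR N k q (2 * ((k : ℝ) + 1) + 2) hκ
  refine ⟨A, hA, max (2 * B) 1, fun m hm S hS G hG ι _ hι Γ => ?_⟩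
  have hB0 : (0 : ℝ) < max (2 * B) 1 := lt_max_of_lt_right one_pos
  obtain ⟨T, hTS, hTm, zc, hz1, hz2, hz3⟩ := hcore (max (2 * B) 1) hB0 m hm S hS G hG ι hι Γ
  refine ⟨T, hTS, hTm, fun γ a b hab => ?_⟩
  obtain ⟨l0, hl0⟩ : ∃ l, a l ≠ b l := Function.ne_iff.1 hab
  let x : Option {l : Fin k // a l ≠ b l} → {t : Fin k → ℕ // Inc k T t} → ℝ := fun o t =>
    match o with
    | none => Γ γ + ∑ l, (if a l = b l then 0 else zc (a l, b l))
    | some l => (G (a l) (t.1 l) - G (b l) (t.1 l)) - zc (a l, b l)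
  have hsum : ∀ t : {t : Fin k → ℕ // Inc k T t}, ∑ o, x o t
      = Γ γ + ∑ l, (G (a l) (t.1 l) - G (b l) (t.1 l)) := by
    intro t
    rw [Fintype.sum_option]
    show (Γ γ + ∑ l, (if a l = b l then 0 else zc (a l, b l))) +
      ∑ l : {l : Fin k // a l ≠ b l}, ((G (a l) (t.1 l) - G (b l) (t.1 l)) - zc (a l, b l)) = _
    have e1 : ∑ l : {l : Fin k // a l ≠ b l},
        ((G (a l) (t.1 l) - G (b l) (t.1 l)) - zc (a l, b l))
        = ∑ l ∈ Finset.univ.filter (fun l => a l ≠ b l),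
          ((G (a l) (t.1 l) - G (b l) (t.1 l)) - zc (a l, b l)) :=
      (Finset.sum_subtype _ (fun l => by simp)
        (fun l => ((G (a l) (t.1 l) - G (b l) (t.1 l)) - zc (a l, b l)))).symm
    rw [e1, Finset.sum_filter, add_assoc, ← Finset.sum_add_distrib]
    congr 1
    refine Finset.sum_congr rfl fun l _ => ?_
    by_cases hl : a l = b l
    · simp [hl]
    · simp [hl]
  have hcardle : (Fintype.card (Option {l : Fin k // a l ≠ b l}) : ℝ) ≤ (k : ℝ) + 1 := by
    rw [Fintype.card_option]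
    push_cast
    have : Fintype.card {l : Fin k // a l ≠ b l} ≤ k := by
      have := Fintype.card_subtype_le (fun l : Fin k => a l ≠ b l)
      rwa [Fintype.card_fin] at this
    have : (Fintype.card {l : Fin k // a l ≠ b l} : ℝ) ≤ k := by exact_mod_cast this
    linarith
  have hcmp2 : ∀ l l' : {l : Fin k // a l ≠ b l}, l < l' →
      (∀ t, (2 * ((k : ℝ) + 1) + 2) * |x (some l) t| ≤ |x (some l') t|) ∨
      (∀ t, (2 * ((k : ℝ) + 1) + 2) * |x (some l') t| ≤ |x (some l) t|) := by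
    intro l l' hll
    have hll' : (l : Fin k) < l' := hll
    rcases hz2 (a l, b l) (a l', b l') l.2 l'.2 with h | h
    · left
      intro t
      exact h _ (t.2.2 l) _ (t.2.2 l') (t.2.1 hll')
    · right
      intro t
      exact h _ (t.2.2 l) _ (t.2.2 l') (t.2.1 hll')
  obtain ⟨L, hL1, hL2⟩ := dom x (2 * ((k : ℝ) + 1) + 2) (by linarith) (by
    intro l l' hll
    match l, l' with
    | none, none => exact absurd rfl hll
    | none, some l =>
      rcases hz3 γ a b (a l, b l) l.2 with h | h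
      · left
        intro t
        exact h _ (t.2.2 l)
      · right
        intro t
        exact h _ (t.2.2 l)
    | some l, none =>
      rcases hz3 γ a b (a l, b l) l.2 with h | h
      · right
        intro t
        exact h _ (t.2.2 l)
      · left
        intro t
        exact h _ (t.2.2 l)
    | some l, some l' =>
      have hne : l ≠ l' := fun h => hll (by rw [h])
      rcases lt_or_gt_of_ne hne with h | h
      · exact hcmp2 l l' h
      · exact (hcmp2 l' l h).symm) (by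
    intro l
    match l with
    | none =>
      rcases le_total 0 (Γ γ + ∑ l, (if a l = b l then 0 else zc (a l, b l))) with h | h
      · left
        intro t
        exact h
      · right
        intro t
        exact h
    | some l =>
      rcases hz1 (a l, b l) l.2 with h | h
      · left
        intro t
        have := h _ (t.2.2 l)
        exact hB0.le.trans this
      · right
        intro t
        have := h _ (t.2.2 l)
        exact this.trans (by linarith)) (by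
    intro t
    refine ⟨some ⟨l0, hl0⟩, ?_⟩
    rcases hz1 (a l0, b l0) hl0 with h | h
    · have := h _ (t.2.2 l0)
      exact abs_pos_of_pos (hB0.trans_le this)
    · have := h _ (t.2.2 l0)
      exact abs_pos_of_neg (this.trans_lt (by linarith)))
  have hbig : ∀ t : {t : Fin k → ℕ // Inc k T t}, B ≤ |x L t| / 2 := by
    intro t
    have h1 := hL1 t (some ⟨l0, hl0⟩)
    have h2 : max (2 * B) 1 ≤ |x (some ⟨l0, hl0⟩) t| := by
      rcases hz1 (a l0, b l0) hl0 with h | h
      · have h3 := h _ (t.2.2 l0)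
        exact h3.trans (le_abs_self _)
      · have h3 := h _ (t.2.2 l0)
        have h4 : max (2 * B) 1 ≤ -((G (a l0) (t.1 l0) - G (b l0) (t.1 l0)) - zc (a l0, b l0)) := by
          linarith
        exact h4.trans (neg_le_abs _)
    have h3 : 2 * B ≤ max (2 * B) 1 := le_max_left _ _
    linarith
  rcases hL2 with h | h
  · left
    intro t ht
    have h1 := h ⟨t, ht⟩
    rw [hsum] at h1
    exact (hbig ⟨t, ht⟩).trans h1
  · right
    intro t ht
    have h1 := h ⟨t, ht⟩
    rw [hsum] at h1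
    have := hbig ⟨t, ht⟩
    linarith


end K2

section K3


/-- (given) one member of a finite family dominates -/
def DomStmt : Prop := ∀ {ι τ : Type} [Fintype ι] [DecidableEq ι] (x : ι → τ → ℝ) (κ : ℝ)
    (_ : 2 * (Fintype.card ι : ℝ) + 2 ≤ κ)
    (_ : ∀ l l', l ≠ l' → (∀ t, κ * |x l t| ≤ |x l' t|) ∨ (∀ t, κ * |x l' t| ≤ |x l t|))
    (_ : ∀ l, (∀ t, 0 ≤ x l t) ∨ (∀ t, x l t ≤ 0)) (_ : ∀ t, ∃ l, 0 < |x l t|) [Nonempty ι],
    ∃ L : ι, (∀ t, ∀ l, |x l t| ≤ |x L t|) ∧
      ((∀ t, |x L t| / 2 ≤ ∑ l, x l t) ∨ (∀ t, ∑ l, x l t ≤ -(|x L t| / 2)))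

/-- (given) semilinear lemma -/
def SemilinearStmt : Prop := ∀ (N k q : ℕ) (B : ℝ), ∃ A : ℕ, 1 ≤ A ∧ ∃ B₀ : ℝ,
    ∀ m : ℕ, 1 ≤ m → ∀ S : Finset ℕ, tw 12 (A * m) ≤ S.card →
    ∀ G : Fin N → ℕ → ℝ, Spread N B₀ S G →
    ∀ (ι : Type) [Fintype ι], Fintype.card ι ≤ q → ∀ Γ : ι → ℝ,
    ∃ T ⊆ S, m ≤ T.card ∧ ∀ (γ : ι) (a b : Fin k → Fin N), a ≠ b →
      (∀ t, Inc k T t → B ≤ Γ γ + ∑ l, (G (a l) (t l) - G (b l) (t l))) ∨
      (∀ t, Inc k T t → Γ γ + ∑ l, (G (a l) (t l) - G (b l) (t l)) ≤ -B)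

/-- TARGET -/
theorem dominance (hD : DomStmt) (hL : SemilinearStmt) (N k : ℕ) : ∃ A : ℕ, 1 ≤ A ∧ ∃ B₀ : ℝ,
    ∀ m : ℕ, 1 ≤ m → ∀ S : Finset ℕ, tw 12 (A * m) ≤ S.card →
    ∀ g : Fin N → ℕ → ℝ, (∀ a, ∀ i ∈ S, 0 < g a i) →
    Spread N B₀ S (fun a i => Real.log (g a i)) →
    ∀ c : (Fin k → Fin N) → ℝ, ∃ T ⊆ S, m ≤ T.card ∧
      ((∀ t, Inc k T t → 0 ≤ ∑ a : Fin k → Fin N, c a * ∏ l, g (a l) (t l)) ∨
       (∀ t, Inc k T t → ∑ a : Fin k → Fin N, c a * ∏ l, g (a l) (t l) < 0)) := by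
  classical
  set κ : ℝ := 2 * ((N : ℝ) ^ k) + 2 with hκdef
  have hNk : (0 : ℝ) ≤ (N : ℝ) ^ k := by positivity
  have hκ1 : 1 < κ := by rw [hκdef]; linarith
  have hκ0 : 0 < κ := by linarith
  obtain ⟨A, hA, B₀, h⟩ := hL N k (Fintype.card ((Fin k → Fin N) × (Fin k → Fin N))) (Real.log κ)
  refine ⟨A, hA, B₀, ?_⟩
  intro m hm S hS g hg hsp c
  obtain ⟨T, hTS, hTm, hdich⟩ := h m hm S hS (fun a i => Real.log (g a i)) hsp
    ((Fin k → Fin N) × (Fin k → Fin N)) le_rfl
    (fun p => Real.log |c p.1| - Real.log |c p.2|)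
  refine ⟨T, hTS, hTm, ?_⟩
  have hprod : ∀ (a : Fin k → Fin N) (t : Fin k → ℕ), Inc k T t → 0 < ∏ l, g (a l) (t l) :=
    fun a t ht => Finset.prod_pos fun l _ => hg _ _ (hTS (ht.2 l))
  have hsum : ∀ t : Fin k → ℕ, ∑ a : Fin k → Fin N, c a * ∏ l, g (a l) (t l) =
      ∑ a : {a : Fin k → Fin N // c a ≠ 0}, c a.1 * ∏ l, g (a.1 l) (t l) := by
    intro t
    have h1 : ∑ a ∈ Finset.univ.filter (fun a : Fin k → Fin N => c a ≠ 0),
        c a * ∏ l, g (a l) (t l) = ∑ a : Fin k → Fin N, c a * ∏ l, g (a l) (t l) :=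
      Finset.sum_filter_of_ne fun a _ ha hc => ha (by rw [hc, zero_mul])
    rw [← h1]
    exact Finset.sum_subtype _ (fun a => by simp) _
  rcases isEmpty_or_nonempty {a : Fin k → Fin N // c a ≠ 0} with he | hne
  · left
    intro t _
    rw [hsum t, Finset.univ_eq_empty, Finset.sum_empty]
  · have hx := fun (a : {a : Fin k → Fin N // c a ≠ 0}) (t : {t : Fin k → ℕ // Inc k T t}) =>
      hprod a.1 t.1 t.2
    have habs : ∀ (a : {a : Fin k → Fin N // c a ≠ 0}) (t : {t : Fin k → ℕ // Inc k T t}),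
        |c a.1 * ∏ l, g (a.1 l) (t.1 l)| = |c a.1| * ∏ l, g (a.1 l) (t.1 l) := fun a t => by
      rw [abs_mul, abs_of_pos (hx a t)]
    have hpos : ∀ (a : {a : Fin k → Fin N // c a ≠ 0}) (t : {t : Fin k → ℕ // Inc k T t}),
        0 < |c a.1 * ∏ l, g (a.1 l) (t.1 l)| := fun a t => by
      rw [habs a t]
      exact mul_pos (abs_pos.2 a.2) (hx a t)
    have hlog : ∀ (a : {a : Fin k → Fin N // c a ≠ 0}) (t : {t : Fin k → ℕ // Inc k T t}),
        Real.log |c a.1 * ∏ l, g (a.1 l) (t.1 l)| =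
          Real.log |c a.1| + ∑ l, Real.log (g (a.1 l) (t.1 l)) := fun a t => by
      rw [habs a t, Real.log_mul (abs_pos.2 a.2).ne' (hx a t).ne', Real.log_prod]
      intro l _
      exact (hg _ _ (hTS (t.2.2 l))).ne'
    have hcmp : ∀ (a b : {a : Fin k → Fin N // c a ≠ 0}) (t : {t : Fin k → ℕ // Inc k T t}),
        Real.log κ + Real.log |c b.1 * ∏ l, g (b.1 l) (t.1 l)| ≤
          Real.log |c a.1 * ∏ l, g (a.1 l) (t.1 l)| →
        κ * |c b.1 * ∏ l, g (b.1 l) (t.1 l)| ≤ |c a.1 * ∏ l, g (a.1 l) (t.1 l)| := by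
      intro a b t hab
      rw [← Real.log_mul hκ0.ne' (hpos b t).ne'] at hab
      exact (Real.log_le_log_iff (mul_pos hκ0 (hpos b t)) (hpos a t)).1 hab
    obtain ⟨L, hL1, hL2⟩ := hD (ι := {a : Fin k → Fin N // c a ≠ 0})
      (τ := {t : Fin k → ℕ // Inc k T t})
      (fun a t => c a.1 * ∏ l, g (a.1 l) (t.1 l)) κ
      (by
        have h1 : Fintype.card {a : Fin k → Fin N // c a ≠ 0} ≤ N ^ k := by
          have := Fintype.card_subtype_le (fun a : Fin k → Fin N => c a ≠ 0)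
          simpa using this
        have h2 : (Fintype.card {a : Fin k → Fin N // c a ≠ 0} : ℝ) ≤ (N : ℝ) ^ k := by
          exact_mod_cast h1
        rw [hκdef]
        linarith)
      (by
        intro a b hab
        have hab' : a.1 ≠ b.1 := fun h => hab (Subtype.ext h)
        rcases hdich (a.1, b.1) a.1 b.1 hab' with h1 | h1
        · right
          intro t
          refine hcmp a b t ?_
          rw [hlog a t, hlog b t]
          have := h1 t.1 t.2
          rw [Finset.sum_sub_distrib] at this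
          simp only at this
          linarith
        · left
          intro t
          refine hcmp b a t ?_
          rw [hlog a t, hlog b t]
          have := h1 t.1 t.2
          rw [Finset.sum_sub_distrib] at this
          simp only at this
          linarith)
      (by
        intro a
        rcases lt_or_gt_of_ne a.2 with h1 | h1
        · right
          intro t
          exact mul_nonpos_of_nonpos_of_nonneg h1.le (hx a t).le
        · left
          intro t
          exact mul_nonneg h1.le (hx a t).le)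
      (fun t => ⟨Classical.arbitrary _, hpos _ t⟩)
    rcases hL2 with h1 | h1
    · left
      intro t ht
      rw [hsum t]
      have := h1 ⟨t, ht⟩
      have h2 := hpos L ⟨t, ht⟩
      simp only at this h2
      linarith
    · right
      intro t ht
      rw [hsum t]
      have := h1 ⟨t, ht⟩
      have h2 := hpos L ⟨t, ht⟩
      simp only at this h2
      linarith


end K3

section LW


/-- TARGET 1 -/
theorem window : WindowStmt := by
  classical
  intro P S hP B hB G f U hU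
  have hGe : Gen P B ∅ G f := ⟨by simp, by simp⟩
  -- maximal generic subset
  obtain ⟨T0, hT0, hmax⟩ := Finset.exists_max_image (U.powerset.filter (fun T => Gen P B T G f))
    (fun T => T.card) ⟨∅, by simp [hGe]⟩
  rw [Finset.mem_filter, Finset.mem_powerset] at hT0
  obtain ⟨hT0U, hT0G⟩ := hT0
  have hT0S : T0.card < S := hU T0 hT0U hT0G
  by_cases hz : U.card ≤ 2 * (U.filter (fun i => f i = 0)).card
  · refine ⟨U.filter (fun i => f i = 0), Finset.filter_subset _ _, ?_, Or.inl ?_⟩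
    · calc U.card ≤ 2 * (U.filter (fun i => f i = 0)).card := hz
        _ ≤ (2 * S * P + 2) * (U.filter (fun i => f i = 0)).card :=
          Nat.mul_le_mul_right _ (by omega)
    · intro i hi
      exact (Finset.mem_filter.mp hi).2
  · have hsplit := Finset.card_filter_add_card_filter_not (s := U) (fun i => f i = 0)
    obtain ⟨N, hN⟩ : ∃ N : Finset ℕ, N = U.filter (fun i => ¬ f i = 0) := ⟨_, rfl⟩
    rw [← hN] at hsplit
    have hUN : U.card ≤ 2 * N.card := by omega
    have hNpos : 0 < N.card := by omega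
    let cl : ℕ × Fin P → Finset ℕ := fun q => N.filter (fun j =>
      |(Real.log |f j| - G q.2 j) - (Real.log |f q.1| - G q.2 q.1)| ≤ B)
    have hcov : N ⊆ (T0 ×ˢ (Finset.univ : Finset (Fin P))).biUnion cl := by
      intro j hj
      have hj' : j ∈ U ∧ ¬ f j = 0 := by rw [hN, Finset.mem_filter] at hj; exact hj
      rw [Finset.mem_biUnion]
      by_cases hjT : j ∈ T0
      · refine ⟨(j, ⟨0, hP⟩), ?_, ?_⟩
        · simp [hjT]
        · simp only [cl, Finset.mem_filter]
          refine ⟨hj, ?_⟩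
          simpa using hB
      · have hng : ¬ Gen P B (insert j T0) G f := by
          intro hg
          have h1 := hmax (insert j T0) (by
            rw [Finset.mem_filter, Finset.mem_powerset]
            exact ⟨Finset.insert_subset hj'.1 hT0U, hg⟩)
          rw [Finset.card_insert_of_notMem hjT] at h1
          omega
        have hnz : ∀ i ∈ insert j T0, f i ≠ 0 := by
          intro i hi
          rcases Finset.mem_insert.mp hi with rfl | hi
          · exact hj'.2
          · exact hT0G.1 i hi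
        have h2 : ∃ b, ∃ i ∈ insert j T0, ∃ i' ∈ insert j T0, i ≠ i' ∧
            |(Real.log |f i| - G b i) - (Real.log |f i'| - G b i')| < B := by
          by_contra hcon
          apply hng
          refine ⟨hnz, ?_⟩
          intro b i hi i' hi' hne
          by_contra hlt
          exact hcon ⟨b, i, hi, i', hi', hne, not_le.mp hlt⟩
        obtain ⟨b, i, hi, i', hi', hne, hlt⟩ := h2
        rcases Finset.mem_insert.mp hi with rfl | hiT
        · rcases Finset.mem_insert.mp hi' with rfl | hiT'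
          · exact absurd rfl hne
          · refine ⟨(i', b), by simp [hiT'], ?_⟩
            simp only [cl, Finset.mem_filter]
            exact ⟨hj, hlt.le⟩
        · rcases Finset.mem_insert.mp hi' with rfl | hiT'
          · refine ⟨(i, b), by simp [hiT], ?_⟩
            simp only [cl, Finset.mem_filter]
            refine ⟨hj, ?_⟩
            rw [abs_sub_comm]
            exact hlt.le
          · exact absurd (hT0G.2 b i hiT i' hiT' hne) (not_le.mpr hlt)
    have hne : (T0 ×ˢ (Finset.univ : Finset (Fin P))).Nonempty := by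
      by_contra hemp
      rw [Finset.not_nonempty_iff_eq_empty] at hemp
      rw [hemp, Finset.biUnion_empty] at hcov
      have := Finset.card_le_card hcov
      rw [Finset.card_empty] at this
      omega
    obtain ⟨q, hq, hqmax⟩ := Finset.exists_max_image _ (fun q => (cl q).card) hne
    have hcard : N.card ≤ (T0.card * P) * (cl q).card := by
      calc N.card ≤ ((T0 ×ˢ (Finset.univ : Finset (Fin P))).biUnion cl).card :=
            Finset.card_le_card hcov
        _ ≤ ∑ q' ∈ T0 ×ˢ (Finset.univ : Finset (Fin P)), (cl q').card := Finset.card_biUnion_le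
        _ ≤ (T0 ×ˢ (Finset.univ : Finset (Fin P))).card • (cl q).card :=
            Finset.sum_le_card_nsmul _ _ _ hqmax
        _ = (T0.card * P) * (cl q).card := by
            rw [Finset.card_product, Finset.card_univ, Fintype.card_fin, smul_eq_mul]
    refine ⟨cl q, ?_, ?_, Or.inr ⟨q.2, Real.log |f q.1| - G q.2 q.1, ?_⟩⟩
    · refine (Finset.filter_subset _ _).trans ?_
      rw [hN]
      exact Finset.filter_subset _ _
    · have h1 : T0.card * P ≤ S * P := Nat.mul_le_mul_right _ hT0S.le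
      calc U.card ≤ 2 * N.card := hUN
        _ ≤ 2 * ((T0.card * P) * (cl q).card) := Nat.mul_le_mul_left _ hcard
        _ ≤ 2 * ((S * P) * (cl q).card) :=
            Nat.mul_le_mul_left _ (Nat.mul_le_mul_right _ h1)
        _ = (2 * S * P) * (cl q).card := by ring
        _ ≤ (2 * S * P + 2) * (cl q).card := Nat.mul_le_mul_right _ (by omega)
    · intro i hi
      simp only [cl, Finset.mem_filter] at hi
      have hi1 := hi.1
      rw [hN, Finset.mem_filter] at hi1
      exact ⟨hi1.2, hi.2⟩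

/-- TARGET 2 -/
theorem common : CommonStmt := by
  classical
  intro M K hK X Y T hTY hTc hY
  have key : ∀ t ≤ M, ∃ Q ⊆ Y, Q.card = t ∧ ∃ X' ⊆ X, X.card ≤ (2 * K) ^ t * X'.card ∧
      ∀ p ∈ X', Q ⊆ T p := by
    intro t
    induction t with
    | zero =>
      intro _
      exact ⟨∅, Finset.empty_subset _, Finset.card_empty, X, Finset.Subset.refl _, by simp,
        fun p _ => Finset.empty_subset _⟩
    | succ t ih =>
      intro ht
      obtain ⟨Q, hQY, hQc, X', hX', hXc, hQT⟩ := ih (by omega)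
      have hKM : M ≤ K * M := Nat.le_mul_of_pos_left M hK
      have hY2 : 2 * M ≤ Y.card := by
        calc 2 * M ≤ 2 * (K * M) := Nat.mul_le_mul_left _ hKM
          _ = 2 * K * M := by ring
          _ ≤ Y.card := hY
      have hne : (Y \ Q).Nonempty := by
        rw [← Finset.card_pos, Finset.card_sdiff_of_subset hQY]
        omega
      have hTp : ∀ p ∈ X', Y.card ≤ 2 * K * (T p \ Q).card := by
        intro p hp
        have h1 := hTc p (hX' hp)
        have h2 : 2 * M ≤ (T p).card := by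
          have h3 : K * (2 * M) ≤ K * (T p).card := by
            calc K * (2 * M) = 2 * K * M := by ring
              _ ≤ Y.card := hY
              _ ≤ K * (T p).card := h1
          exact Nat.le_of_mul_le_mul_left h3 hK
        have h4 : (T p \ Q).card = (T p).card - Q.card :=
          Finset.card_sdiff_of_subset (hQT p hp)
        have h5 : (T p).card ≤ 2 * (T p \ Q).card := by omega
        calc Y.card ≤ K * (T p).card := h1
          _ ≤ K * (2 * (T p \ Q).card) := Nat.mul_le_mul_left _ h5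
          _ = 2 * K * (T p \ Q).card := by ring
      have hdc : ∑ i ∈ Y \ Q, (X'.filter (fun p => i ∈ T p)).card
          = ∑ p ∈ X', (T p \ Q).card := by
        have h1 : ∀ p ∈ X', (T p \ Q).card = ((Y \ Q).filter (fun i => i ∈ T p)).card := by
          intro p hp
          congr 1
          ext i
          simp only [Finset.mem_sdiff, Finset.mem_filter]
          constructor
          · rintro ⟨h1, h2⟩
            exact ⟨⟨hTY p (hX' hp) h1, h2⟩, h1⟩
          · rintro ⟨⟨_, h2⟩, h3⟩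
            exact ⟨h3, h2⟩
        rw [Finset.sum_congr rfl h1]
        exact Finset.sum_card_bipartiteAbove_eq_sum_card_bipartiteBelow (fun i p => i ∈ T p)
      have hsum : ∑ _i ∈ Y \ Q, X'.card ≤
          ∑ i ∈ Y \ Q, 2 * K * (X'.filter (fun p => i ∈ T p)).card := by
        rw [← Finset.mul_sum, hdc, Finset.mul_sum, Finset.sum_const, smul_eq_mul]
        calc (Y \ Q).card * X'.card ≤ Y.card * X'.card :=
              Nat.mul_le_mul_right _ (Finset.card_le_card Finset.sdiff_subset)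
          _ = ∑ _p ∈ X', Y.card := by rw [Finset.sum_const, smul_eq_mul]; ring
          _ ≤ ∑ p ∈ X', 2 * K * (T p \ Q).card := Finset.sum_le_sum hTp
      obtain ⟨i, hi, hile⟩ := Finset.exists_le_of_sum_le hne hsum
      rw [Finset.mem_sdiff] at hi
      refine ⟨insert i Q, Finset.insert_subset hi.1 hQY, ?_, X'.filter (fun p => i ∈ T p),
        (Finset.filter_subset _ _).trans hX', ?_, ?_⟩
      · rw [Finset.card_insert_of_notMem hi.2, hQc]
      · calc X.card ≤ (2 * K) ^ t * X'.card := hXc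
          _ ≤ (2 * K) ^ t * (2 * K * (X'.filter (fun p => i ∈ T p)).card) :=
              Nat.mul_le_mul_left _ hile
          _ = (2 * K) ^ (t + 1) * (X'.filter (fun p => i ∈ T p)).card := by ring
      · intro p hp
        rw [Finset.mem_filter] at hp
        exact Finset.insert_subset hp.2 (hQT p hp.1)
  exact key M le_rfl


end LW

section LI


/-- TARGET -/
theorem interp : InterpStmt := by
  classical
  intro P ℓ hℓ A a0 ha0 hmin B0 hB0 U G hS w hN p hp Q hQU hQc hpQ lam ε hε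
  have hm1 : 1 ≤ A.card := Finset.card_pos.mpr ⟨a0, ha0⟩
  obtain ⟨m, hm⟩ : ∃ m : ℝ, m = (A.card : ℝ) := ⟨_, rfl⟩
  have hm1' : 1 ≤ m := by rw [hm]; exact_mod_cast hm1
  rw [← hm] at hB0 ⊢
  have hlog4 : Real.log (4 * m ^ 2) = 2 * Real.log (2 * m) := by
    have : 4 * m ^ 2 = (2 * m) ^ 2 := by ring
    rw [this, Real.log_pow]
    norm_num
  have hlog2 : 0 ≤ Real.log (2 * m) := Real.log_nonneg (by linarith)
  rw [hlog4] at hB0
  have hw : ∀ a ∈ A, ∀ i ∈ U, 0 < w a i := fun a ha i hi => (hN a ha i hi).1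
  have hjump : ∀ a ∈ A, ∀ b ∈ A, a < b → ∀ i ∈ U, ∀ j ∈ U, i < j →
      (Real.log (w b i) - Real.log (w a i)) + (B0 - 4 * ℓ)
        ≤ Real.log (w b j) - Real.log (w a j) := by
    intro a ha b hb hab i hi j hj hij
    have h1 := hS a b hab i hi j hj hij
    have h2 := abs_le.mp (hN a ha i hi).2
    have h3 := abs_le.mp (hN a ha j hj).2
    have h4 := abs_le.mp (hN b hb i hi).2
    have h5 := abs_le.mp (hN b hb j hj).2
    linarith
  -- exceptional points
  let Ex : Fin P × Fin P → Finset ℕ := fun q => Q.filter (fun i => q.1 < q.2 ∧ lam q.1 ≠ 0 ∧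
    lam q.2 ≠ 0 ∧ |Real.log (|lam q.2| * w q.2 i) - Real.log (|lam q.1| * w q.1 i)|
      < Real.log (2 * m))
  have hkey : ∀ a ∈ A, ∀ b ∈ A, a < b → lam a ≠ 0 → lam b ≠ 0 → ∀ i ∈ Q, ∀ j ∈ Q, i < j →
      |Real.log (|lam b| * w b i) - Real.log (|lam a| * w a i)| < Real.log (2 * m) →
      |Real.log (|lam b| * w b j) - Real.log (|lam a| * w a j)| < Real.log (2 * m) → False := by
    intro a ha b hb hab hla hlb i hi j hj hij h1 h2
    have h3 := hjump a ha b hb hab i (hQU hi) j (hQU hj) hij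
    rw [Real.log_mul (abs_pos.mpr hlb).ne' (hw b hb i (hQU hi)).ne',
      Real.log_mul (abs_pos.mpr hla).ne' (hw a ha i (hQU hi)).ne'] at h1
    rw [Real.log_mul (abs_pos.mpr hlb).ne' (hw b hb j (hQU hj)).ne',
      Real.log_mul (abs_pos.mpr hla).ne' (hw a ha j (hQU hj)).ne'] at h2
    have h4 := (abs_lt.mp h1)
    have h5 := (abs_lt.mp h2)
    linarith [h4.1, h5.2]
  have hEx1 : ∀ q ∈ A ×ˢ A, (Ex q).card ≤ 1 := by
    rintro ⟨a, b⟩ hq
    rw [Finset.mem_product] at hq
    rw [Finset.card_le_one]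
    intro i hi j hj
    simp only [Ex, Finset.mem_filter] at hi hj
    by_contra hne
    rcases lt_or_gt_of_ne hne with h | h
    · exact hkey a hq.1 b hq.2 hi.2.1 hi.2.2.1 hi.2.2.2.1 i hi.1 j hj.1 h hi.2.2.2.2 hj.2.2.2.2
    · exact hkey a hq.1 b hq.2 hi.2.1 hi.2.2.1 hi.2.2.2.1 j hj.1 i hi.1 h hj.2.2.2.2 hi.2.2.2.2
  have hcard : ((A ×ˢ A).biUnion Ex).card < Q.card := by
    refine lt_of_le_of_lt (Finset.card_biUnion_le_card_mul _ _ 1 hEx1) ?_
    rw [Finset.card_product, mul_one, ← sq]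
    exact hQc
  obtain ⟨i, hiQ, hiE⟩ := Finset.exists_mem_notMem_of_card_lt_card hcard
  have hiU := hQU hiQ
  have hsep : ∀ a ∈ A, ∀ b ∈ A, a ≠ b → lam a ≠ 0 → lam b ≠ 0 →
      Real.log (2 * m) ≤ |Real.log (|lam b| * w b i) - Real.log (|lam a| * w a i)| := by
    have hlt : ∀ a ∈ A, ∀ b ∈ A, a < b → lam a ≠ 0 → lam b ≠ 0 →
        Real.log (2 * m) ≤ |Real.log (|lam b| * w b i) - Real.log (|lam a| * w a i)| := by
      intro a ha b hb hab hla hlb
      by_contra hcon
      push Not at hcon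
      apply hiE
      rw [Finset.mem_biUnion]
      refine ⟨(a, b), Finset.mem_product.mpr ⟨ha, hb⟩, ?_⟩
      simp only [Ex, Finset.mem_filter]
      exact ⟨hiQ, hab, hla, hlb, hcon⟩
    intro a ha b hb hab hla hlb
    rcases lt_or_gt_of_ne hab with h | h
    · exact hlt a ha b hb h hla hlb
    · rw [abs_sub_comm]
      exact hlt b hb a ha h hlb hla
  -- the maximal term
  obtain ⟨s, hsA, hsmax⟩ := Finset.exists_max_image A (fun a => |lam a| * w a i) ⟨a0, ha0⟩
  have hεw : 0 ≤ ε * w a0 i := (abs_nonneg _).trans (hε i hiQ)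
  have htop : |lam s| * w s i ≤ 2 * (ε * w a0 i) := by
    by_cases hls : lam s = 0
    · rw [hls, abs_zero, zero_mul]; linarith
    · have hws := hw s hsA i hiU
      have htpos : 0 < |lam s| * w s i := mul_pos (abs_pos.mpr hls) hws
      have hsmall : ∀ a ∈ A.erase s, |lam a * w a i| ≤ (|lam s| * w s i) / (2 * m) := by
        intro a ha
        rw [Finset.mem_erase] at ha
        have hwa := hw a ha.2 i hiU
        rw [abs_mul, abs_of_pos hwa]
        by_cases hla : lam a = 0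
        · rw [hla, abs_zero, zero_mul]
          positivity
        · have hapos : 0 < |lam a| * w a i := mul_pos (abs_pos.mpr hla) hwa
          have h1 := hsep a ha.2 s hsA ha.1 hla hls
          have h2 := Real.log_le_log hapos (hsmax a ha.2)
          rw [abs_of_nonneg (by linarith)] at h1
          have h3 : Real.log (2 * m) + Real.log (|lam a| * w a i)
              ≤ Real.log (|lam s| * w s i) := by linarith
          rw [← Real.log_mul (by positivity) hapos.ne'] at h3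
          have h4 := (Real.log_le_log_iff (by positivity) htpos).mp h3
          rw [le_div_iff₀ (by positivity)]
          linarith
      have hrest : |∑ a ∈ A.erase s, lam a * w a i| ≤ (|lam s| * w s i) / 2 := by
        refine (Finset.abs_sum_le_sum_abs _ _).trans ((Finset.sum_le_sum hsmall).trans ?_)
        rw [Finset.sum_const, nsmul_eq_mul]
        have hc : ((A.erase s).card : ℝ) ≤ m := by
          rw [hm]
          exact_mod_cast Finset.card_le_card (Finset.erase_subset _ _)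
        calc ((A.erase s).card : ℝ) * ((|lam s| * w s i) / (2 * m))
            ≤ m * ((|lam s| * w s i) / (2 * m)) :=
              mul_le_mul_of_nonneg_right hc (by positivity)
          _ = (|lam s| * w s i) / 2 := by field_simp
      have h5 := hε i hiQ
      rw [← Finset.add_sum_erase _ _ hsA] at h5
      have h6 : |lam s * w s i| - |∑ a ∈ A.erase s, lam a * w a i|
          ≤ |lam s * w s i + ∑ a ∈ A.erase s, lam a * w a i| := by
        have := abs_sub_abs_le_abs_sub (lam s * w s i) (-(∑ a ∈ A.erase s, lam a * w a i))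
        rwa [abs_neg, sub_neg_eq_add] at this
      rw [abs_mul, abs_of_pos hws] at h6
      linarith
  have hall : ∀ a ∈ A, |lam a| * w a i ≤ 2 * (ε * w a0 i) := fun a ha => (hsmax a ha).trans htop
  have hpi := hpQ i hiQ
  have hw0i := hw a0 ha0 i hiU
  have hw0p := hw a0 ha0 p hp
  have hallp : ∀ a ∈ A, |lam a * w a p| ≤ 2 * ε * w a0 p := by
    intro a ha
    have hwap := hw a ha p hp
    have hwai := hw a ha i hiU
    rw [abs_mul, abs_of_pos hwap]
    have hcross : w a p * w a0 i ≤ w a i * w a0 p := by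
      rcases eq_or_lt_of_le (hmin a ha) with h | h
      · rw [← h, mul_comm]
      · have h1 := hjump a0 ha0 a ha h p hp i hiU hpi
        have h2 : Real.log (w a p) + Real.log (w a0 i) ≤ Real.log (w a i) + Real.log (w a0 p) := by
          linarith
        rw [← Real.log_mul hwap.ne' hw0i.ne', ← Real.log_mul hwai.ne' hw0p.ne'] at h2
        exact (Real.log_le_log_iff (by positivity) (by positivity)).mp h2
    have h3 : |lam a| * w a p * w a0 i ≤ 2 * ε * w a0 p * w a0 i := by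
      calc |lam a| * w a p * w a0 i = |lam a| * (w a p * w a0 i) := by ring
        _ ≤ |lam a| * (w a i * w a0 p) := mul_le_mul_of_nonneg_left hcross (abs_nonneg _)
        _ = (|lam a| * w a i) * w a0 p := by ring
        _ ≤ (2 * (ε * w a0 i)) * w a0 p := mul_le_mul_of_nonneg_right (hall a ha) hw0p.le
        _ = 2 * ε * w a0 p * w a0 i := by ring
    exact le_of_mul_le_mul_right h3 hw0i
  refine (Finset.abs_sum_le_sum_abs _ _).trans ((Finset.sum_le_sum hallp).trans ?_)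
  rw [Finset.sum_const, nsmul_eq_mul, ← hm]
  exact le_of_eq (by ring)


end LI

section LO


lemma split_half (U : Finset ℕ) (hU : 2 ≤ U.card) : ∃ Lf Rt : Finset ℕ, Lf ⊆ U ∧ Rt ⊆ U ∧
    U.card ≤ 3 * Lf.card ∧ U.card ≤ 3 * Rt.card ∧ ∀ p ∈ Lf, ∀ i ∈ Rt, p < i := by
  classical
  set u := U.orderEmbOfFin rfl with hu
  set k := U.card / 2 with hk
  refine ⟨(Finset.univ.filter (fun x : Fin U.card => x.val < k)).map u.toEmbedding,
    (Finset.univ.filter (fun x : Fin U.card => ¬ x.val < k)).map u.toEmbedding, ?_, ?_, ?_, ?_, ?_⟩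
  · intro i hi
    rw [Finset.mem_map] at hi
    obtain ⟨x, -, rfl⟩ := hi
    exact U.orderEmbOfFin_mem rfl x
  · intro i hi
    rw [Finset.mem_map] at hi
    obtain ⟨x, -, rfl⟩ := hi
    exact U.orderEmbOfFin_mem rfl x
  · rw [Finset.card_map]
    have : (Finset.univ.filter (fun x : Fin U.card => x.val < k)).card = k := by
      rw [Fin.card_filter_val_lt]
      omega
    omega
  · rw [Finset.card_map]
    have h1 : (Finset.univ.filter (fun x : Fin U.card => x.val < k)).card = k := by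
      rw [Fin.card_filter_val_lt]
      omega
    have h2 := Finset.card_filter_add_card_filter_not (s := (Finset.univ : Finset (Fin U.card)))
      (fun x : Fin U.card => x.val < k)
    rw [Finset.card_univ, Fintype.card_fin] at h2
    omega
  · intro p hp i hi
    rw [Finset.mem_map] at hp hi
    obtain ⟨x, hx, rfl⟩ := hp
    obtain ⟨y, hy, rfl⟩ := hi
    apply u.strictMono
    rw [Finset.mem_filter] at hx hy
    exact Fin.lt_def.2 (lt_of_lt_of_le hx.2 (not_lt.1 hy.2))

lemma cluster (η W β : ℝ) (hη : 0 < η) (T : Finset ℕ) (hT : T.Nonempty) (g : ℕ → ℝ)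
    (h1 : ∀ i ∈ T, |g i| ≤ W) (h2 : ∀ i ∈ T, β ≤ |g i|) :
    ∃ (mu : ℝ) (T2 : Finset ℕ), T2 ⊆ T ∧ T.card ≤ (2 * ⌈W / η⌉₊ + 3) * T2.card ∧ β ≤ |mu| ∧
      ∀ i ∈ T2, |g i - mu| ≤ η := by
  classical
  set K := ⌈W / η⌉₊ with hK
  set I : Finset ℤ := Finset.Icc (-(K + 1 : ℤ)) (K + 1) with hI
  have hmap : ∀ i ∈ T, ⌊g i / η⌋ ∈ I := by
    intro i hi
    have h3 := abs_le.1 (h1 i hi)
    have h4 : W / η ≤ K := Nat.le_ceil _
    have h5 : g i / η ≤ K := le_trans (by gcongr; exact h3.2) h4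
    have h6 : -(K : ℝ) ≤ g i / η := by
      have : -(W / η) ≤ g i / η := by
        rw [← neg_div]
        gcongr
        exact h3.1
      linarith
    rw [hI, Finset.mem_Icc]
    constructor
    · apply Int.le_floor.2
      push_cast
      linarith
    · have : ⌊g i / η⌋ ≤ (K : ℤ) := by
        have := Int.floor_le (g i / η)
        have h7 : ((⌊g i / η⌋ : ℤ) : ℝ) ≤ ((K : ℤ) : ℝ) := by push_cast; linarith
        exact_mod_cast h7
      omega
  have hIc : I.card = 2 * K + 3 := by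
    rw [hI, Int.card_Icc]
    omega
  have hpig : ∃ z ∈ I, T.card ≤ I.card * (T.filter (fun i => ⌊g i / η⌋ = z)).card := by
    by_contra! hcon
    have h3 := Finset.card_eq_sum_card_fiberwise hmap
    have h4 : ∑ z ∈ I, I.card * (T.filter (fun i => ⌊g i / η⌋ = z)).card < ∑ z ∈ I, T.card :=
      Finset.sum_lt_sum_of_nonempty ⟨0, by rw [hI, Finset.mem_Icc]; omega⟩ hcon
    rw [← Finset.mul_sum, ← h3, Finset.sum_const, smul_eq_mul] at h4
    exact lt_irrefl _ h4
  obtain ⟨z, hz, hzc⟩ := hpig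
  have hTpos : 0 < T.card := hT.card_pos
  have hfib : (T.filter (fun i => ⌊g i / η⌋ = z)).Nonempty := by
    rw [Finset.nonempty_iff_ne_empty]
    intro h0
    rw [h0, Finset.card_empty, mul_zero] at hzc
    omega
  obtain ⟨i0, hi0⟩ := hfib
  refine ⟨g i0, T.filter (fun i => ⌊g i / η⌋ = z), Finset.filter_subset _ _, ?_, ?_, ?_⟩
  · rw [← hIc]; exact hzc
  · exact h2 i0 (Finset.mem_filter.1 hi0).1
  · intro i hi
    have h3 := (Finset.mem_filter.1 hi).2
    have h4 := (Finset.mem_filter.1 hi0).2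
    have h5 := Int.floor_le (g i / η)
    have h6 := Int.lt_floor_add_one (g i / η)
    have h7 := Int.floor_le (g i0 / η)
    have h8 := Int.lt_floor_add_one (g i0 / η)
    rw [h3] at h5 h6
    rw [h4] at h7 h8
    have h9 : |g i / η - g i0 / η| ≤ 1 := by
      rw [abs_le]
      constructor <;> linarith
    rw [← sub_div, abs_div, abs_of_pos hη, div_le_one hη] at h9
    exact h9

/-- functions vanishing at `p` -/
noncomputable def w2 {P : ℕ} (w : Fin P → ℕ → ℝ) (a0 : Fin P) (p : ℕ) (b : Fin P) (i : ℕ) : ℝ :=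
  w b i - (w b p / w a0 p) * w a0 i

noncomputable def f2 {P : ℕ} (w : Fin P → ℕ → ℝ) (a0 : Fin P) (p : ℕ) (f0 : ℕ → ℝ) (i : ℕ) : ℝ :=
  f0 i - (f0 p / w a0 p) * w a0 i

lemma ev_two {P : ℕ} (A : Finset (Fin P)) (a0 : Fin P) (ha0 : a0 ∈ A) (w : Fin P → ℕ → ℝ)
    (f0 : ℕ → ℝ) (p : ℕ) (hp : w a0 p ≠ 0) (lam : Fin P → ℝ) :
    ∃ lam' : Fin P → ℝ, (∀ i, ev (A.erase a0) (w2 w a0 p) (f2 w a0 p f0) lam i = ev A w f0 lam' i) ∧
      ev A w f0 lam' p = 0 := by
  classical
  refine ⟨fun a => if a = a0 then -(f0 p / w a0 p) - ∑ b ∈ A.erase a0, lam b * (w b p / w a0 p)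
    else lam a, ?_, ?_⟩
  · intro i
    unfold ev f2 w2
    rw [← Finset.add_sum_erase A _ ha0]
    simp only [if_true]
    have h1 : ∑ x ∈ A.erase a0, (if x = a0 then -(f0 p / w a0 p) -
        ∑ b ∈ A.erase a0, lam b * (w b p / w a0 p) else lam x) * w x i =
        ∑ x ∈ A.erase a0, lam x * w x i := by
      apply Finset.sum_congr rfl
      intro x hx
      rw [if_neg (Finset.ne_of_mem_erase hx)]
    rw [h1]
    have h2 : ∑ a ∈ A.erase a0, lam a * (w a i - w a p / w a0 p * w a0 i) =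
        ∑ a ∈ A.erase a0, lam a * w a i - (∑ a ∈ A.erase a0, lam a * (w a p / w a0 p)) * w a0 i := by
      rw [Finset.sum_mul, ← Finset.sum_sub_distrib]
      apply Finset.sum_congr rfl
      intro x _
      ring
    rw [h2]
    ring
  · unfold ev
    rw [← Finset.add_sum_erase A _ ha0]
    simp only [if_true]
    have h1 : ∑ x ∈ A.erase a0, (if x = a0 then -(f0 p / w a0 p) -
        ∑ b ∈ A.erase a0, lam b * (w b p / w a0 p) else lam x) * w x p =
        ∑ x ∈ A.erase a0, lam x * w x p := by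
      apply Finset.sum_congr rfl
      intro x hx
      rw [if_neg (Finset.ne_of_mem_erase hx)]
    rw [h1, sub_mul, Finset.sum_mul]
    have h2 : ∑ i ∈ A.erase a0, lam i * (w i p / w a0 p) * w a0 p =
        ∑ i ∈ A.erase a0, lam i * w i p := by
      apply Finset.sum_congr rfl
      intro x _
      field_simp
    rw [h2]
    field_simp
    ring

lemma near_two {P : ℕ} (ℓ B0 : ℝ) (hB0 : 4 * ℓ + 1 ≤ B0) (U : Finset ℕ) (G : Fin P → ℕ → ℝ)
    (hG : Spread P B0 U G) (A : Finset (Fin P)) (a0 : Fin P) (ha0 : a0 ∈ A)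
    (hmin : ∀ a ∈ A, a0 ≤ a) (w : Fin P → ℕ → ℝ) (hw : Near ℓ U G A w) (p : ℕ) (hp : p ∈ U)
    (Rt : Finset ℕ) (hR : Rt ⊆ U) (hpR : ∀ i ∈ Rt, p < i) :
    Near (ℓ + 1) Rt G (A.erase a0) (w2 w a0 p) := by
  intro b hb i hi
  have hbA := Finset.mem_of_mem_erase hb
  have hba : a0 < b := lt_of_le_of_ne (hmin b hbA) (Finset.ne_of_mem_erase hb).symm
  obtain ⟨h1, h1'⟩ := hw b hbA i (hR hi)
  obtain ⟨h2, h2'⟩ := hw b hbA p hp
  obtain ⟨h3, h3'⟩ := hw a0 ha0 i (hR hi)
  obtain ⟨h4, h4'⟩ := hw a0 ha0 p hp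
  have h5 := hG a0 b hba p hp i (hR hi) (hpR i hi)
  set th := (w b p / w a0 p) * (w a0 i / w b i) with hth
  have hthpos : 0 < th := by positivity
  have hthlog : Real.log th ≤ -1 := by
    rw [hth, Real.log_mul (by positivity) (by positivity), Real.log_div h2.ne' h4.ne',
      Real.log_div h3.ne' h1.ne']
    rw [abs_le] at h1' h2' h3' h4'
    linarith [h1'.1, h1'.2, h2'.1, h2'.2, h3'.1, h3'.2, h4'.1, h4'.2]
  have hthle : th ≤ Real.exp (-1) := by
    rw [← Real.log_le_iff_le_exp hthpos]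
    exact hthlog
  have hexp : Real.exp (-1) ≤ 1 / 2 := by
    rw [Real.exp_neg]
    have : (2 : ℝ) ≤ Real.exp 1 := by
      have := Real.add_one_le_exp (1 : ℝ)
      linarith
    rw [one_div]
    exact inv_anti₀ (by norm_num) this
  have hw2 : w2 w a0 p b i = w b i * (1 - th) := by
    unfold w2
    rw [hth]
    field_simp
  have h6 : 1 / 2 ≤ 1 - th := by linarith
  have h7 : 0 < 1 - th := by linarith
  refine ⟨by rw [hw2]; positivity, ?_⟩
  rw [hw2, Real.log_mul h1.ne' h7.ne']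
  have h8 : Real.log (1 - th) ≤ 0 := Real.log_nonpos h7.le (by linarith)
  have h9 : -1 ≤ Real.log (1 - th) := by
    have h10 : Real.log (1 / 2) ≤ Real.log (1 - th) := Real.log_le_log (by norm_num) h6
    have h11 : Real.log (1 / 2) = - Real.log 2 := by
      rw [one_div, Real.log_inv]
    have h12 := Real.log_two_lt_d9
    linarith
  rw [abs_le] at h1' ⊢
  constructor <;> linarith [h1'.1, h1'.2]

lemma win_bound {B ℓ c : ℝ} {T : Finset ℕ} {f w G : ℕ → ℝ} (hf : Win B T f G c)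
    (hw : ∀ i ∈ T, 0 < w i ∧ |Real.log (w i) - G i| ≤ ℓ) : ∀ i ∈ T,
    |f i / (Real.exp c * w i)| ≤ Real.exp (B + ℓ) ∧ Real.exp (-(B + ℓ)) ≤ |f i / (Real.exp c * w i)| := by
  intro i hi
  obtain ⟨h1, h2⟩ := hf i hi
  obtain ⟨h3, h4⟩ := hw i hi
  have h5 : 0 < |f i| := abs_pos.2 h1
  have h6 : 0 < Real.exp c * w i := by positivity
  have h7 : 0 < |f i| / (Real.exp c * w i) := by positivity
  have h8 : Real.log (|f i| / (Real.exp c * w i)) = Real.log |f i| - c - Real.log (w i) := by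
    rw [Real.log_div h5.ne' h6.ne', Real.log_mul (Real.exp_pos c).ne' h3.ne', Real.log_exp]
    ring
  rw [abs_div, abs_of_pos h6]
  rw [abs_le] at h2 h4
  constructor
  · rw [← Real.log_le_iff_le_exp h7, h8]
    linarith [h2.1, h2.2, h4.1, h4.2]
  · rw [← Real.le_log_iff_exp_le h7, h8]
    linarith [h2.1, h2.2, h4.1, h4.2]

/-- what one point `p` gives -/
lemma point_step {P : ℕ} (B ℓ η B0 : ℝ) (hη : 0 < η) (hB0 : 4 * ℓ + 1 ≤ B0)
    (K : ℕ) (U : Finset ℕ) (G : Fin P → ℕ → ℝ) (hG : Spread P B0 U G) (A : Finset (Fin P))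
    (a0 : Fin P) (ha0 : a0 ∈ A) (hmin : ∀ a ∈ A, a0 ≤ a) (w : Fin P → ℕ → ℝ) (f0 : ℕ → ℝ)
    (hw : Near ℓ U G A w) (p : ℕ) (hp : p ∈ U) (Rt : Finset ℕ) (hR : Rt ⊆ U) (hR0 : Rt.Nonempty)
    (hmain : Concl P K B Rt G (A.erase a0) (w2 w a0 p) (f2 w a0 p f0)) :
    Concl P ((2 * ⌈Real.exp (B + ℓ) / η⌉₊ + 3) * K) B Rt G A w f0 ∨
    ∃ (lam : Fin P → ℝ) (c : ℝ) (T2 : Finset ℕ), T2 ⊆ Rt ∧
      Rt.card ≤ ((2 * ⌈Real.exp (B + ℓ) / η⌉₊ + 3) * K) * T2.card ∧
      (∀ i ∈ T2, |ev A w f0 lam i| ≤ η * (Real.exp c * w a0 i)) ∧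
      Real.exp (-(B + ℓ)) * (Real.exp c * w a0 p) ≤ |ev A w f0 lam p| := by
  classical
  set N1 := 2 * ⌈Real.exp (B + ℓ) / η⌉₊ + 3 with hN1
  have hN1pos : 1 ≤ N1 := by omega
  obtain ⟨lam, T', hT', hcard, hout⟩ := hmain
  have hwp : 0 < w a0 p := (hw a0 ha0 p hp).1
  obtain ⟨lam', hlam', hlamp⟩ := ev_two A a0 ha0 w f0 p hwp.ne' lam
  have hfun : ev (A.erase a0) (w2 w a0 p) (f2 w a0 p f0) lam = ev A w f0 lam' := funext hlam'
  rw [hfun] at hout
  have hcard' : Rt.card ≤ N1 * K * T'.card := by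
    calc Rt.card ≤ K * T'.card := hcard
      _ ≤ N1 * (K * T'.card) := Nat.le_mul_of_pos_left _ hN1pos
      _ = N1 * K * T'.card := by ring
  rcases hout with hzero | ⟨b, hb, c, hwin⟩
  · left
    exact ⟨lam', T', hT', hcard', Or.inl hzero⟩
  · by_cases hba : b = a0
    · right
      subst hba
      have hT'0 : T'.Nonempty := by
        rw [Finset.nonempty_iff_ne_empty]
        intro h0
        rw [h0, Finset.card_empty, mul_zero] at hcard
        have := hR0.card_pos
        omega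
      have hwb := win_bound (w := w b) hwin (fun i hi => hw b ha0 i (hR (hT' hi)))
      obtain ⟨mu, T2, hT2, hT2c, hmu, hT2b⟩ := cluster η (Real.exp (B + ℓ)) (Real.exp (-(B + ℓ))) hη T'
        hT'0 (fun i => ev A w f0 lam' i / (Real.exp c * w b i)) (fun i hi => (hwb i hi).1)
        (fun i hi => (hwb i hi).2)
      have hev : ∀ i, ev A w f0 (Function.update lam' b (lam' b - mu * Real.exp c)) i =
          ev A w f0 lam' i - mu * (Real.exp c * w b i) := by
        intro i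
        unfold ev
        rw [← Finset.add_sum_erase A _ ha0, ← Finset.add_sum_erase A (fun a => lam' a * w a i) ha0]
        have h1 : ∑ x ∈ A.erase b, Function.update lam' b (lam' b - mu * Real.exp c) x * w x i =
            ∑ x ∈ A.erase b, lam' x * w x i := by
          apply Finset.sum_congr rfl
          intro x hx
          rw [Function.update_of_ne (Finset.ne_of_mem_erase hx)]
        rw [h1, Function.update_self]
        ring
      refine ⟨Function.update lam' b (lam' b - mu * Real.exp c), c, T2, hT2.trans hT', ?_, ?_, ?_⟩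
      · calc Rt.card ≤ K * T'.card := hcard
          _ ≤ K * (N1 * T2.card) := Nat.mul_le_mul_left _ hT2c
          _ = N1 * K * T2.card := by ring
      · intro i hi
        have hwi : 0 < Real.exp c * w b i := by
          have := (hw b ha0 i (hR (hT' (hT2 hi)))).1
          positivity
        have h1 := hT2b i hi
        rw [hev i]
        have h2 : ev A w f0 lam' i - mu * (Real.exp c * w b i) =
            (ev A w f0 lam' i / (Real.exp c * w b i) - mu) * (Real.exp c * w b i) := by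
          rw [sub_mul, div_mul_cancel₀ _ hwi.ne']
        rw [h2, abs_mul, abs_of_pos hwi]
        exact mul_le_mul_of_nonneg_right h1 hwi.le
      · have hwi : 0 < Real.exp c * w b p := by positivity
        rw [hev p, hlamp, zero_sub, abs_neg, abs_mul, abs_of_pos hwi]
        exact mul_le_mul_of_nonneg_right hmu hwi.le
    · left
      refine ⟨lam', T', hT', hcard', Or.inr ⟨b, ?_, c, hwin⟩⟩
      intro hbA
      exact hb (Finset.mem_erase.2 ⟨hba, hbA⟩)

lemma big_bound (N1 M P A' : ℕ) : ∃ A1 : ℕ, 1 ≤ A1 ∧ ∀ S : ℕ, 1 ≤ S →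
    6 * M * (2 * N1 * tw 2 (A' * S)) ^ M * (2 * S * P + 2) ≤ tw 2 (A1 * S) := by
  refine ⟨(6 * M + 2 * N1 * M + 2 + M + 2 * P) + 1 + A', by omega, ?_⟩
  intro S hS
  set Q := 6 * M + 2 * N1 * M + 2 + M + 2 * P with hQ
  have htw : ∀ x, tw 2 x = 2 ^ (2 ^ x) := fun x => rfl
  rw [htw, htw]
  set E := 2 ^ (A' * S) with hE
  have hE1 : 1 ≤ E := Nat.one_le_two_pow
  have h1 : 6 * M ≤ 2 ^ (6 * M) := Nat.lt_two_pow_self.le
  have h2 : 2 * N1 ≤ 2 ^ (2 * N1) := Nat.lt_two_pow_self.le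
  have h3 : 2 * S * P + 2 ≤ 2 ^ (2 * S * P + 2) := Nat.lt_two_pow_self.le
  calc 6 * M * (2 * N1 * 2 ^ E) ^ M * (2 * S * P + 2)
      ≤ 2 ^ (6 * M) * (2 ^ (2 * N1) * 2 ^ E) ^ M * 2 ^ (2 * S * P + 2) := by gcongr
    _ = 2 ^ (6 * M + (2 * N1 + E) * M + (2 * S * P + 2)) := by
        rw [← pow_add, ← pow_mul, ← pow_add, ← pow_add]
    _ ≤ 2 ^ (2 ^ ((Q + 1 + A') * S)) := by
        apply Nat.pow_le_pow_right (by norm_num)
        have h4 : 2 ^ ((Q + 1 + A') * S) = 2 ^ (Q * S) * 2 ^ S * E := by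
          rw [hE, ← pow_add, ← pow_add]; congr 1; ring
        rw [h4]
        have h5 : Q ≤ 2 ^ (Q * S) := le_trans Nat.lt_two_pow_self.le
          (Nat.pow_le_pow_right (by norm_num) (Nat.le_mul_of_pos_right _ hS))
        have h6 : S ≤ 2 ^ S := Nat.lt_two_pow_self.le
        calc 6 * M + (2 * N1 + E) * M + (2 * S * P + 2)
            ≤ Q * S * E := by
              have hSE : 1 ≤ S * E := Nat.mul_pos hS hE1
              have e1 : 6 * M ≤ 6 * M * (S * E) := Nat.le_mul_of_pos_right _ hSE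
              have e2 : 2 * N1 * M ≤ 2 * N1 * M * (S * E) := Nat.le_mul_of_pos_right _ hSE
              have e3 : 2 ≤ 2 * (S * E) := Nat.le_mul_of_pos_right _ hSE
              have e4 : M * E ≤ M * (S * E) := Nat.mul_le_mul_left _ (Nat.le_mul_of_pos_left _ hS)
              have e5 : 2 * P * S ≤ 2 * P * (S * E) :=
                Nat.mul_le_mul_left _ (Nat.le_mul_of_pos_right _ hE1)
              rw [hQ]
              nlinarith
          _ ≤ 2 ^ (Q * S) * 2 ^ S * E := by gcongr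

theorem one_step (hW : WindowStmt) (hC : CommonStmt) (hI : InterpStmt) (m : ℕ) (hm : MainStmt m) :
    OneStepStmt m := by
  classical
  intro P hP B ℓ η hB hℓ hη hη2
  obtain ⟨A', hA', B0', h0⟩ := hm P hP B (ℓ + 1) hB (by linarith)
  set N1 := 2 * ⌈Real.exp (B + ℓ) / η⌉₊ + 3 with hN1
  set M := (m + 1) ^ 2 + 1 with hM
  obtain ⟨A1, hA1, hbound⟩ := big_bound N1 M P A'
  set B0 := max (max B0' (4 * ℓ + Real.log (4 * ((m + 1 : ℕ) : ℝ) ^ 2) + 1)) (4 * ℓ + 1) with hB0
  refine ⟨A1, hA1, B0, ?_⟩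
  intro S hS U G hU hG A a0 hAc ha0 hmin w f0 hw hno
  by_cases hcon : Concl P (tw 2 (A1 * S)) B U G A w f0
  · exact Or.inl hcon
  right
  set K := N1 * tw 2 (A' * S) with hK
  have htwpos : 1 ≤ tw 2 (A' * S) := tw_pos _ _ (Nat.mul_pos hA' hS)
  have hN1pos : 3 ≤ N1 := by omega
  have hKpos : 1 ≤ K := Nat.mul_pos (by omega) htwpos
  have hMpos : 1 ≤ M := by omega
  have hb0 := hbound S hS
  have hKM : (2 * K) ≤ (2 * N1 * tw 2 (A' * S)) ^ M := by
    have : 2 * K = 2 * N1 * tw 2 (A' * S) := by rw [hK]; ring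
    rw [this]
    exact Nat.le_self_pow (by omega) _
  have hpowK : (2 * N1 * tw 2 (A' * S)) ^ M = (2 * K) ^ M := by
    congr 1; rw [hK]; ring
  rw [hpowK] at hb0 hKM
  -- crude consequences
  have hSP : 2 ≤ 2 * S * P + 2 := by omega
  have hc1 : 6 * M * (2 * K) * 2 ≤ tw 2 (A1 * S) := by
    refine le_trans ?_ hb0
    exact Nat.mul_le_mul (Nat.mul_le_mul_left _ hKM) hSP
  have hU2 : 2 ≤ U.card := by
    have : 6 * 1 * (2 * 1) * 2 ≤ 6 * M * (2 * K) * 2 := by gcongr
    omega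
  obtain ⟨Lf, Rt, hLf, hRt, hLc, hRc, hLR⟩ := split_half U hU2
  have hRbig : 2 * K * M ≤ Rt.card := by
    have h1 : 3 * (2 * K * M) ≤ U.card := by
      refine le_trans ?_ (le_trans hc1 hU)
      nlinarith [Nat.mul_pos hKpos hMpos]
    omega
  have hRtw : tw 2 (A' * S) ≤ Rt.card := by
    have h1 : tw 2 (A' * S) ≤ K := Nat.le_mul_of_pos_left _ (by omega)
    have h2 : K ≤ 2 * K * M := by nlinarith [Nat.mul_pos hKpos hMpos]
    omega
  have hR0 : Rt.Nonempty := by
    rw [← Finset.card_pos]; omega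
  have hGU : ∀ {V : Finset ℕ} {b : ℝ}, V ⊆ U → b ≤ B0 → Spread P b V G := by
    intro V b hV hb a c hac i hi j hj hij
    have := hG a c hac i (hV hi) j (hV hj) hij
    linarith
  have hwU : ∀ {V : Finset ℕ}, V ⊆ U → Near ℓ V G A w := fun hV a ha i hi => hw a ha i (hV hi)
  have hexpand : ∀ {V : Finset ℕ} {K2 : ℕ}, V ⊆ U → U.card ≤ 3 * V.card → 3 * K2 ≤ tw 2 (A1 * S) →
      ¬ Concl P K2 B V G A w f0 := by
    intro V K2 hV hVc hK2 hc
    apply hcon
    obtain ⟨lam, T', h1, h2, h3⟩ := hc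
    refine ⟨lam, T', h1.trans hV, ?_, h3⟩
    calc U.card ≤ 3 * V.card := hVc
      _ ≤ 3 * (K2 * T'.card) := Nat.mul_le_mul_left _ h2
      _ = 3 * K2 * T'.card := by ring
      _ ≤ _ := Nat.mul_le_mul_right _ hK2
  have h3K : 3 * K ≤ tw 2 (A1 * S) := by
    refine le_trans ?_ hc1
    nlinarith [Nat.mul_pos hKpos hMpos]
  have hpt : ∀ p ∈ Lf, ∃ (lam : Fin P → ℝ) (c : ℝ) (T2 : Finset ℕ), T2 ⊆ Rt ∧
      Rt.card ≤ K * T2.card ∧
      (∀ i ∈ T2, |ev A w f0 lam i| ≤ η * (Real.exp c * w a0 i)) ∧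
      Real.exp (-(B + ℓ)) * (Real.exp c * w a0 p) ≤ |ev A w f0 lam p| := by
    intro p hp
    have hpU := hLf hp
    have hwp : w a0 p ≠ 0 := (hw a0 ha0 p hpU).1.ne'
    have hmain := h0 S hS Rt G hRtw (hGU hRt (le_trans (le_max_left _ _) (le_max_left _ _)))
      (A.erase a0) (by rw [Finset.card_erase_of_mem ha0, hAc]; rfl) (w2 w a0 p) (f2 w a0 p f0)
      (near_two ℓ B0 (le_max_right _ _) U G hG A a0 ha0 hmin w hw p hpU Rt hRt (hLR p hp))
      (by
        intro lam T' hT' hgen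
        obtain ⟨lam', hl1, -⟩ := ev_two A a0 ha0 w f0 p hwp lam
        have : ev (A.erase a0) (w2 w a0 p) (f2 w a0 p f0) lam = ev A w f0 lam' := funext hl1
        rw [this] at hgen
        exact hno lam' T' (hT'.trans hRt) hgen)
    rcases point_step B ℓ η B0 hη (le_max_right _ _) (tw 2 (A' * S)) U G hG A a0 ha0 hmin w f0 hw p
      hpU Rt hRt hR0 hmain with h | h
    · exact absurd h (hexpand hRt hRc h3K)
    · exact h
  choose! lam c T2 hT2a hT2b hT2c hT2d using hpt
  obtain ⟨Q, hQR, hQc, X', hX', hX'c, hQT⟩ := hC M K hKpos Lf Rt T2 hT2a hT2b hRbig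
  have hX'0 : X'.Nonempty := by
    rw [← Finset.card_pos]
    by_contra h
    have : X'.card = 0 := by omega
    rw [this, mul_zero] at hX'c
    omega
  obtain ⟨p0, hp0, hp0min⟩ := Finset.exists_min_image X' c hX'0
  have hbeta : ∀ p ∈ X', Real.exp (-(B + ℓ)) / 4 * (Real.exp (c p0) * w a0 p) ≤
      |ev A w f0 (lam p0) p| := by
    intro p hp
    have hpL := hX' hp
    have hpU := hLf hpL
    have hwp : 0 < w a0 p := (hw a0 ha0 p hpU).1
    have hcle := hp0min p hp
    have hdiff : ∀ i, ∑ a ∈ A, (lam p a - lam p0 a) * w a i =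
        ev A w f0 (lam p) i - ev A w f0 (lam p0) i := by
      intro i
      unfold ev
      rw [show ∀ x y z : ℝ, x + y - (x + z) = y - z from fun x y z => by ring,
        ← Finset.sum_sub_distrib]
      apply Finset.sum_congr rfl
      intro a _
      ring
    have hint := hI P ℓ hℓ A a0 ha0 hmin B0 (by
        rw [hAc]; exact le_trans (le_max_right _ _) (le_max_left _ _)) U G hG w hw p hpU Q
      (hQR.trans hRt) (by rw [hQc, hAc, hM]; omega) (fun i hi => hLR p hpL i (hQR hi))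
      (fun a => lam p a - lam p0 a) (2 * η * Real.exp (c p)) (by
        intro i hi
        rw [hdiff i]
        have h1 := hT2c p hpL i (hQT p hp hi)
        have h2 := hT2c p0 (hX' hp0) i (hQT p0 hp0 hi)
        have hwi : 0 < w a0 i := (hw a0 ha0 i (hRt (hQR hi))).1
        have h3 : Real.exp (c p0) ≤ Real.exp (c p) := Real.exp_le_exp.2 hcle
        calc |ev A w f0 (lam p) i - ev A w f0 (lam p0) i|
            ≤ |ev A w f0 (lam p) i| + |ev A w f0 (lam p0) i| := abs_sub _ _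
          _ ≤ η * (Real.exp (c p) * w a0 i) + η * (Real.exp (c p0) * w a0 i) := add_le_add h1 h2
          _ ≤ η * (Real.exp (c p) * w a0 i) + η * (Real.exp (c p) * w a0 i) := by gcongr
          _ = 2 * η * Real.exp (c p) * w a0 i := by ring)
    rw [hdiff p, hAc] at hint
    have h4 := hT2d p hpL
    have h5 : |ev A w f0 (lam p) p| ≤ |ev A w f0 (lam p) p - ev A w f0 (lam p0) p| +
        |ev A w f0 (lam p0) p| := by
      have := abs_sub_abs_le_abs_sub (ev A w f0 (lam p) p) (ev A w f0 (lam p0) p)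
      linarith
    have hE : 0 < Real.exp (-(B + ℓ)) := Real.exp_pos _
    have h6 : 2 * ((m + 1 : ℕ) : ℝ) * (2 * η * Real.exp (c p)) * w a0 p ≤
        Real.exp (-(B + ℓ)) / 4 * (Real.exp (c p) * w a0 p) := by
      have h7 : 4 * ((m : ℝ) + 1) * η ≤ Real.exp (-(B + ℓ)) / 4 := by
        have hm1 : (0 : ℝ) < 16 * (m + 1) := by positivity
        have h8 := (le_div_iff₀ hm1).1 hη2
        nlinarith
      have h9 : 0 ≤ Real.exp (c p) * w a0 p := by positivity
      calc 2 * ((m + 1 : ℕ) : ℝ) * (2 * η * Real.exp (c p)) * w a0 p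
          = (4 * ((m : ℝ) + 1) * η) * (Real.exp (c p) * w a0 p) := by push_cast; ring
        _ ≤ _ := mul_le_mul_of_nonneg_right h7 h9
    have h10 : Real.exp (c p0) ≤ Real.exp (c p) := Real.exp_le_exp.2 hcle
    have h11 : Real.exp (-(B + ℓ)) / 4 * (Real.exp (c p0) * w a0 p) ≤
        Real.exp (-(B + ℓ)) / 4 * (Real.exp (c p) * w a0 p) := by gcongr
    have h12 : 0 ≤ Real.exp (-(B + ℓ)) * (Real.exp (c p) * w a0 p) := by positivity
    linarith
  obtain ⟨Bs, hBs, hBsc, hout⟩ := hW P S hP B (by linarith) G (ev A w f0 (lam p0)) X' (by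
    intro T' hT' hgen
    exact hno (lam p0) T' (hT'.trans (hX'.trans hLf)) hgen)
  have hBsU : Bs ⊆ U := hBs.trans (hX'.trans hLf)
  have hBs0 : Bs.Nonempty := by
    rw [← Finset.card_pos]
    by_contra h
    have : Bs.card = 0 := by omega
    rw [this, mul_zero] at hBsc
    have := hX'0.card_pos
    omega
  have hUB : U.card ≤ tw 2 (A1 * S) * Bs.card := by
    calc U.card ≤ 3 * Lf.card := hLc
      _ ≤ 3 * ((2 * K) ^ M * X'.card) := Nat.mul_le_mul_left _ hX'c
      _ ≤ 3 * ((2 * K) ^ M * ((2 * S * P + 2) * Bs.card)) := by gcongr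
      _ = (3 * (2 * K) ^ M * (2 * S * P + 2)) * Bs.card := by ring
      _ ≤ tw 2 (A1 * S) * Bs.card := by
          apply Nat.mul_le_mul_right
          refine le_trans ?_ hb0
          apply Nat.mul_le_mul_right
          apply Nat.mul_le_mul_right
          omega
  rcases hout with hzero | ⟨b, cs, hwin⟩
  · exfalso
    obtain ⟨p, hp⟩ := hBs0
    have h1 := hbeta p (hBs hp)
    rw [hzero p hp, abs_zero] at h1
    have hwp : 0 < w a0 p := (hw a0 ha0 p (hBsU hp)).1
    have : 0 < Real.exp (-(B + ℓ)) / 4 * (Real.exp (c p0) * w a0 p) := by positivity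
    linarith
  · by_cases hbA : b ∈ A
    · refine ⟨lam p0, c p0, b, cs, Bs, T2 p0, hbA, hBsU, (hT2a p0 (hX' hp0)).trans hRt, hUB, ?_, ?_,
        hT2c p0 (hX' hp0), fun p hp => hbeta p (hBs hp), hwin⟩
      · calc U.card ≤ 3 * Rt.card := hRc
          _ ≤ 3 * (K * (T2 p0).card) := Nat.mul_le_mul_left _ (hT2b p0 (hX' hp0))
          _ = 3 * K * (T2 p0).card := by ring
          _ ≤ _ := Nat.mul_le_mul_right _ h3K
      · intro p hp i hi
        exact hLR p (hX' (hBs hp)) i (hT2a p0 (hX' hp0) hi)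
    · exact absurd ⟨lam p0, Bs, hBsU, hUB, Or.inr ⟨b, hbA, cs, hwin⟩⟩ hcon


end LO

section LC


lemma chain_log (x y : ℝ) (hy : y ≠ 0) (h : |x - y| ≤ (1 / 50) * |y|) :
    x ≠ 0 ∧ |Real.log |x| - Real.log (|y|)| ≤ 1 / 20 := by
  have hy0 : 0 < |y| := abs_pos.2 hy
  have h1 : (49 / 50) * |y| ≤ |x| := by
    have := abs_sub_abs_le_abs_sub y x
    rw [abs_sub_comm y x] at this
    linarith
  have h2 : |x| ≤ (51 / 50) * |y| := by
    have := abs_sub_abs_le_abs_sub x y
    linarith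
  have hx0 : 0 < |x| := by nlinarith
  refine ⟨abs_pos.1 hx0, ?_⟩
  have h3 : Real.log |x| - Real.log |y| ≤ 1 / 20 := by
    rw [← Real.log_div hx0.ne' hy0.ne']
    have h4 := Real.log_le_sub_one_of_pos (div_pos hx0 hy0)
    have h5 : |x| / |y| ≤ 51 / 50 := by
      rw [div_le_iff₀ hy0]
      exact h2
    linarith
  have h6 : Real.log |y| - Real.log |x| ≤ 1 / 20 := by
    rw [← Real.log_div hy0.ne' hx0.ne']
    have h4 := Real.log_le_sub_one_of_pos (div_pos hy0 hx0)
    have h5 : |y| / |x| ≤ 50 / 49 := by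
      rw [div_le_iff₀ hx0]
      linarith
    linarith
  rw [abs_le]
  constructor <;> linarith

/-- greedy choice -/
lemma chain_greedy {P : ℕ} (B : ℝ) (t : ℕ) (Bs : ℕ → Finset ℕ) (V : Fin P → ℕ → ℝ) (a : Fin P)
    (I : Finset ℕ) (hI : I.card ≤ t) (hBc : ∀ s ∈ I, P * (t + 1) < (Bs s).card)
    (hsep : ∀ s ∈ I, ∀ b, b ≠ a → ∀ p ∈ Bs s, ∀ p' ∈ Bs s, p ≠ p' → 2 * B ≤ |V b p - V b p'|) :
    ∀ J : Finset ℕ, J ⊆ I → ∃ f : ℕ → ℕ, (∀ s ∈ J, f s ∈ Bs s) ∧
      ∀ s ∈ J, ∀ s' ∈ J, s ≠ s' → ∀ b, b ≠ a → B ≤ |V b (f s) - V b (f s')| := by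
  classical
  intro J
  induction J using Finset.induction_on with
  | empty => intro _; exact ⟨fun _ => 0, by simp, by simp⟩
  | insert s0 J hs0 ih =>
    intro hJ
    obtain ⟨f, hf1, hf2⟩ := ih (fun x hx => hJ (Finset.mem_insert_of_mem hx))
    have hs0I : s0 ∈ I := hJ (Finset.mem_insert_self _ _)
    let bad : Finset ℕ := (J ×ˢ (Finset.univ : Finset (Fin P))).biUnion
      (fun q => (Bs s0).filter (fun p => q.2 ≠ a ∧ |V q.2 p - V q.2 (f q.1)| < B))
    have hbad : bad.card ≤ J.card * P := by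
      refine Finset.card_biUnion_le.trans ?_
      calc ∑ q ∈ J ×ˢ (Finset.univ : Finset (Fin P)),
          ((Bs s0).filter (fun p => q.2 ≠ a ∧ |V q.2 p - V q.2 (f q.1)| < B)).card
          ≤ ∑ _q ∈ J ×ˢ (Finset.univ : Finset (Fin P)), 1 := by
            apply Finset.sum_le_sum
            intro q _
            rw [Finset.card_le_one]
            intro p hp p' hp'
            rw [Finset.mem_filter] at hp hp'
            by_contra hne
            have h1 := hsep s0 hs0I q.2 hp.2.1 p hp.1 p' hp'.1 hne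
            have h2 := hp.2.2
            have h3 := hp'.2.2
            have h4 : |V q.2 p - V q.2 p'| < 2 * B := by
              rw [abs_lt] at h2 h3 ⊢
              constructor <;> linarith
            linarith
        _ = J.card * P := by
            rw [Finset.sum_const, Finset.card_product, Finset.card_univ, Fintype.card_fin]
            simp
    have hJc : J.card ≤ t := (Finset.card_le_card (fun x hx => hJ (Finset.mem_insert_of_mem hx))).trans hI
    have hlt : bad.card < (Bs s0).card := by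
      have h1 := hBc s0 hs0I
      have h2 : J.card * P ≤ P * (t + 1) := by nlinarith
      omega
    obtain ⟨p, hp, hpb⟩ : ∃ p ∈ Bs s0, p ∉ bad := by
      by_contra hcon
      push Not at hcon
      exact absurd (Finset.card_le_card hcon) (not_le.2 hlt)
    have hpn : ∀ s ∈ J, ∀ b, b ≠ a → B ≤ |V b p - V b (f s)| := by
      intro s hs b hb
      by_contra hcon
      apply hpb
      rw [Finset.mem_biUnion]
      exact ⟨(s, b), Finset.mem_product.2 ⟨hs, Finset.mem_univ _⟩,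
        Finset.mem_filter.2 ⟨hp, hb, not_le.1 hcon⟩⟩
    refine ⟨Function.update f s0 p, ?_, ?_⟩
    · intro s hs
      rcases Finset.mem_insert.1 hs with rfl | hs
      · rw [Function.update_self]; exact hp
      · have : s ≠ s0 := fun h => hs0 (h ▸ hs)
        rw [Function.update_of_ne this]
        exact hf1 s hs
    · intro s hs s' hs' hne b hb
      by_cases q1 : s = s0
      · by_cases q2 : s' = s0
        · exact absurd (q1.trans q2.symm) hne
        · have hJ' : s' ∈ J := (Finset.mem_insert.1 hs').resolve_left q2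
          rw [q1, Function.update_self, Function.update_of_ne q2]
          exact hpn s' hJ' b hb
      · have hJ1 : s ∈ J := (Finset.mem_insert.1 hs).resolve_left q1
        by_cases q2 : s' = s0
        · rw [q2, Function.update_self, Function.update_of_ne q1, abs_sub_comm]
          exact hpn s hJ1 b hb
        · have hJ' : s' ∈ J := (Finset.mem_insert.1 hs').resolve_left q2
          rw [Function.update_of_ne q1, Function.update_of_ne q2]
          exact hf2 s hJ1 s' hJ' hne b hb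

/-- TARGET -/
theorem chain (hI : InterpStmt) : ChainStmt := by
  intro m P S B ℓ η B0 hB hℓ hη hηs hB0 U G hSp A a0 hAc ha0 hmin w f0 hNear t ht Ts Bs lam c cs
    as hT0 hTs hBs hlt hTc hBc has hsm hbig hWin
  classical
  have hM : (1 : ℝ) ≤ (m : ℝ) + 1 := by
    have : (0 : ℝ) ≤ m := Nat.cast_nonneg m
    linarith
  obtain ⟨E, hE⟩ : ∃ E, E = Real.exp (-(B + ℓ)) := ⟨_, rfl⟩
  have hE0 : 0 < E := by rw [hE]; exact Real.exp_pos _
  have hE1 : E ≤ 1 := by
    rw [hE]
    exact Real.exp_le_one_iff.2 (by linarith)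
  have hE3 : Real.exp (-(3 * B + 3 * ℓ)) = E ^ 3 := by
    rw [hE, ← Real.exp_nat_mul]
    congr 1
    push_cast
    ring
  obtain ⟨x, hx⟩ : ∃ x, x = η * ((m : ℝ) + 1) := ⟨_, rfl⟩
  have hx0 : 0 < x := by rw [hx]; positivity
  have hηx : η ≤ x := by rw [hx]; nlinarith
  have hxE3 : 1000 * x ≤ E ^ 3 := by
    rw [hE3, le_div_iff₀ (by positivity)] at hηs
    rw [hx]
    linarith
  have hxE : 1000 * x ≤ E := by
    have : E ^ 3 ≤ E := by
      have h1 : E ^ 2 ≤ 1 := by nlinarith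
      nlinarith
    linarith
  rw [← hE] at hbig
  have hlog4 : 0 ≤ Real.log (4 * ((m : ℝ) + 1) ^ 2) := by
    apply Real.log_nonneg
    nlinarith
  -- inclusions
  have hTsub : ∀ s s2, s ≤ s2 → s2 ≤ t + 1 → Ts s2 ⊆ Ts s := by
    intro s s2 h
    induction s2, h using Nat.le_induction with
    | base => intro _; exact Finset.Subset.refl _
    | succ n hn ih => intro hn1; exact (hTs n (by omega)).trans (ih (by omega))
  have hTU : ∀ s ≤ t + 1, Ts s ⊆ U := fun s hs => (hTsub 0 s (Nat.zero_le _) hs).trans hT0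
  have hBU : ∀ s ≤ t, Bs s ⊆ U := fun s hs => (hBs s hs).trans (hTU s (by omega))
  have hw0 : ∀ i ∈ U, 0 < w a0 i := fun i hi => (hNear a0 ha0 i hi).1
  have hdiff : ∀ s s2, s < s2 → s2 ≤ t → ∀ p ∈ U, (∀ i ∈ Ts (s2 + 1), p < i) →
      |ev A w f0 (lam s2) p - ev A w f0 (lam s) p| ≤
        2 * x * (Real.exp (c s) + Real.exp (c s2)) * w a0 p := by
    intro s s2 h1 h2 p hp hpi
    have e : ∀ i, ev A w f0 (lam s2) i - ev A w f0 (lam s) i =
        ∑ a ∈ A, (lam s2 a - lam s a) * w a i := by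
      intro i
      unfold ev
      rw [add_sub_add_left_eq_sub, ← Finset.sum_sub_distrib]
      exact Finset.sum_congr rfl (fun _ _ => by ring)
    rw [e]
    have hh := hI P ℓ hℓ A a0 ha0 hmin B0 (by rw [hAc]; push_cast; linarith) U G hSp w hNear p hp
      (Ts (s2 + 1)) (hTU (s2 + 1) (by omega)) (hTc s2 h2) hpi (fun a => lam s2 a - lam s a)
      (η * (Real.exp (c s) + Real.exp (c s2))) (by
        intro i hi
        show |∑ a ∈ A, (lam s2 a - lam s a) * w a i| ≤ _
        rw [← e]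
        have hi2 : i ∈ Ts (s + 1) := hTsub (s + 1) (s2 + 1) (by omega) (by omega) hi
        have k1 := hsm s2 h2 i hi
        have k2 := hsm s (by omega) i hi2
        rw [abs_le] at k1 k2 ⊢
        constructor <;> linarith [k1.1, k1.2, k2.1, k2.2])
    rw [hAc] at hh
    push_cast at hh
    refine hh.trans (le_of_eq ?_)
    rw [hx]
    ring
  have hdec : ∀ s s2, s < s2 → s2 ≤ t → Real.exp (c s2) ≤ Real.exp (c s) := by
    intro s s2 h1 h2
    obtain ⟨p, hp⟩ : (Bs s2).Nonempty := Finset.card_pos.1 (by have := hBc s2 h2; omega)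
    have hpU := hBU s2 h2 hp
    have hpT : p ∈ Ts (s + 1) := hTsub (s + 1) s2 (by omega) (by omega) (hBs s2 h2 hp)
    have k1 := hdiff s s2 h1 h2 p hpU (fun i hi => hlt s2 h2 p hp i hi)
    have k2 := hsm s (by omega) p hpT
    have k3 := hbig s2 h2 p hp
    have hw := hw0 p hpU
    have k4 := abs_sub_abs_le_abs_sub (ev A w f0 (lam s2) p) (ev A w f0 (lam s) p)
    have e1 := Real.exp_pos (c s)
    have e2 := Real.exp_pos (c s2)
    have k5 : (E / 4) * Real.exp (c s2) ≤
        η * Real.exp (c s) + 2 * x * (Real.exp (c s) + Real.exp (c s2)) := by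
      apply le_of_mul_le_mul_right _ hw
      linarith
    by_contra hcon
    rw [not_le] at hcon
    have k6 : η * Real.exp (c s) ≤ x * Real.exp (c s2) := mul_le_mul hηx hcon.le e1.le hx0.le
    have k7 : 2 * x * (Real.exp (c s) + Real.exp (c s2)) ≤ 4 * (x * Real.exp (c s2)) := by
      have := mul_le_mul_of_nonneg_left hcon.le hx0.le
      linarith
    have k8 : 1000 * x * Real.exp (c s2) ≤ E * Real.exp (c s2) :=
      mul_le_mul_of_nonneg_right hxE e2.le
    have k9 : 0 < E * Real.exp (c s2) := mul_pos hE0 e2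
    linarith
  have hdiff2 : ∀ s s2, s < s2 → s2 ≤ t → ∀ p ∈ U, (∀ i ∈ Ts (s2 + 1), p < i) →
      |ev A w f0 (lam s2) p - ev A w f0 (lam s) p| ≤ 4 * x * (Real.exp (c s) * w a0 p) := by
    intro s s2 h1 h2 p hp hpi
    refine (hdiff s s2 h1 h2 p hp hpi).trans ?_
    have h3 := hdec s s2 h1 h2
    have hw := hw0 p hp
    have h4 : Real.exp (c s) + Real.exp (c s2) ≤ 2 * Real.exp (c s) := by linarith
    have h5 : 2 * x * (Real.exp (c s) + Real.exp (c s2)) * w a0 p ≤
        2 * x * (2 * Real.exp (c s)) * w a0 p :=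
      mul_le_mul_of_nonneg_right (mul_le_mul_of_nonneg_left h4 (by positivity)) hw.le
    linarith
  have hclose : ∀ s, s < t → ∀ p ∈ Bs s,
      |ev A w f0 (lam t) p - ev A w f0 (lam s) p| ≤ (1 / 50) * |ev A w f0 (lam s) p| := by
    intro s hs p hp
    have hpU := hBU s hs.le hp
    have k1 := hdiff2 s t hs le_rfl p hpU
      (fun i hi => hlt s hs.le p hp i (hTsub (s + 1) (t + 1) (by omega) le_rfl hi))
    have k3 := hbig s hs.le p hp
    have hy : 0 < Real.exp (c s) * w a0 p := mul_pos (Real.exp_pos _) (hw0 p hpU)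
    have k8 := mul_le_mul_of_nonneg_right hxE hy.le
    have k9 := mul_pos hx0 hy
    linarith
  have hne0 : ∀ s, s ≤ t → ∀ p ∈ Bs s, ev A w f0 (lam s) p ≠ 0 :=
    fun s hs p hp => (hWin s hs p hp).1
  have hlogc : ∀ s, s < t → ∀ p ∈ Bs s, ev A w f0 (lam t) p ≠ 0 ∧
      |Real.log |ev A w f0 (lam t) p| - Real.log (|ev A w f0 (lam s) p|)| ≤ 1 / 20 :=
    fun s hs p hp => chain_log _ _ (hne0 s hs.le p hp) (hclose s hs p hp)
  -- pigeonhole
  obtain ⟨a, haA, haS⟩ : ∃ a ∈ A, S ≤ ((Finset.range t).filter (fun s => as s = a)).card := by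
    apply Finset.exists_le_card_fiber_of_mul_le_card_of_maps_to
    · intro s hs
      exact has s (Finset.mem_range.1 hs).le
    · exact ⟨a0, ha0⟩
    · rw [hAc, Finset.card_range]
      exact ht
  obtain ⟨I, hId⟩ : ∃ I, I = (Finset.range t).filter (fun s => as s = a) := ⟨_, rfl⟩
  rw [← hId] at haS
  have hIt : ∀ s ∈ I, s < t ∧ as s = a := by
    intro s hs
    rw [hId, Finset.mem_filter, Finset.mem_range] at hs
    exact hs
  have hIc : I.card ≤ t := by
    rw [hId]
    refine (Finset.card_filter_le _ _).trans ?_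
    rw [Finset.card_range]
  have hsepG : ∀ b, b ≠ a → ∀ p ∈ U, ∀ p' ∈ U, p < p' →
      B0 ≤ |(G a p - G b p) - (G a p' - G b p')| := by
    intro b hb p hp p' hp' hpp
    rcases lt_or_gt_of_ne hb with h | h
    · have := hSp b a h p hp p' hp' hpp
      rw [abs_sub_comm]
      exact le_trans (by linarith) (le_abs_self _)
    · have := hSp a b h p hp p' hp' hpp
      exact le_trans (by linarith) (le_abs_self _)
  have hsep : ∀ s ∈ I, ∀ b, b ≠ a → ∀ p ∈ Bs s, ∀ p' ∈ Bs s, p ≠ p' →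
      2 * B ≤ |(Real.log |ev A w f0 (lam t) p| - G b p) -
        (Real.log |ev A w f0 (lam t) p'| - G b p')| := by
    intro s hs b hb p hp p' hp' hpp
    obtain ⟨hst, hsa⟩ := hIt s hs
    have hpU := hBU s hst.le hp
    have hpU' := hBU s hst.le hp'
    have h1 := (hlogc s hst p hp).2
    have h2 := (hlogc s hst p' hp').2
    have h3 := (hWin s hst.le p hp).2
    have h4 := (hWin s hst.le p' hp').2
    rw [hsa] at h3 h4
    have h5 : B0 ≤ |(G a p - G b p) - (G a p' - G b p')| := by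
      rcases lt_or_gt_of_ne hpp with h | h
      · exact hsepG b hb p hpU p' hpU' h
      · rw [abs_sub_comm]
        exact hsepG b hb p' hpU' p hpU h
    rw [abs_le] at h1 h2 h3 h4
    rcases abs_cases ((G a p - G b p) - (G a p' - G b p')) with h6 | h6
    · refine le_trans ?_ (le_abs_self _)
      linarith [h1.1, h1.2, h2.1, h2.2, h3.1, h3.2, h4.1, h4.2, h6.1]
    · refine le_trans ?_ (neg_le_abs _)
      linarith [h1.1, h1.2, h2.1, h2.2, h3.1, h3.2, h4.1, h4.2, h6.1]
  obtain ⟨f, hf1, hf2⟩ := chain_greedy B t Bs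
    (fun b p => Real.log |ev A w f0 (lam t) p| - G b p) a I hIc
    (fun s hs => hBc s (hIt s hs).1.le) hsep I (Finset.Subset.refl _)
  have hmono : ∀ s ∈ I, ∀ s2 ∈ I, s < s2 → f s < f s2 := by
    intro s hs s2 hs2 h
    have h1 := hf1 s hs
    have h2 := hf1 s2 hs2
    exact hlt s (hIt s hs).1.le (f s) h1 (f s2)
      (hTsub (s + 1) s2 (by omega) (by have := (hIt s2 hs2).1; omega) (hBs s2 (hIt s2 hs2).1.le h2))
  have hinj : ∀ s ∈ I, ∀ s2 ∈ I, f s = f s2 → s = s2 := by
    intro s hs s2 hs2 h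
    rcases lt_trichotomy s s2 with h1 | h1 | h1
    · exact absurd h (hmono s hs s2 hs2 h1).ne
    · exact h1
    · exact absurd h (hmono s2 hs2 s hs h1).ne'
  have hSpec : ∀ s ∈ I, ∀ s2 ∈ I, s < s2 →
      B ≤ (Real.log |ev A w f0 (lam t) (f s)| - G a (f s)) -
        (Real.log |ev A w f0 (lam t) (f s2)| - G a (f s2)) := by
    intro s hs s2 hs2 h
    obtain ⟨hst, hsa⟩ := hIt s hs
    obtain ⟨hst2, hsa2⟩ := hIt s2 hs2
    have h1 := hf1 s hs
    have h2 := hf1 s2 hs2
    have hpU := hBU s hst.le h1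
    have hpU2 := hBU s2 hst2.le h2
    have hwp := hw0 _ hpU
    have hwp2 := hw0 _ hpU2
    -- lower bound at f s
    have k1 := (hlogc s hst _ h1).2
    rw [abs_le] at k1
    have k2 : Real.log (E / 4) + c s + Real.log (w a0 (f s)) ≤
        Real.log |ev A w f0 (lam s) (f s)| := by
      have h3 := hbig s hst.le _ h1
      have h4 : Real.log (E / 4 * (Real.exp (c s) * w a0 (f s))) =
          Real.log (E / 4) + c s + Real.log (w a0 (f s)) := by
        rw [Real.log_mul (by positivity) (by positivity), Real.log_mul (Real.exp_pos _).ne' hwp.ne',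
          Real.log_exp]
        ring
      rw [← h4]
      exact Real.log_le_log (by positivity) h3
    -- upper bound at f s2
    have k3 : |ev A w f0 (lam t) (f s2)| ≤ 5 * x * (Real.exp (c s) * w a0 (f s2)) := by
      have h3 := hsm s hst.le (f s2) (hTsub (s + 1) s2 (by omega) (by omega) (hBs s2 hst2.le h2))
      have h4 := hdiff2 s t hst le_rfl (f s2) hpU2
        (fun i hi => hlt s2 hst2.le _ h2 i (hTsub (s2 + 1) (t + 1) (by omega) le_rfl hi))
      have h5 := abs_sub_abs_le_abs_sub (ev A w f0 (lam t) (f s2)) (ev A w f0 (lam s) (f s2))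
      have h6 : 0 < Real.exp (c s) * w a0 (f s2) := mul_pos (Real.exp_pos _) hwp2
      have h7 := mul_le_mul_of_nonneg_right hηx h6.le
      linarith
    have k4 : Real.log |ev A w f0 (lam t) (f s2)| ≤
        Real.log (5 * x) + c s + Real.log (w a0 (f s2)) := by
      have h4 : Real.log (5 * x * (Real.exp (c s) * w a0 (f s2))) =
          Real.log (5 * x) + c s + Real.log (w a0 (f s2)) := by
        rw [Real.log_mul (by positivity) (by positivity), Real.log_mul (Real.exp_pos _).ne' hwp2.ne',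
          Real.log_exp]
        ring
      rw [← h4]
      exact Real.log_le_log (abs_pos.2 (hlogc s2 hst2 _ h2).1) k3
    have k5 : Real.log (5 * x) + 2 * (B + ℓ) + 1 ≤ Real.log (E / 4) := by
      have h3 : Real.exp 1 * (5 * x) ≤ (E / 4) * E ^ 2 := by
        have h4 : Real.exp 1 ≤ 3 := by
          have := Real.exp_one_lt_d9
          linarith
        have h5 : Real.exp 1 * (5 * x) ≤ 3 * (5 * x) :=
          mul_le_mul_of_nonneg_right h4 (by positivity)
        have h6 : 0 < E ^ 3 := by positivity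
        have h7 : (E / 4) * E ^ 2 = E ^ 3 / 4 := by ring
        rw [h7]
        linarith
      have h8 := Real.log_le_log (by positivity) h3
      rw [Real.log_mul (Real.exp_pos _).ne' (show (5 * x : ℝ) ≠ 0 by positivity), Real.log_exp,
        Real.log_mul (show (E / 4 : ℝ) ≠ 0 by positivity) (show (E ^ 2 : ℝ) ≠ 0 by positivity),
        Real.log_pow] at h8
      have h9 : Real.log E = -(B + ℓ) := by rw [hE, Real.log_exp]
      rw [h9] at h8
      push_cast at h8
      linarith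
    have k6 := (hNear a0 ha0 _ hpU).2
    have k7 := (hNear a0 ha0 _ hpU2).2
    rw [abs_le] at k6 k7
    have k8 : G a (f s) - G a0 (f s) ≤ G a (f s2) - G a0 (f s2) := by
      rcases (hmin a haA).lt_or_eq with h3 | h3
      · have := hSp a0 a h3 _ hpU _ hpU2 (hmono s hs s2 hs2 h)
        linarith
      · rw [h3]
        linarith
    linarith [k1.1, k1.2, k6.1, k6.2, k7.1, k7.2]
  refine ⟨I.image f, ?_, ?_, ?_, ?_⟩
  · intro p hp
    obtain ⟨s, hs, rfl⟩ := Finset.mem_image.1 hp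
    exact hBU s (hIt s hs).1.le (hf1 s hs)
  · rw [Finset.card_image_of_injOn (fun s hs s2 hs2 h => hinj s hs s2 hs2 h)]
    exact haS
  · intro p hp
    obtain ⟨s, hs, rfl⟩ := Finset.mem_image.1 hp
    exact (hlogc s (hIt s hs).1 _ (hf1 s hs)).1
  · intro b p hp p' hp' hne
    obtain ⟨s, hs, rfl⟩ := Finset.mem_image.1 hp
    obtain ⟨s', hs', rfl⟩ := Finset.mem_image.1 hp'
    have hss : s ≠ s' := fun h => hne (by rw [h])
    by_cases hb : b = a
    · subst hb
      rcases lt_or_gt_of_ne hss with h | h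
      · exact (hSpec s hs s' hs' h).trans (le_abs_self _)
      · rw [abs_sub_comm]
        exact (hSpec s' hs' s hs h).trans (le_abs_self _)
    · exact hf2 s hs s' hs' hss b hb



end LC

section LM


lemma le_two_pow79 (x : ℕ) : x ≤ 2 ^ x := Nat.lt_two_pow_self.le

/-- TARGET 1 -/
theorem main_zero (hW : WindowStmt) : MainStmt 0 := by
  intro P hP B ℓ hB hℓ
  refine ⟨2 * P + 2, by omega, 0, ?_⟩
  intro S hS U G hU hSp A hA w f0 hN hG
  have hA0 : A = ∅ := Finset.card_eq_zero.1 hA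
  subst hA0
  obtain ⟨T', hT', hc, hor⟩ := hW P S hP B (by linarith) G (ev ∅ w f0 0) U
    (fun T' hT' hg => hG 0 T' hT' hg)
  refine ⟨0, T', hT', hc.trans (Nat.mul_le_mul_right _ ?_), ?_⟩
  · have h1 : 2 * S * P + 2 ≤ (2 * P + 2) * S := by nlinarith
    have h2 : (2 * P + 2) * S ≤ tw 2 ((2 * P + 2) * S) := by
      show _ ≤ 2 ^ (2 ^ ((2 * P + 2) * S))
      exact (le_two_pow79 _).trans (le_two_pow79 _)
    exact h1.trans h2
  · rcases hor with h | ⟨b, c, h⟩
    · exact Or.inl h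
    · exact Or.inr ⟨b, Finset.notMem_empty b, c, h⟩

lemma choose_A79 (m P As : ℕ) : ∃ A1 : ℕ, 1 ≤ A1 ∧ ∀ S : ℕ, 1 ≤ S →
    (tw 2 (As * S)) ^ ((m + 1) * S + 2) * (P * ((m + 1) * S + 1) + (m + 1) ^ 2 + 2) ≤ tw 2 (A1 * S) := by
  set c := P * (m + 2) + (m + 1) ^ 2 + 2 with hc
  refine ⟨As + (m + 3) + c + 1, by omega, fun S hS => ?_⟩
  set R := P * ((m + 1) * S + 1) + (m + 1) ^ 2 + 2 with hR
  have hRc : R ≤ c * S := by
    rw [hR, hc]
    have h1 : P ≤ P * S := Nat.le_mul_of_pos_right P hS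
    have h2 : (m + 1) ^ 2 ≤ (m + 1) ^ 2 * S := Nat.le_mul_of_pos_right _ hS
    nlinarith
  have ht : (m + 1) * S + 2 ≤ (m + 3) * S := by nlinarith
  show (2 ^ (2 ^ (As * S))) ^ ((m + 1) * S + 2) * R ≤ 2 ^ (2 ^ ((As + (m + 3) + c + 1) * S))
  have h1 : (2 ^ (2 ^ (As * S))) ^ ((m + 1) * S + 2) * R ≤
      2 ^ (2 ^ (As * S) * ((m + 1) * S + 2) + R) := by
    rw [← pow_mul, pow_add]
    exact Nat.mul_le_mul_left _ (le_two_pow79 R)
  refine h1.trans (Nat.pow_le_pow_right (by norm_num) ?_)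
  have h2 : 2 ^ (As * S) * ((m + 1) * S + 2) ≤ 2 ^ ((As + (m + 3) + c) * S) := by
    calc 2 ^ (As * S) * ((m + 1) * S + 2) ≤ 2 ^ (As * S) * 2 ^ ((m + 3) * S) :=
          Nat.mul_le_mul_left _ (ht.trans (le_two_pow79 _))
      _ = 2 ^ ((As + (m + 3)) * S) := by rw [← pow_add]; congr 1; ring
      _ ≤ 2 ^ ((As + (m + 3) + c) * S) := Nat.pow_le_pow_right (by norm_num) (by nlinarith)
  have h3 : R ≤ 2 ^ ((As + (m + 3) + c) * S) := by
    calc R ≤ c * S := hRc
      _ ≤ 2 ^ (c * S) := le_two_pow79 _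
      _ ≤ 2 ^ ((As + (m + 3) + c) * S) := Nat.pow_le_pow_right (by norm_num) (by nlinarith)
  calc 2 ^ (As * S) * ((m + 1) * S + 2) + R
      ≤ 2 ^ ((As + (m + 3) + c) * S) + 2 ^ ((As + (m + 3) + c) * S) := Nat.add_le_add h2 h3
    _ = 2 ^ ((As + (m + 3) + c) * S + 1) := by rw [pow_succ]; ring
    _ ≤ 2 ^ ((As + (m + 3) + c + 1) * S) := Nat.pow_le_pow_right (by norm_num) (by nlinarith)

/-- TARGET 2 -/
theorem main_succ (hCh : ChainStmt) (m : ℕ) (hS : OneStepStmt m) : MainStmt (m + 1) := by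
  intro P hP B ℓ hB hℓ
  set η : ℝ := Real.exp (-(3 * B + 3 * ℓ)) / (1000 * (m + 1)) with hη
  have hm0 : (0:ℝ) < (m:ℝ) + 1 := by positivity
  have hη0 : 0 < η := by positivity
  have hη1 : η ≤ Real.exp (-(B + ℓ)) / (16 * (m + 1)) := by
    rw [hη]
    have h1 : Real.exp (-(3 * B + 3 * ℓ)) ≤ Real.exp (-(B + ℓ)) :=
      Real.exp_le_exp.2 (by linarith)
    calc Real.exp (-(3 * B + 3 * ℓ)) / (1000 * (m + 1))
        ≤ Real.exp (-(B + ℓ)) / (1000 * (m + 1)) := by gcongr
      _ ≤ Real.exp (-(B + ℓ)) / (16 * (m + 1)) := by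
          apply div_le_div_of_nonneg_left (Real.exp_pos _).le (by positivity)
          nlinarith
  obtain ⟨As, hAs, B0s, hOne⟩ := hS P hP B ℓ η hB hℓ hη0 hη1
  obtain ⟨A1, hA1, hA1S⟩ := choose_A79 m P As
  refine ⟨A1, hA1, max B0s (4 * ℓ + Real.log (4 * ((m : ℝ) + 1) ^ 2) + 8 * B + 10), ?_⟩
  intro S hS1 U G hU hSp A hA w f0 hN hG
  by_contra hcon
  set K1 := tw 2 (As * S) with hK1
  set t := (m + 1) * S with ht
  set R := P * (t + 1) + (m + 1) ^ 2 + 2 with hR
  have hKR : K1 ^ (t + 2) * R ≤ tw 2 (A1 * S) := hA1S S hS1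
  have hK1pos : 1 ≤ K1 := tw_pos 2 _ (Nat.mul_pos hAs hS1)
  have hUR : K1 ^ (t + 2) * R ≤ U.card := hKR.trans hU
  have hAne : A.Nonempty := by
    rw [← Finset.card_pos, hA]; omega
  set a0 := A.min' hAne with ha0
  have ha0A : a0 ∈ A := A.min'_mem hAne
  have ha0min : ∀ a ∈ A, a0 ≤ a := fun a ha => A.min'_le a ha
  haveI : Nonempty (Fin P) := ⟨a0⟩
  have hSps : Spread P B0s U G := fun a b hab i hi j hj hij => by
    have := hSp a b hab i hi j hj hij
    have := le_max_left B0s (4 * ℓ + Real.log (4 * ((m : ℝ) + 1) ^ 2) + 8 * B + 10)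
    linarith
  have hbig : ∀ V : Finset ℕ, U.card ≤ K1 ^ (t + 1) * V.card → K1 * R ≤ V.card := by
    intro V hV
    have h1 : K1 ^ (t + 1) * (K1 * R) ≤ K1 ^ (t + 1) * V.card := by
      calc K1 ^ (t + 1) * (K1 * R) = K1 ^ (t + 2) * R := by rw [pow_succ K1 (t + 1)]; ring
        _ ≤ U.card := hUR
        _ ≤ _ := hV
    exact Nat.le_of_mul_le_mul_left h1 (pow_pos hK1pos _)
  have hR2 : 2 ≤ R := by omega
  have hstep : ∀ V : Finset ℕ, (V ⊆ U ∧ U.card ≤ K1 ^ (t + 1) * V.card) →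
      StepData P B η (Real.exp (-(B + ℓ)) / 4) K1 V G A a0 w f0 := by
    rintro V ⟨hVU, hV⟩
    have hVc : K1 ≤ V.card := le_trans (Nat.le_mul_of_pos_right K1 (by omega)) (hbig V hV)
    rcases hOne S hS1 V G hVc (fun a b hab i hi j hj hij => hSps a b hab i (hVU hi) j (hVU hj) hij)
      A a0 hA ha0A ha0min w f0 (fun a ha i hi => hN a ha i (hVU hi))
      (fun lam T' hT' hg => hG lam T' (hT'.trans hVU) hg) with h | h
    · exfalso
      apply hcon
      obtain ⟨lam, T', hT', hc, hor⟩ := h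
      refine ⟨lam, T', hT'.trans hVU, ?_, hor⟩
      calc U.card ≤ K1 ^ (t + 1) * V.card := hV
        _ ≤ K1 ^ (t + 1) * (K1 * T'.card) := Nat.mul_le_mul_left _ hc
        _ = K1 ^ (t + 2) * 1 * T'.card := by rw [pow_succ K1 (t + 1)]; ring
        _ ≤ K1 ^ (t + 2) * R * T'.card := by
            apply Nat.mul_le_mul_right
            exact Nat.mul_le_mul_left _ (by omega)
        _ ≤ tw 2 (A1 * S) * T'.card := Nat.mul_le_mul_right _ hKR
    · exact h
  unfold StepData at hstep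
  choose! flam fc fa fcs fBs fTs hp1 hp2 hp3 hp4 hp5 hp6 hp7 hp8 hp9 using hstep
  let Ts : ℕ → Finset ℕ := fun s => Nat.rec U (fun _ V => fTs V) s
  have hTs0 : Ts 0 = U := rfl
  have hTss : ∀ s, Ts (s + 1) = fTs (Ts s) := fun _ => rfl
  have hind : ∀ s ≤ t + 1, Ts s ⊆ U ∧ U.card ≤ K1 ^ s * (Ts s).card := by
    intro s
    induction s with
    | zero =>
      intro _
      rw [hTs0]
      simp
    | succ s ih =>
      intro hs
      obtain ⟨h1, h2⟩ := ih (by omega)
      have hgood : Ts s ⊆ U ∧ U.card ≤ K1 ^ (t + 1) * (Ts s).card :=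
        ⟨h1, h2.trans (Nat.mul_le_mul_right _ (Nat.pow_le_pow_right hK1pos (by omega)))⟩
      refine ⟨?_, ?_⟩
      · rw [hTss]
        exact (hp3 _ hgood).trans h1
      · rw [hTss]
        calc U.card ≤ K1 ^ s * (Ts s).card := h2
          _ ≤ K1 ^ s * (K1 * (fTs (Ts s)).card) := Nat.mul_le_mul_left _ (hp5 _ hgood)
          _ = K1 ^ (s + 1) * (fTs (Ts s)).card := by rw [pow_succ]; ring
  have hgood : ∀ s ≤ t + 1, Ts s ⊆ U ∧ U.card ≤ K1 ^ (t + 1) * (Ts s).card := by
    intro s hs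
    obtain ⟨h1, h2⟩ := hind s hs
    exact ⟨h1, h2.trans (Nat.mul_le_mul_right _ (Nat.pow_le_pow_right hK1pos hs))⟩
  obtain ⟨T', hT'U, hT'S, hT'g⟩ := hCh m P S B ℓ η _ hB hℓ hη0 le_rfl (le_max_right _ _) U G hSp A a0
    hA ha0A ha0min w f0 hN t le_rfl Ts (fun s => fBs (Ts s)) (fun s => flam (Ts s))
    (fun s => fc (Ts s)) (fun s => fcs (Ts s)) (fun s => fa (Ts s))
    (by rw [hTs0])
    (fun s hs => by rw [hTss]; exact hp3 _ (hgood s (by omega)))
    (fun s hs => hp2 _ (hgood s (by omega)))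
    (fun s hs => by rw [hTss]; exact hp6 _ (hgood s (by omega)))
    (fun s hs => by
      have h1 := hbig _ (hgood (s + 1) (by omega)).2
      have h2 : R ≤ K1 * R := Nat.le_mul_of_pos_left R hK1pos
      rw [hA]
      omega)
    (fun s hs => by
      have h1 := hbig _ (hgood s (by omega)).2
      have h2 := hp4 _ (hgood s (by omega))
      have h3 : R ≤ (fBs (Ts s)).card := Nat.le_of_mul_le_mul_left (h1.trans h2) hK1pos
      omega)
    (fun s hs => hp1 _ (hgood s (by omega)))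
    (fun s hs => by rw [hTss]; exact hp7 _ (hgood s (by omega)))
    (fun s hs => hp8 _ (hgood s (by omega)))
    (fun s hs => hp9 _ (hgood s (by omega)))
  have := hG _ T' hT'U hT'g
  omega


end LM

section LR


theorem round_ev_lin {P N : ℕ} (h : Fin N → ℕ → ℝ) (A : Finset (Fin P)) (w : Fin P → ℕ → ℝ)
    (ρ : Fin P → Fin N → ℝ) (hρ : ∀ a ∈ A, ∀ i, w a i = lin h (ρ a) i) (t : Fin N)
    (lam : Fin P → ℝ) (i : ℕ) :
    ev A w (h t) lam i = lin h (fun j => (if j = t then 1 else 0) + ∑ a ∈ A, lam a * ρ a j) i := by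
  classical
  unfold ev
  have h1 : ∑ a ∈ A, lam a * w a i = ∑ a ∈ A, lam a * lin h (ρ a) i :=
    Finset.sum_congr rfl fun a ha => by rw [hρ a ha i]
  rw [h1]
  unfold lin
  simp only [add_mul, Finset.sum_add_distrib]
  congr 1
  · simp
  · simp only [Finset.sum_mul, Finset.mul_sum]
    rw [Finset.sum_comm]
    exact Finset.sum_congr rfl fun j _ => Finset.sum_congr rfl fun a _ => by ring

theorem round_near_mono {P : ℕ} {ℓ : ℝ} {U T : Finset ℕ} {G : Fin P → ℕ → ℝ} {A : Finset (Fin P)}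
    {w : Fin P → ℕ → ℝ} (h : Near ℓ U G A w) (hT : T ⊆ U) : Near ℓ T G A w :=
  fun a ha i hi => h a ha i (hT hi)

theorem round_spread_mono {N : ℕ} {B B' : ℝ} {S T : Finset ℕ} {G : Fin N → ℕ → ℝ}
    (h : Spread N B S G) (hB : B' ≤ B) (hT : T ⊆ S) : Spread N B' T G := by
  intro a b hab i hi j hj hij
  have := h a b hab i (hT hi) j (hT hj) hij
  linarith

theorem round_step {P N S K X : ℕ} {B : ℝ} (U : Finset ℕ) (G : Fin P → ℕ → ℝ)
    (h : Fin N → ℕ → ℝ) (t : Fin N) (A : Finset (Fin P)) (w : Fin P → ℕ → ℝ) (T : Finset ℕ)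
    (ρ : Fin P → Fin N → ℝ) (Lam : Fin N → Fin P → ℝ) (hT : T ⊆ U)
    (hcard : U.card ≤ X * T.card) (hnear : Near B T G A w)
    (hρ : ∀ a ∈ A, ∀ i, w a i = lin h (ρ a) i)
    (hLam : ∀ j : Fin N, (j : ℕ) < t → ∀ i ∈ T, h j i = ∑ a ∈ A, Lam j a * w a i)
    (hmain : NoGen P S B T G A w (h t) → Concl P K B T G A w (h t)) :
    (∃ mu : Fin N → ℝ, ∃ T ⊆ U, S ≤ T.card ∧ Gen P B T G (lin h mu)) ∨
    (∃ (A' : Finset (Fin P)) (w' : Fin P → ℕ → ℝ) (T' : Finset ℕ) (ρ' : Fin P → Fin N → ℝ)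
      (Lam' : Fin N → Fin P → ℝ), T' ⊆ U ∧ U.card ≤ (X * (2 * K)) * T'.card ∧ Near B T' G A' w' ∧
      (∀ a ∈ A', ∀ i, w' a i = lin h (ρ' a) i) ∧
      ∀ j : Fin N, (j : ℕ) < t + 1 → ∀ i ∈ T', h j i = ∑ a ∈ A', Lam' j a * w' a i) := by
  classical
  by_cases hng : NoGen P S B T G A w (h t)
  · right
    obtain ⟨lam, T', hT', hc', hcase⟩ := hmain hng
    rcases hcase with hz | ⟨b, hb, c, hwin⟩
    · -- zero outcome
      refine ⟨A, w, T', ρ, fun j a => if j = t then - lam a else Lam j a, hT'.trans hT, ?_,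
        round_near_mono hnear hT', hρ, ?_⟩
      · calc U.card ≤ X * T.card := hcard
          _ ≤ X * (K * T'.card) := Nat.mul_le_mul_left _ hc'
          _ ≤ (X * (2 * K)) * T'.card := by
              have : X * (2 * K) * T'.card = 2 * (X * (K * T'.card)) := by ring
              rw [this]; omega
      · intro j hj i hi
        by_cases hjt : j = t
        · subst hjt
          simp only [if_true]
          have h1 := hz i hi
          unfold ev at h1
          simp only [neg_mul, Finset.sum_neg_distrib]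
          linarith
        · simp only [if_neg hjt]
          have hlt : (j : ℕ) < t := by
            have : (j : ℕ) ≠ t := fun h' => hjt (Fin.ext h')
            omega
          exact hLam j hlt i (hT' hi)
    · -- window outcome
      set f : ℕ → ℝ := ev A w (h t) lam with hf
      have hsgn : ∃ σ : ℝ, (σ = 1 ∨ σ = -1) ∧ ∃ T'' ⊆ T', T'.card ≤ 2 * T''.card ∧
          ∀ i ∈ T'', 0 < σ * f i := by
        have hsum : T'.card = (T'.filter (fun i => 0 < f i)).card +
            (T'.filter (fun i => ¬ 0 < f i)).card := (Finset.card_filter_add_card_filter_not _).symm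
        rcases le_total (T'.filter (fun i => ¬ 0 < f i)).card (T'.filter (fun i => 0 < f i)).card
          with hle | hle
        · refine ⟨1, Or.inl rfl, T'.filter (fun i => 0 < f i), Finset.filter_subset _ _,
            by omega, fun i hi => ?_⟩
          rw [Finset.mem_filter] at hi
          rw [one_mul]; exact hi.2
        · refine ⟨-1, Or.inr rfl, T'.filter (fun i => ¬ 0 < f i), Finset.filter_subset _ _,
            by omega, fun i hi => ?_⟩
          rw [Finset.mem_filter] at hi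
          have h1 := (hwin i hi.1).1
          have h2 : f i < 0 := lt_of_le_of_ne (not_lt.mp hi.2) h1
          linarith
      obtain ⟨σ, hσ, T'', hT'', hc'', hpos⟩ := hsgn
      have hσσ : σ * σ = 1 := by rcases hσ with rfl | rfl <;> norm_num
      have habs : ∀ i ∈ T'', |f i| = σ * f i := by
        intro i hi
        have h1 := hpos i hi
        rw [← abs_of_pos h1, abs_mul]
        have : |σ| = 1 := by rcases hσ with rfl | rfl <;> norm_num
        rw [this, one_mul]
      let w' : Fin P → ℕ → ℝ := fun a i => if a = b then σ * Real.exp (-c) * f i else w a i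
      have hw'b : ∀ i, w' b i = σ * Real.exp (-c) * f i := fun i => if_pos rfl
      have hw'a : ∀ a ∈ A, ∀ i, w' a i = w a i := fun a ha i => by
        have hab : a ≠ b := fun h' => hb (h' ▸ ha)
        exact if_neg hab
      refine ⟨insert b A, w', T'',
        fun a j => if a = b then σ * Real.exp (-c) *
          ((if j = t then 1 else 0) + ∑ a ∈ A, lam a * ρ a j) else ρ a j,
        fun j a => if j = t then (if a = b then σ * Real.exp c else - lam a)
          else (if a = b then 0 else Lam j a),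
        (hT''.trans hT').trans hT, ?_, ?_, ?_, ?_⟩
      · calc U.card ≤ X * T.card := hcard
          _ ≤ X * (K * T'.card) := Nat.mul_le_mul_left _ hc'
          _ ≤ X * (K * (2 * T''.card)) := Nat.mul_le_mul_left _ (Nat.mul_le_mul_left _ hc'')
          _ = (X * (2 * K)) * T''.card := by ring
      · intro a ha i hi
        rw [Finset.mem_insert] at ha
        rcases ha with rfl | ha
        · rw [hw'b]
          have h1 := hpos i hi
          have h2 := (hwin i (hT'' hi)).2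
          have h3 : σ * Real.exp (-c) * f i = Real.exp (-c) * |f i| := by
            rw [habs i hi]; ring
          have h4 : 0 < |f i| := abs_pos.mpr (hwin i (hT'' hi)).1
          refine ⟨by rw [h3]; positivity, ?_⟩
          rw [h3, Real.log_mul (Real.exp_ne_zero _) h4.ne', Real.log_exp]
          have h5 : -c + Real.log |f i| - G a i = Real.log |f i| - G a i - c := by ring
          rw [h5]
          exact h2
        · rw [hw'a a ha]
          exact hnear a ha i (hT' (hT'' hi))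
      · intro a ha i
        rw [Finset.mem_insert] at ha
        rcases ha with rfl | ha
        · rw [hw'b]
          simp only [if_true]
          rw [hf, round_ev_lin h A w ρ hρ t lam i]
          unfold lin
          rw [Finset.mul_sum]
          exact Finset.sum_congr rfl fun j _ => by ring
        · have hab : a ≠ b := fun h' => hb (h' ▸ ha)
          rw [hw'a a ha, hρ a ha i]
          simp only [if_neg hab]
      · intro j hj i hi
        rw [Finset.sum_insert hb]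
        by_cases hjt : j = t
        · subst hjt
          simp only [if_true]
          rw [hw'b]
          have h1 : ∑ a ∈ A, (if a = b then σ * Real.exp c else - lam a) * w' a i =
              - ∑ a ∈ A, lam a * w a i := by
            rw [← Finset.sum_neg_distrib]
            refine Finset.sum_congr rfl fun a ha => ?_
            have hab : a ≠ b := fun h' => hb (h' ▸ ha)
            rw [if_neg hab, hw'a a ha]
            ring
          rw [h1]
          have h2 : σ * Real.exp c * (σ * Real.exp (-c) * f i) = f i := by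
            have : Real.exp c * Real.exp (-c) = 1 := by rw [← Real.exp_add]; simp
            calc σ * Real.exp c * (σ * Real.exp (-c) * f i)
                = (σ * σ) * (Real.exp c * Real.exp (-c)) * f i := by ring
              _ = f i := by rw [hσσ, this]; ring
          rw [h2, hf]
          unfold ev
          ring
        · simp only [if_neg hjt, if_true, zero_mul, zero_add]
          have hlt : (j : ℕ) < t := by
            have : (j : ℕ) ≠ t := fun h' => hjt (Fin.ext h')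
            omega
          rw [hLam j hlt i (hT' (hT'' hi))]
          refine Finset.sum_congr rfl fun a ha => ?_
          have hab : a ≠ b := fun h' => hb (h' ▸ ha)
          rw [if_neg hab, hw'a a ha]
  · left
    unfold NoGen at hng
    push Not at hng
    obtain ⟨lam, T', hT', hgen, hS⟩ := hng
    refine ⟨fun j => (if j = t then 1 else 0) + ∑ a ∈ A, lam a * ρ a j, T', hT'.trans hT, hS, ?_⟩
    have h1 : ev A w (h t) lam =
        lin h (fun j => (if j = t then 1 else 0) + ∑ a ∈ A, lam a * ρ a j) := by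
      funext i
      exact round_ev_lin h A w ρ hρ t lam i
    rw [← h1]
    exact hgen

/-- TARGET -/
theorem round (hM : ∀ m, MainStmt m) : RoundStmt := by
  classical
  intro P hP B hB N
  have hB0 : (0 : ℝ) ≤ B := le_trans zero_le_one hB
  choose A1 hA1 B0 hmain using fun m => hM m P hP B B hB hB0
  set A2 : ℕ := ∑ m ∈ Finset.range (P + 1), A1 m with hA2
  set B2 : ℝ := ∑ m ∈ Finset.range (P + 1), |B0 m| with hB2
  have hA2le : ∀ m, m ≤ P → A1 m ≤ A2 := fun m hm =>
    Finset.single_le_sum (f := A1) (fun _ _ => Nat.zero_le _) (Finset.mem_range.mpr (by omega))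
  have hB2le : ∀ m, m ≤ P → B0 m ≤ B2 := fun m hm =>
    le_trans (le_abs_self _) (Finset.single_le_sum (f := fun m => |B0 m|)
      (fun _ _ => abs_nonneg _) (Finset.mem_range.mpr (by omega)))
  refine ⟨A2 + N + 2, by omega, B2, ?_⟩
  intro S hS U G hU hspread h
  set K : ℕ := tw 2 (A2 * S) with hK
  have hKpos : 1 ≤ K := Nat.one_le_two_pow
  have hbig : (2 * K) ^ (N + 1) ≤ tw 2 ((A2 + N + 2) * S) := by
    show (2 * 2 ^ 2 ^ (A2 * S)) ^ (N + 1) ≤ 2 ^ 2 ^ ((A2 + N + 2) * S)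
    have e1 : 2 * 2 ^ 2 ^ (A2 * S) = 2 ^ (2 ^ (A2 * S) + 1) := by rw [pow_succ]; ring
    rw [e1, ← pow_mul]
    refine Nat.pow_le_pow_right (by norm_num) ?_
    have e2 : 2 ^ (A2 * S) + 1 ≤ 2 ^ (A2 * S) * 2 := by
      have := Nat.one_le_two_pow (n := A2 * S)
      omega
    have e3 : N + 1 ≤ 2 ^ (N + 1) := Nat.lt_two_pow_self.le
    calc (2 ^ (A2 * S) + 1) * (N + 1) ≤ (2 ^ (A2 * S) * 2) * 2 ^ (N + 1) := Nat.mul_le_mul e2 e3
      _ = 2 ^ (A2 * S + (N + 2)) := by rw [pow_add, pow_add]; ring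
      _ ≤ 2 ^ ((A2 + N + 2) * S) := by
          refine Nat.pow_le_pow_right (by norm_num) ?_
          nlinarith
  have key : ∀ t : ℕ, t ≤ N →
      (∃ mu : Fin N → ℝ, ∃ T ⊆ U, S ≤ T.card ∧ Gen P B T G (lin h mu)) ∨
      (∃ (A' : Finset (Fin P)) (w' : Fin P → ℕ → ℝ) (T' : Finset ℕ) (ρ' : Fin P → Fin N → ℝ)
        (Lam' : Fin N → Fin P → ℝ), T' ⊆ U ∧ U.card ≤ (2 * K) ^ t * T'.card ∧ Near B T' G A' w' ∧
        (∀ a ∈ A', ∀ i, w' a i = lin h (ρ' a) i) ∧
        ∀ j : Fin N, (j : ℕ) < t → ∀ i ∈ T', h j i = ∑ a ∈ A', Lam' j a * w' a i) := by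
    intro t
    induction t with
    | zero =>
      intro _
      right
      refine ⟨∅, fun _ _ => 0, U, fun _ _ => 0, fun _ _ => 0, Finset.Subset.refl _, by simp, ?_,
        ?_, ?_⟩
      · intro a ha; simp at ha
      · intro a ha; simp at ha
      · intro j hj; omega
    | succ t ih =>
      intro ht
      rcases ih (by omega) with hgen | ⟨A, w, T, ρ, Lam, hT, hcard, hnear, hρ, hLam⟩
      · exact Or.inl hgen
      have hst := round_step (S := S) (K := K) (X := (2 * K) ^ t) (B := B) U G h ⟨t, by omega⟩ A w T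
        ρ Lam hT hcard hnear hρ hLam ?_
      · rcases hst with hgen | hst
        · exact Or.inl hgen
        · right
          rw [pow_succ]
          exact hst
      · intro hng
        have hAc : A.card ≤ P := by
          have := Finset.card_le_univ A
          simpa using this
        have hTc : tw 2 (A1 A.card * S) ≤ T.card := by
          have h1 : tw 2 (A1 A.card * S) ≤ K :=
            tw_mono 2 (Nat.mul_le_mul_right _ (hA2le _ hAc))
          refine le_trans h1 ?_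
          by_contra hcon
          push Not at hcon
          have h2 : (2 * K) ^ t * T.card < (2 * K) ^ (N + 1) := by
            calc (2 * K) ^ t * T.card < (2 * K) ^ t * K :=
                  Nat.mul_lt_mul_of_pos_left hcon (by positivity)
              _ ≤ (2 * K) ^ t * (2 * K) := Nat.mul_le_mul_left _ (by omega)
              _ = (2 * K) ^ (t + 1) := by rw [pow_succ]
              _ ≤ (2 * K) ^ (N + 1) := Nat.pow_le_pow_right (by omega) (by omega)
          have h3 := le_trans hbig hU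
          omega
        have hc := hmain A.card S hS T G hTc
          (round_spread_mono hspread (hB2le _ hAc) hT) A rfl w _ hnear hng
        obtain ⟨lam, T', hT', hc', hcase⟩ := hc
        refine ⟨lam, T', hT', le_trans hc' ?_, hcase⟩
        exact Nat.mul_le_mul_right _ (tw_mono 2 (Nat.mul_le_mul_right _ (hA2le _ hAc)))
  rcases key N le_rfl with hgen | ⟨A, w, T, ρ, Lam, hT, hcard, hnear, hρ, hLam⟩
  · exact Or.inl hgen
  · right
    refine ⟨A, w, T, hT, ?_, hnear, Lam, fun j i hi => hLam j j.2 i hi⟩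
    refine le_trans hcard (Nat.mul_le_mul_right _ (le_trans ?_ hbig))
    exact Nat.pow_le_pow_right (by omega) (by omega)


end LR

section LF


lemma sum_A_aux {P : ℕ} (A : Finset (Fin P)) (f : Fin P → ℝ) :
    ∑ x ∈ A, f x = ∑ y : Fin A.card, f (A.orderEmbOfFin rfl y) := by
  rw [← Finset.sum_coe_sort A f]
  rw [← Equiv.sum_comp (A.orderIsoOfFin rfl).toEquiv]
  refine Finset.sum_congr rfl fun y _ => ?_
  rfl

lemma form_aux {P N k : ℕ} (A : Finset (Fin P)) (w : Fin P → ℕ → ℝ) (h : Fin N → ℕ → ℝ)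
    (Lam : Fin N → Fin P → ℝ) (c : (Fin k → Fin N) → ℝ) (t : Fin k → ℕ)
    (ht : ∀ j l, h j (t l) = ∑ a ∈ A, Lam j a * w a (t l)) :
    ∑ a : Fin k → Fin N, c a * ∏ l, h (a l) (t l) =
      ∑ b : Fin k → Fin A.card, (∑ a : Fin k → Fin N, c a * ∏ l,
        Lam (a l) (A.orderEmbOfFin rfl (b l))) * ∏ l, w (A.orderEmbOfFin rfl (b l)) (t l) := by
  have h1 : ∀ a : Fin k → Fin N, ∏ l, h (a l) (t l) =
      ∑ b : Fin k → Fin A.card, (∏ l, Lam (a l) (A.orderEmbOfFin rfl (b l))) *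
        ∏ l, w (A.orderEmbOfFin rfl (b l)) (t l) := by
    intro a
    have h2 : ∀ l, h (a l) (t l) = ∑ y : Fin A.card,
        Lam (a l) (A.orderEmbOfFin rfl y) * w (A.orderEmbOfFin rfl y) (t l) := by
      intro l
      rw [ht, sum_A_aux A (fun x => Lam (a l) x * w x (t l))]
    rw [Finset.prod_congr rfl (fun l _ => h2 l), Finset.prod_univ_sum, Fintype.piFinset_univ]
    refine Finset.sum_congr rfl fun b _ => ?_
    rw [Finset.prod_mul_distrib]
  simp only [h1, Finset.mul_sum, Finset.sum_mul]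
  rw [Finset.sum_comm]
  refine Finset.sum_congr rfl fun b _ => Finset.sum_congr rfl fun a _ => ?_
  ring


/-- TARGET -/
theorem finish (hD : DominanceStmt) : FinishStmt := by
  intro P N k B hB
  choose Af hA1 Bf hmain using fun n => hD n k
  refine ⟨∑ n ∈ Finset.range (P + 1), Af n, ?_, (∑ n ∈ Finset.range (P + 1), |Bf n|) + 4 * B, ?_⟩
  · exact (hA1 0).trans (Finset.single_le_sum (f := Af) (fun _ _ => Nat.zero_le _)
      (Finset.mem_range.2 (Nat.succ_pos P)))
  intro m hm T G hT hG A w hw h Lam hh c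
  have hn : A.card ∈ Finset.range (P + 1) := by
    rw [Finset.mem_range]
    have := Finset.card_le_univ A
    rw [Fintype.card_fin] at this
    omega
  have hAle : Af A.card ≤ ∑ n ∈ Finset.range (P + 1), Af n :=
    Finset.single_le_sum (f := Af) (fun _ _ => Nat.zero_le _) hn
  have hBle : Bf A.card ≤ ∑ n ∈ Finset.range (P + 1), |Bf n| :=
    (le_abs_self _).trans (Finset.single_le_sum (f := fun n => |Bf n|)
      (fun _ _ => abs_nonneg _) hn)
  obtain ⟨T', hT', hmT', hsgn⟩ := hmain A.card m hm T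
    ((tw_mono 12 (Nat.mul_le_mul_right m hAle)).trans hT)
    (fun a => w (A.orderEmbOfFin rfl a))
    (fun a i hi => (hw _ (Finset.orderEmbOfFin_mem A rfl a) i hi).1) (by
      intro a b hab i hi j hj hij
      have hlt : A.orderEmbOfFin rfl a < A.orderEmbOfFin rfl b :=
        (A.orderEmbOfFin rfl).strictMono hab
      have h1 := hG _ _ hlt i hi j hj hij
      have e1 := abs_le.1 (hw _ (Finset.orderEmbOfFin_mem A rfl a) i hi).2
      have e2 := abs_le.1 (hw _ (Finset.orderEmbOfFin_mem A rfl a) j hj).2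
      have e3 := abs_le.1 (hw _ (Finset.orderEmbOfFin_mem A rfl b) i hi).2
      have e4 := abs_le.1 (hw _ (Finset.orderEmbOfFin_mem A rfl b) j hj).2
      simp only
      linarith [e1.1, e1.2, e2.1, e2.2, e3.1, e3.2, e4.1, e4.2])
    (fun b => ∑ a : Fin k → Fin N, c a * ∏ l, Lam (a l) (A.orderEmbOfFin rfl (b l)))
  refine ⟨T', hT', hmT', ?_⟩
  have key : ∀ t, Inc k T' t → ∑ a : Fin k → Fin N, c a * ∏ l, h (a l) (t l) =
      ∑ b : Fin k → Fin A.card, (∑ a : Fin k → Fin N, c a * ∏ l,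
        Lam (a l) (A.orderEmbOfFin rfl (b l))) * ∏ l, w (A.orderEmbOfFin rfl (b l)) (t l) :=
    fun t ht => form_aux A w h Lam c t (fun j l => hh j _ (hT' (ht.2 l)))
  rcases hsgn with hs | hs
  · left
    intro t ht
    rw [key t ht]
    exact hs t ht
  · right
    intro t ht
    rw [key t ht]
    exact hs t ht


end LF

section LS


/-- TARGET -/
theorem sort_types : SortStmt := by
  intro r R Q hQ B hB T L hSc
  have hcard : Fintype.card (Fin r → Fin (2 * R + 1)) = (2 * R + 1) ^ r := by simp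
  let e0 : Fin ((2 * R + 1) ^ r) ≃ (Fin r → Fin (2 * R + 1)) :=
    (Fintype.equivFinOfCardEq hcard).symm
  by_cases hT : ∃ i0 ∈ T, ∃ j0 ∈ T, i0 < j0
  · obtain ⟨i0, hi0, j0, hj0, hij0⟩ := hT
    let v : (Fin r → Fin (2 * R + 1)) → ℝ := fun x => Gt R Q L x j0 - Gt R Q L x i0
    let σ := Tuple.sort (v ∘ e0)
    have hσ : Monotone ((v ∘ e0) ∘ σ) := Tuple.monotone_sort (v ∘ e0)
    refine ⟨σ.trans e0, ?_⟩
    intro a b hab i hi j hj hij
    have hQ0 : (0 : ℝ) < Q := by exact_mod_cast hQ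
    have hvab : v (e0 (σ a)) ≤ v (e0 (σ b)) := hσ hab.le
    have hne : e0 (σ b) ≠ e0 (σ a) := by
      intro h
      exact hab.ne' (σ.injective (e0.injective h))
    set x := e0 (σ a) with hx
    set y := e0 (σ b) with hy
    let z : Fin r → ℤ := fun l => ((y l : ℕ) : ℤ) - ((x l : ℕ) : ℤ)
    have hz : z ≠ 0 := by
      intro h
      apply hne
      funext l
      have h1 := congrFun h l
      simp only [z, Pi.zero_apply] at h1
      apply Fin.ext
      omega
    have hzR : ∀ l, |z l| ≤ ((2 * R : ℕ) : ℤ) := by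
      intro l
      have h1 := (y l).2
      have h2 := (x l).2
      simp only [z]
      rw [abs_le]
      push_cast
      constructor <;> omega
    have hdiff : ∀ k : ℕ, Gt R Q L y k - Gt R Q L x k = (∑ l, (z l : ℝ) * L l k) / Q := by
      intro k
      unfold Gt
      rw [← sub_div, ← Finset.sum_sub_distrib]
      congr 1
      apply Finset.sum_congr rfl
      intro l _
      simp only [z]
      push_cast
      ring
    change (Gt R Q L y i - Gt R Q L x i) + B / Q ≤ Gt R Q L y j - Gt R Q L x j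
    rcases hSc z hz (by exact_mod_cast hzR) with h | h
    · have h1 := h i hi j hj hij
      simp only at h1
      rw [hdiff, hdiff, ← add_div]
      exact div_le_div_of_nonneg_right h1 hQ0.le
    · exfalso
      have h1 := h i0 hi0 j0 hj0 hij0
      simp only at h1
      have h2 : Gt R Q L y i0 - Gt R Q L x i0 ≤ Gt R Q L y j0 - Gt R Q L x j0 := by
        simp only [v] at hvab
        linarith
      rw [hdiff, hdiff, div_le_div_iff_of_pos_right hQ0] at h2
      linarith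
  · refine ⟨e0, ?_⟩
    intro a b hab i hi j hj hij
    exact absurd ⟨i, hi, j, hj, hij⟩ hT


end LS

section LA


lemma Up.abs_ge {B : ℝ} {T : Finset ℕ} {u : ℕ → ℝ} (h : Up B T u) {i j : ℕ} (hi : i ∈ T)
    (hj : j ∈ T) (hij : i ≠ j) : B ≤ |u i - u j| := by
  rcases lt_or_gt_of_ne hij with h1 | h1
  · have := h i hi j hj h1
    rw [abs_sub_comm]
    exact le_trans (by linarith) (le_abs_self _)
  · have := h j hj i hi h1
    exact le_trans (by linarith) (le_abs_self _)

/-- TARGET -/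
theorem alg_gen : AlgGenStmt := by
  intro d M
  set K : ℕ := (M + 1) ^ (d + 1) with hK
  have hKpos : 1 ≤ K := Nat.one_le_pow _ _ (by omega)
  have hKr : (1 : ℝ) ≤ K := by exact_mod_cast hKpos
  have hlogK : 0 ≤ Real.log K := Real.log_nonneg hKr
  refine ⟨K ^ 2 + 1, 2 * Real.log K + 2, by omega, by linarith, ?_⟩
  intro N h hA mu nu T hX hF hSc hSep
  obtain ⟨c, hc0, hrel⟩ := hA (Fin.snoc mu nu)
  set L : Fin d → ℕ → ℝ := fun l i => Real.log |lin h (mu l) i| with hL
  set F : ℕ → ℝ := fun i => Real.log |lin h nu i| with hFdef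
  have hprod : ∀ (α : Fin (d + 1) → Fin (M + 1)) (i : ℕ),
      ∏ l : Fin (d + 1), (lin h ((Fin.snoc mu nu : Fin (d + 1) → Fin N → ℝ) l) i) ^ (α l : ℕ) =
      (∏ l : Fin d, (lin h (mu l) i) ^ (α l.castSucc : ℕ)) * (lin h nu i) ^ (α (Fin.last d) : ℕ) := by
    intro α i
    rw [Fin.prod_univ_castSucc]
    congr 1
    · refine Finset.prod_congr rfl fun l _ => ?_
      rw [Fin.snoc_castSucc (α := fun _ => Fin N → ℝ)]
    · rw [Fin.snoc_last (α := fun _ => Fin N → ℝ)]
  set t : (Fin (d + 1) → Fin (M + 1)) → ℕ → ℝ := fun α i => c α *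
    ∏ l : Fin (d + 1), (lin h ((Fin.snoc mu nu : Fin (d + 1) → Fin N → ℝ) l) i) ^ (α l : ℕ) with ht
  have ht1 : ∀ α i, t α i = c α * ((∏ l : Fin d, (lin h (mu l) i) ^ (α l.castSucc : ℕ)) *
      (lin h nu i) ^ (α (Fin.last d) : ℕ)) := by
    intro α i
    rw [ht]; simp only []; rw [hprod]
  have hP : ∀ (α : Fin (d + 1) → Fin (M + 1)), ∀ i ∈ T,
      (∏ l : Fin d, (lin h (mu l) i) ^ (α l.castSucc : ℕ)) ≠ 0 := by
    intro α i hi
    exact Finset.prod_ne_zero_iff.2 fun l _ => pow_ne_zero _ (hX l i hi)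
  have hlog : ∀ α, c α ≠ 0 → ∀ i ∈ T, Real.log |t α i| = Real.log |c α| +
      (∑ l : Fin d, ((α l.castSucc : ℕ) : ℝ) * L l i + ((α (Fin.last d) : ℕ) : ℝ) * F i) := by
    intro α hα i hi
    rw [ht1, abs_mul, abs_mul, Real.log_mul (abs_ne_zero.2 hα)
      (mul_ne_zero (abs_ne_zero.2 (hP α i hi)) (abs_ne_zero.2 (pow_ne_zero _ (hF i hi)))),
      Real.log_mul (abs_ne_zero.2 (hP α i hi)) (abs_ne_zero.2 (pow_ne_zero _ (hF i hi))),
      Finset.abs_prod, Real.log_prod (fun l _ => abs_ne_zero.2 (pow_ne_zero _ (hX l i hi))),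
      abs_pow, Real.log_pow]
    congr 2
    refine Finset.sum_congr rfl fun l _ => ?_
    rw [abs_pow, Real.log_pow]
  have hpair : ∀ i ∈ T, ∃ p : (Fin (d + 1) → Fin (M + 1)) × (Fin (d + 1) → Fin (M + 1)),
      p.1 ≠ p.2 ∧ c p.1 ≠ 0 ∧ c p.2 ≠ 0 ∧ |Real.log |t p.1 i| - (Real.log |t p.2 i|)| ≤ Real.log K := by
    intro i hi
    obtain ⟨γ, hγ⟩ := Function.ne_iff.1 hc0
    have hγ : c γ ≠ 0 := hγ
    obtain ⟨α, hα⟩ := Finite.exists_max (fun α => |t α i|)
    have hγ0 : 0 < |t γ i| := by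
      rw [ht1]
      exact abs_pos.2 (mul_ne_zero hγ (mul_ne_zero (hP γ i hi) (pow_ne_zero _ (hF i hi))))
    have hα0 : 0 < |t α i| := lt_of_lt_of_le hγ0 (hα γ)
    have hex : ∃ β, β ≠ α ∧ |t α i| ≤ K * |t β i| := by
      by_contra hcon
      push Not at hcon
      have hsum : t α i + ∑ β ∈ Finset.univ.erase α, t β i = 0 := by
        exact (Finset.add_sum_erase Finset.univ (fun β => t β i) (Finset.mem_univ α)).trans (hrel i)
      have h1 : |t α i| ≤ ∑ β ∈ Finset.univ.erase α, |t β i| := by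
        have : t α i = -∑ β ∈ Finset.univ.erase α, t β i := by linarith
        rw [this, abs_neg]
        exact Finset.abs_sum_le_sum_abs _ _
      have h2 : ∑ β ∈ Finset.univ.erase α, (K : ℝ) * |t β i| ≤
          ∑ β ∈ Finset.univ.erase α, |t α i| :=
        Finset.sum_le_sum fun β hβ => (hcon β (Finset.ne_of_mem_erase hβ)).le
      rw [← Finset.mul_sum, Finset.sum_const, Finset.card_erase_of_mem (Finset.mem_univ α),
        Finset.card_univ, Fintype.card_fun, Fintype.card_fin, Fintype.card_fin, nsmul_eq_mul,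
        ← hK] at h2
      have h3 : ((K - 1 : ℕ) : ℝ) = K - 1 := by push_cast [Nat.cast_sub hKpos]; ring
      rw [h3] at h2
      have h4 : (K : ℝ) * |t α i| ≤ (K : ℝ) * ∑ β ∈ Finset.univ.erase α, |t β i| :=
        mul_le_mul_of_nonneg_left h1 (by linarith)
      nlinarith
    obtain ⟨β, hβ, hβ1⟩ := hex
    have hβ0 : 0 < |t β i| := by
      by_contra hh
      have : |t β i| = 0 := le_antisymm (not_lt.1 hh) (abs_nonneg _)
      rw [this] at hβ1
      linarith
    refine ⟨(α, β), hβ.symm, ?_, ?_, ?_⟩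
    · intro h0
      have h0 : c α = 0 := h0
      rw [ht1, h0, zero_mul, abs_zero] at hα0
      exact lt_irrefl _ hα0
    · intro h0
      have h0 : c β = 0 := h0
      rw [ht1, h0, zero_mul, abs_zero] at hβ0
      exact lt_irrefl _ hβ0
    · have h1 : Real.log |t β i| ≤ Real.log |t α i| := Real.log_le_log hβ0 (hα β)
      have h2 : Real.log |t α i| ≤ Real.log K + Real.log |t β i| := by
        rw [← Real.log_mul (by linarith) hβ0.ne']
        exact Real.log_le_log hα0 hβ1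
      rw [abs_le]
      constructor
      · show -Real.log K ≤ Real.log |t α i| - Real.log |t β i|
        linarith
      · show Real.log |t α i| - Real.log |t β i| ≤ Real.log K
        linarith
  choose! p hp using hpair
  have hinj : Set.InjOn p (T : Set ℕ) := by
    intro i hi j hj hij
    by_contra hne
    have hi : i ∈ T := hi
    have hj : j ∈ T := hj
    obtain ⟨h1, h2, h3, h4⟩ := hp i hi
    obtain ⟨-, -, -, h8⟩ := hp j hj
    rw [← hij] at h8
    set α := (p i).1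
    set β := (p i).2
    rw [hlog α h2 i hi, hlog β h3 i hi] at h4
    rw [hlog α h2 j hj, hlog β h3 j hj] at h8
    have e1 : ∀ k : ℕ, (Real.log |c α| + (∑ l : Fin d, ((α l.castSucc : ℕ) : ℝ) * L l k +
        ((α (Fin.last d) : ℕ) : ℝ) * F k)) - (Real.log |c β| +
        (∑ l : Fin d, ((β l.castSucc : ℕ) : ℝ) * L l k + ((β (Fin.last d) : ℕ) : ℝ) * F k)) =
        (Real.log |c α| - Real.log |c β|) + (∑ l : Fin d, (((α l.castSucc : ℕ) : ℝ) -
          ((β l.castSucc : ℕ) : ℝ)) * L l k + (((α (Fin.last d) : ℕ) : ℝ) -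
          ((β (Fin.last d) : ℕ) : ℝ)) * F k) := by
      intro k
      have : ∑ l : Fin d, (((α l.castSucc : ℕ) : ℝ) - ((β l.castSucc : ℕ) : ℝ)) * L l k =
          ∑ l : Fin d, ((α l.castSucc : ℕ) : ℝ) * L l k - ∑ l : Fin d, ((β l.castSucc : ℕ) : ℝ) * L l k := by
        rw [← Finset.sum_sub_distrib]
        exact Finset.sum_congr rfl fun l _ => by ring
      rw [this]; ring
    rw [e1 i] at h4
    rw [e1 j] at h8
    have hD : |(∑ l : Fin d, (((α l.castSucc : ℕ) : ℝ) - ((β l.castSucc : ℕ) : ℝ)) * L l i +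
        (((α (Fin.last d) : ℕ) : ℝ) - ((β (Fin.last d) : ℕ) : ℝ)) * F i) -
        (∑ l : Fin d, (((α l.castSucc : ℕ) : ℝ) - ((β l.castSucc : ℕ) : ℝ)) * L l j +
        (((α (Fin.last d) : ℕ) : ℝ) - ((β (Fin.last d) : ℕ) : ℝ)) * F j)| ≤ 2 * Real.log K := by
      rw [abs_le] at h4 h8 ⊢
      constructor <;> linarith [h4.1, h4.2, h8.1, h8.2]
    by_cases hn : (α (Fin.last d) : ℕ) = (β (Fin.last d) : ℕ)
    · have hz : (fun l : Fin d => ((α l.castSucc : ℕ) : ℤ) - ((β l.castSucc : ℕ) : ℤ)) ≠ 0 := by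
        intro h0
        apply h1
        funext l
        refine Fin.lastCases ?_ (fun l => ?_) l
        · exact Fin.ext hn
        · have := congrFun h0 l
          simp only [Pi.zero_apply] at this
          apply Fin.ext
          omega
      have hzb : ∀ l : Fin d, |((α l.castSucc : ℕ) : ℤ) - ((β l.castSucc : ℕ) : ℤ)| ≤ (M : ℤ) := by
        intro l
        have := (α l.castSucc).2
        have := (β l.castSucc).2
        rw [abs_le]
        constructor <;> omega
      have hge : 2 * Real.log K + 2 ≤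
          |(∑ l : Fin d, (((α l.castSucc : ℕ) : ℝ) - ((β l.castSucc : ℕ) : ℝ)) * L l i) -
          (∑ l : Fin d, (((α l.castSucc : ℕ) : ℝ) - ((β l.castSucc : ℕ) : ℝ)) * L l j)| := by
        rcases hSc _ hz hzb with hu | hu
        · have := hu.abs_ge hi hj hne
          push_cast at this
          exact this
        · have := hu.abs_ge hi hj hne
          push_cast at this
          rw [← abs_neg]
          refine this.trans (le_of_eq ?_)
          congr 1
          ring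
      rw [hn, sub_self, zero_mul, zero_mul, add_zero, add_zero] at hD
      linarith
    · obtain ⟨n, hndef⟩ : ∃ n : ℤ, n = ((α (Fin.last d) : ℕ) : ℤ) - ((β (Fin.last d) : ℕ) : ℤ) :=
        ⟨_, rfl⟩
      have hn0 : n ≠ 0 := by omega
      have hnM : n.natAbs ≤ M := by
        have := (α (Fin.last d)).2
        have := (β (Fin.last d)).2
        omega
      have hdvd : n ∣ (M.factorial : ℤ) := by
        rw [← Int.natAbs_dvd_natAbs, Int.natAbs_natCast]
        exact Nat.dvd_factorial (Int.natAbs_pos.2 hn0) hnM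
      obtain ⟨q, hq⟩ := hdvd
      have hfac : (0 : ℤ) < (M.factorial : ℤ) := by exact_mod_cast Nat.factorial_pos M
      have hq0 : q ≠ 0 := by
        rintro rfl
        rw [mul_zero] at hq
        omega
      have hqle : |q| ≤ (M.factorial : ℤ) := by
        have h9 : |(M.factorial : ℤ)| = |n| * |q| := by rw [hq, abs_mul]
        rw [abs_of_pos hfac] at h9
        have h10 : 1 ≤ |n| := Int.one_le_abs hn0
        rw [h9]
        nlinarith [abs_nonneg q]
      let z : Fin d → ℤ := fun l => -((((α l.castSucc : ℕ) : ℤ) - ((β l.castSucc : ℕ) : ℤ)) * q)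
      have hzb : ∀ l, |z l| ≤ ((M * M.factorial : ℕ) : ℤ) := by
        intro l
        have h11 : |((α l.castSucc : ℕ) : ℤ) - ((β l.castSucc : ℕ) : ℤ)| ≤ (M : ℤ) := by
          have := (α l.castSucc).2
          have := (β l.castSucc).2
          rw [abs_le]
          constructor <;> omega
        show |-((((α l.castSucc : ℕ) : ℤ) - ((β l.castSucc : ℕ) : ℤ)) * q)| ≤ _
        rw [abs_neg, abs_mul]
        push_cast
        exact mul_le_mul h11 hqle (abs_nonneg _) (by positivity)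
      let x : Fin d → Fin (2 * (M * M.factorial) + 1) := fun l =>
        ⟨(z l + ((M * M.factorial : ℕ) : ℤ)).toNat, by
          have := abs_le.1 (hzb l)
          omega⟩
      have hx : ∀ l, (((x l : ℕ) : ℝ) - ((M * M.factorial : ℕ) : ℝ)) = (z l : ℝ) := by
        intro l
        have h12 : (((z l + ((M * M.factorial : ℕ) : ℤ)).toNat : ℕ) : ℤ) =
            z l + ((M * M.factorial : ℕ) : ℤ) := Int.toNat_of_nonneg (by
              have := abs_le.1 (hzb l)
              omega)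
        have h13 : (((z l + ((M * M.factorial : ℕ) : ℤ)).toNat : ℕ) : ℝ) =
            (z l : ℝ) + ((M * M.factorial : ℕ) : ℝ) := by exact_mod_cast congrArg (Int.cast : ℤ → ℝ) h12
        show (((z l + ((M * M.factorial : ℕ) : ℤ)).toNat : ℕ) : ℝ) - _ = _
        rw [h13]; ring
      have hs := hSep x i hi j hj hne
      have hG : ∀ k : ℕ, Gt (M * M.factorial) M.factorial L x k =
          -(∑ l : Fin d, (((α l.castSucc : ℕ) : ℝ) - ((β l.castSucc : ℕ) : ℝ)) * L l k) / (n : ℝ) := by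
        intro k
        unfold Gt
        have hfr : ((M.factorial : ℕ) : ℝ) = (n : ℝ) * (q : ℝ) := by exact_mod_cast hq
        have hnr : (n : ℝ) ≠ 0 := by exact_mod_cast hn0
        have hqr : (q : ℝ) ≠ 0 := by exact_mod_cast hq0
        rw [hfr]
        have h14 : ∑ l, (((x l : ℕ) : ℝ) - ((M * M.factorial : ℕ) : ℝ)) * L l k =
            -(∑ l : Fin d, (((α l.castSucc : ℕ) : ℝ) - ((β l.castSucc : ℕ) : ℝ)) * L l k) * q := by
          rw [neg_mul, Finset.sum_mul, ← Finset.sum_neg_distrib]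
          refine Finset.sum_congr rfl fun l _ => ?_
          rw [hx l]
          simp only [z]
          push_cast
          ring
        rw [h14]
        field_simp
      have hs2 : 2 * Real.log K + 2 ≤
          |(F i - Gt (M * M.factorial) M.factorial L x i) -
            (F j - Gt (M * M.factorial) M.factorial L x j)| := hs
      rw [hG i, hG j] at hs2
      have hnr : (n : ℝ) ≠ 0 := by exact_mod_cast hn0
      have hn1 : (1 : ℝ) ≤ |(n : ℝ)| := by
        have : 1 ≤ |n| := Int.one_le_abs hn0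
        exact_mod_cast this
      have hnre : ((α (Fin.last d) : ℕ) : ℝ) - ((β (Fin.last d) : ℕ) : ℝ) = (n : ℝ) := by
        rw [hndef]; push_cast; ring
      rw [hnre] at hD
      have h15 : (∑ l : Fin d, (((α l.castSucc : ℕ) : ℝ) - ((β l.castSucc : ℕ) : ℝ)) * L l i +
          (n : ℝ) * F i) - (∑ l : Fin d, (((α l.castSucc : ℕ) : ℝ) - ((β l.castSucc : ℕ) : ℝ)) * L l j +
          (n : ℝ) * F j) = (n : ℝ) * ((F i -
          -(∑ l : Fin d, (((α l.castSucc : ℕ) : ℝ) - ((β l.castSucc : ℕ) : ℝ)) * L l i) / (n : ℝ)) -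
          (F j - -(∑ l : Fin d, (((α l.castSucc : ℕ) : ℝ) - ((β l.castSucc : ℕ) : ℝ)) * L l j) /
          (n : ℝ))) := by
        field_simp
        ring
      rw [h15, abs_mul] at hD
      nlinarith [abs_nonneg ((F i -
          -(∑ l : Fin d, (((α l.castSucc : ℕ) : ℝ) - ((β l.castSucc : ℕ) : ℝ)) * L l i) / (n : ℝ)) -
          (F j - -(∑ l : Fin d, (((α l.castSucc : ℕ) : ℝ) - ((β l.castSucc : ℕ) : ℝ)) * L l j) /
          (n : ℝ)))]
  have hcard := Finset.card_le_card_of_injOn p (fun i _ => Finset.mem_univ (p i)) hinj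
  rw [Finset.card_univ, Fintype.card_prod, Fintype.card_fun, Fintype.card_fin, Fintype.card_fin,
    ← hK] at hcard
  have : K ^ 2 = K * K := by ring
  omega


end LA

section LN


theorem ns_up_scale {B : ℝ} {T : Finset ℕ} {u : ℕ → ℝ} (h : Up B T u) (hB : 0 ≤ B) (a : ℝ)
    (ha : 1 ≤ a) : Up B T (fun i => a * u i) := by
  intro i hi j hj hij
  have h1 := h i hi j hj hij
  have h2 : 0 ≤ a * (u j - (u i + B)) := mul_nonneg (by linarith) (by linarith)
  have h3 : 0 ≤ (a - 1) * B := mul_nonneg (by linarith) hB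
  show a * u i + B ≤ a * u j
  nlinarith

theorem ns_up_mono {B : ℝ} {T T' : Finset ℕ} {u : ℕ → ℝ} (h : Up B T u) (hT : T' ⊆ T) :
    Up B T' u := fun i hi j hj hij => h i (hT hi) j (hT hj) hij

theorem ns_up_congr {B : ℝ} {T : Finset ℕ} {u v : ℕ → ℝ} (h : Up B T u) (e : ∀ i, u i = v i) :
    Up B T v := by
  intro i hi j hj hij
  rw [← e, ← e]
  exact h i hi j hj hij

theorem ns_hom {B : ℝ} {T' : Finset ℕ} {u : ℕ → ℝ}
    (hsep : ∀ i ∈ T', ∀ j ∈ T', i ≠ j → B ≤ |u i - u j|)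
    (hhom : ∀ i ∈ T', ∀ j ∈ T', i < j → ∀ i' ∈ T', ∀ j' ∈ T', i' < j' →
      (u i < u j → u i' < u j')) :
    Up B T' u ∨ Up B T' (fun i => - u i) := by
  by_cases h : ∃ i ∈ T', ∃ j ∈ T', i < j ∧ u i < u j
  · left
    obtain ⟨i0, hi0, j0, hj0, h0, h1⟩ := h
    intro i hi j hj hij
    have h2 := hhom i0 hi0 j0 hj0 h0 i hi j hj hij h1
    have h3 := hsep i hi j hj hij.ne
    rw [abs_of_neg (by linarith)] at h3
    linarith
  · right
    intro i hi j hj hij
    have h2 : ¬ u i < u j := fun h2 => h ⟨i, hi, j, hj, hij, h2⟩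
    push Not at h2
    have h3 := hsep i hi j hj hij.ne
    rw [abs_of_nonneg (by linarith)] at h3
    show - u i + B ≤ - u j
    linarith

theorem ns_inc {T : Finset ℕ} {i j : ℕ} (hi : i ∈ T) (hj : j ∈ T) (hij : i < j) :
    Inc 2 T ![i, j] := by
  constructor
  · intro a b hab
    fin_cases a <;> fin_cases b <;> simp_all
  · intro a
    fin_cases a
    · exact hi
    · exact hj

/-- TARGET -/
theorem new_scale (hR : RamseyStmt) : NewScaleStmt := by
  intro r H
  obtain ⟨A, hA, hA'⟩ :=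
    hR 2 (Fintype.card ((Fin r → Fin (2 * (H * H.factorial) + 1)) → Bool))
  refine ⟨A, hA, ?_⟩
  intro B hB m hm T L F hT hSc hsep
  obtain ⟨u, hu0⟩ : ∃ u : (Fin r → Fin (2 * (H * H.factorial) + 1)) → ℕ → ℝ,
      ∀ x i, u x i = F i - Gt (H * H.factorial) H.factorial L x i := ⟨_, fun _ _ => rfl⟩
  obtain ⟨T', hT', hcard, hhom⟩ := hA' m hm T hT
    ((Fin r → Fin (2 * (H * H.factorial) + 1)) → Bool) le_rfl
    (fun t x => decide (u x (t 0) < u x (t 1)))
  have key : ∀ x, Up B T' (u x) ∨ Up B T' (fun i => - u x i) := by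
    intro x
    apply ns_hom
    · intro i hi j hj hij
      rw [hu0, hu0]
      exact hsep x i (hT' hi) j (hT' hj) hij
    · intro i hi j hj hij i' hi' j' hj' hij' h
      have h1 : decide (u x i < u x j) = decide (u x i' < u x j') :=
        congrFun (hhom ![i, j] ![i', j'] (ns_inc hi hj hij) (ns_inc hi' hj' hij')) x
      rw [decide_eq_decide] at h1
      exact h1.mp h
  refine ⟨T', hT', hcard, ?_⟩
  intro z hz hzH
  have hsum : ∀ i, ∑ l, (z l : ℝ) * (Fin.snoc L F : Fin (r + 1) → ℕ → ℝ) l i =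
      (∑ l : Fin r, (z l.castSucc : ℝ) * L l i) + (z (Fin.last r) : ℝ) * F i := by
    intro i
    rw [Fin.sum_univ_castSucc]
    simp [Fin.snoc_castSucc, Fin.snoc_last]
  by_cases hn : z (Fin.last r) = 0
  · have hz' : (fun l : Fin r => z l.castSucc) ≠ 0 := by
      intro h0
      apply hz
      funext l
      refine Fin.lastCases ?_ ?_ l
      · exact hn
      · intro l
        exact congrFun h0 l
    rcases hSc (fun l => z l.castSucc) hz' (fun l => hzH _) with h | h
    · left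
      exact ns_up_congr (ns_up_mono h hT') (fun i => by rw [hsum, hn]; simp)
    · right
      exact ns_up_congr (ns_up_mono h hT') (fun i => by rw [hsum, hn]; simp)
  · obtain ⟨n, hnn⟩ : ∃ n, n = z (Fin.last r) := ⟨_, rfl⟩
    rw [← hnn] at hn
    have hnH : |n| ≤ (H : ℤ) := by rw [hnn]; exact hzH _
    have hdvd : n ∣ (H.factorial : ℤ) := by
      rw [← Int.natAbs_dvd]
      norm_cast
      apply Nat.dvd_factorial (Int.natAbs_pos.mpr hn)
      rw [Int.abs_eq_natAbs] at hnH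
      exact_mod_cast hnH
    obtain ⟨q, hq⟩ := hdvd
    have hfac : 0 < H.factorial := Nat.factorial_pos H
    have hq' : |q| ≤ (H.factorial : ℤ) := by
      have h1 : |n| * |q| = (H.factorial : ℤ) := by
        rw [← abs_mul, ← hq]
        exact abs_of_nonneg (by positivity)
      have h2 : 1 ≤ |n| := Int.one_le_abs hn
      nlinarith [abs_nonneg q]
    have hb : ∀ l : Fin r, |-(z l.castSucc) * q| ≤ ((H * H.factorial : ℕ) : ℤ) := by
      intro l
      rw [abs_mul, abs_neg]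
      push_cast
      exact mul_le_mul (hzH _) hq' (abs_nonneg _) (by positivity)
    have hxe : ∀ l : Fin r, ∃ y : Fin (2 * (H * H.factorial) + 1),
        ((y : ℕ) : ℤ) = -(z l.castSucc) * q + ((H * H.factorial : ℕ) : ℤ) := by
      intro l
      have h1 := abs_le.mp (hb l)
      generalize -(z l.castSucc) * q = w at h1 ⊢
      generalize H * H.factorial = R at h1 ⊢
      exact ⟨⟨(w + (R : ℤ)).toNat, by omega⟩, by simp only; omega⟩
    choose x hx using hxe
    have hxr : ∀ l, ((x l : ℕ) : ℝ) - ((H * H.factorial : ℕ) : ℝ) =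
        -(z l.castSucc : ℝ) * (q : ℝ) := by
      intro l
      have h2 : (((x l : ℕ) : ℤ) : ℝ) =
        ((-(z l.castSucc) * q + ((H * H.factorial : ℕ) : ℤ) : ℤ) : ℝ) := by rw [hx l]
      push_cast at h2 ⊢
      linarith
    have hu : ∀ i, (n : ℝ) * u x i =
        (∑ l : Fin r, (z l.castSucc : ℝ) * L l i) + (n : ℝ) * F i := by
      intro i
      rw [hu0]
      unfold Gt
      simp_rw [hxr]
      have hqr : ((H.factorial : ℕ) : ℝ) = (n : ℝ) * (q : ℝ) := by exact_mod_cast hq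
      have hn0 : (n : ℝ) ≠ 0 := by exact_mod_cast hn
      have hq0 : (q : ℝ) ≠ 0 := by
        intro h0
        rw [h0, mul_zero] at hqr
        have : (0:ℝ) < (H.factorial : ℕ) := by exact_mod_cast hfac
        linarith
      have h3 : ∑ l, -(z l.castSucc : ℝ) * (q : ℝ) * L l i =
          -(q : ℝ) * ∑ l : Fin r, (z l.castSucc : ℝ) * L l i := by
        rw [Finset.mul_sum]
        apply Finset.sum_congr rfl
        intro l _
        ring
      rw [h3, hqr]
      field_simp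
      ring
    have hV : ∀ i, ∑ l, (z l : ℝ) * (Fin.snoc L F : Fin (r + 1) → ℕ → ℝ) l i =
        (n : ℝ) * u x i := by
      intro i
      rw [hsum, hu, hnn]
    rcases lt_or_gt_of_ne hn with hneg | hpos
    · have h1 : (1 : ℝ) ≤ -(n : ℝ) := by
        have : n ≤ -1 := by omega
        have h2 : (n : ℝ) ≤ ((-1 : ℤ) : ℝ) := by exact_mod_cast this
        push_cast at h2
        linarith
      rcases key x with h | h
      · right
        exact ns_up_congr (ns_up_scale h hB _ h1) (fun i => by rw [hV]; ring)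
      · left
        exact ns_up_congr (ns_up_scale h hB _ h1) (fun i => by rw [hV]; ring)
    · have h1 : (1 : ℝ) ≤ (n : ℝ) := by exact_mod_cast hpos
      rcases key x with h | h
      · left
        exact ns_up_congr (ns_up_scale h hB _ h1) (fun i => by rw [hV])
      · right
        exact ns_up_congr (ns_up_scale h hB _ h1) (fun i => by rw [hV]; ring)


end LN

section LT


lemma tw_ge (C c : ℕ) (hc : 1 ≤ c) : c ≤ tw C c := by
  have h1 := mul_tw_le C c 1 hc le_rfl
  rw [mul_one] at h1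
  have h2 := tw_pos C 1 le_rfl
  nlinarith

lemma Spread.weaken {P : ℕ} {B B' : ℝ} {T T' : Finset ℕ} {G : Fin P → ℕ → ℝ}
    (h : Spread P B T G) (hB : B' ≤ B) (hT : T' ⊆ T) : Spread P B' T' G := by
  intro a b hab i hi j hj hij
  have := h a b hab i (hT hi) j (hT hj) hij
  linarith

lemma Up.weaken {B B' : ℝ} {T T' : Finset ℕ} {u : ℕ → ℝ} (h : Up B T u) (hB : B' ≤ B)
    (hT : T' ⊆ T) : Up B' T' u := by
  intro i hi j hj hij
  have := h i (hT hi) j (hT hj) hij
  linarith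

lemma Sc.weaken {r R R' : ℕ} {B B' : ℝ} {T T' : Finset ℕ} {L : Fin r → ℕ → ℝ}
    (h : Sc r R B T L) (hR : R' ≤ R) (hB : B' ≤ B) (hT : T' ⊆ T) : Sc r R' B' T' L := by
  intro z hz hzl
  have hzl' : ∀ l, |z l| ≤ (R : ℤ) := fun l => (hzl l).trans (by exact_mod_cast hR)
  rcases h z hz hzl' with h1 | h1
  · exact Or.inl (h1.weaken hB hT)
  · exact Or.inr (h1.weaken hB hT)

/-- TARGET -/
theorem good_top (hRd : RoundStmt) (hF : FinishStmt) (hSo : SortStmt) (hAG : AlgGenStmt)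
    (d M N k : ℕ) : GoodStmt d M N k d := by
  obtain ⟨S0, B1, hS0, hB1, hAG'⟩ := hAG d M
  have hQ : 1 ≤ M.factorial := Nat.one_le_iff_ne_zero.2 (Nat.factorial_ne_zero M)
  have hP : 1 ≤ (2 * (M * M.factorial) + 1) ^ d := Nat.one_le_pow _ _ (by omega)
  obtain ⟨A1, hA1, B0, hRd'⟩ := hRd ((2 * (M * M.factorial) + 1) ^ d) hP B1 hB1 N
  obtain ⟨Af, hAf, B0f, hF'⟩ := hF ((2 * (M * M.factorial) + 1) ^ d) N k B1 (by linarith)
  have hMR : M ≤ 2 * (M * M.factorial) := by
    have : M * 1 ≤ M * M.factorial := Nat.mul_le_mul_left M hQ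
    omega
  have hQ' : (1:ℝ) ≤ (M.factorial : ℝ) := by exact_mod_cast hQ
  have hQ0 : (0:ℝ) < (M.factorial : ℝ) := by linarith
  obtain ⟨C, hC⟩ : ∃ C : ℝ, C = max (max B0 B0f) 1 := ⟨_, rfl⟩
  have hC0 : B0 ≤ C := by rw [hC]; exact (le_max_left _ _).trans (le_max_left _ _)
  have hC0f : B0f ≤ C := by rw [hC]; exact (le_max_right _ _).trans (le_max_left _ _)
  have hC1 : 1 ≤ C := by rw [hC]; exact le_max_right _ _
  have hK1 : 1 ≤ tw 2 (A1 * S0) := tw_pos 2 _ (Nat.one_le_iff_ne_zero.2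
    (Nat.mul_ne_zero (by omega) (by omega)))
  have hQC : 0 ≤ (M.factorial : ℝ) * C := mul_nonneg hQ0.le (by linarith)
  refine ⟨2 * (M * M.factorial), M.factorial * C + B1, tw 2 (A1 * S0) * Af, by linarith,
    Nat.one_le_iff_ne_zero.2 (Nat.mul_ne_zero (by omega) (by omega)), ?_⟩
  intro m hm T hT h hAD mu hmu hSc c
  have hT12 : tw 12 (tw 2 (A1 * S0) * Af * m) ≤ T.card := by
    have : 6 * (d - d) + 12 = 12 := by omega
    rwa [this] at hT
  have hAfm : 1 ≤ Af * m := Nat.one_le_iff_ne_zero.2 (Nat.mul_ne_zero (by omega) (by omega))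
  obtain ⟨e, he⟩ := hSo d (M * M.factorial) M.factorial hQ (M.factorial * C + B1) (by linarith) T
    (fun l i => Real.log |lin h (mu l) i|) hSc
  have hBQ : C ≤ (M.factorial * C + B1) / M.factorial := by
    rw [le_div_iff₀ hQ0]
    linarith
  have hK : tw 2 (A1 * S0) ≤ T.card := by
    refine le_trans ?_ hT12
    refine le_trans ?_ (tw_ge 12 _ ?_)
    · calc tw 2 (A1 * S0) = tw 2 (A1 * S0) * 1 := (mul_one _).symm
        _ ≤ tw 2 (A1 * S0) * (Af * m) := Nat.mul_le_mul_left _ hAfm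
        _ = tw 2 (A1 * S0) * Af * m := (mul_assoc _ _ _).symm
    · rw [mul_assoc]
      exact Nat.one_le_iff_ne_zero.2 (Nat.mul_ne_zero (by omega) (by omega))
  rcases hRd' S0 hS0 T _ hK (he.weaken (hC0.trans hBQ) (Finset.Subset.refl T)) h with
    ⟨nu, T2, hT2, hcard, hgen⟩ | ⟨A', w, T2, hT2, hcard, hnear, Lam, hLam⟩
  · exfalso
    have := hAG' N h hAD mu nu T2 (fun l i hi => hmu l i (hT2 hi)) hgen.1
      (hSc.weaken hMR (by linarith) hT2) (by
        intro x i hi j hj hij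
        have h1 := hgen.2 (e.symm x) i hi j hj hij
        simp only [Equiv.apply_symm_apply] at h1
        exact h1)
    omega
  · have h2 : tw 12 (Af * m) ≤ T2.card := by
      have h3 := mul_tw_le 12 (tw 2 (A1 * S0)) (Af * m) hK1 hAfm
      rw [← mul_assoc] at h3
      have h4 : tw 2 (A1 * S0) * tw 12 (Af * m) ≤ tw 2 (A1 * S0) * T2.card :=
        (h3.trans hT12).trans hcard
      exact Nat.le_of_mul_le_mul_left h4 (by omega)
    obtain ⟨T', hT', hm', hhom⟩ := hF' m hm T2 _ h2 (he.weaken (hC0f.trans hBQ) hT2) A' w hnear h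
      Lam hLam c
    exact ⟨T', hT'.trans hT2, hm', hhom⟩


end LT

section LG


lemma gs_le_tw (C x : ℕ) : x ≤ tw C x := by
  induction C with
  | zero => exact le_rfl
  | succ j ih => exact ih.trans (Nat.lt_two_pow_self).le

lemma gs_tw_le {a b : ℕ} (h : a ≤ b) (x : ℕ) : tw a x ≤ tw b x := by
  obtain ⟨c, rfl⟩ := Nat.exists_eq_add_of_le h
  rw [← tw_tw]
  exact tw_mono a (gs_le_tw c x)

lemma gs_prod (E u v m : ℕ) (hE : 1 ≤ E) (hu : 1 ≤ u) (hm : 1 ≤ m) :
    tw E (u * m) * tw E (v * m) ≤ tw E (2 * (u + v) * m) := by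
  obtain ⟨e, rfl⟩ : ∃ e, E = e + 1 := ⟨E - 1, by omega⟩
  show 2 ^ tw e (u * m) * 2 ^ tw e (v * m) ≤ 2 ^ tw e (2 * (u + v) * m)
  rw [← pow_add]
  refine Nat.pow_le_pow_right (by norm_num) ?_
  have h1 : tw e (u * m) ≤ tw e ((u + v) * m) :=
    tw_mono e (Nat.mul_le_mul_right _ (Nat.le_add_right _ _))
  have h2 : tw e (v * m) ≤ tw e ((u + v) * m) :=
    tw_mono e (Nat.mul_le_mul_right _ (Nat.le_add_left _ _))
  have h3 : 1 ≤ (u + v) * m := Nat.mul_pos (by omega) hm
  have h4 := mul_tw_le e 2 ((u + v) * m) (by norm_num) h3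
  rw [← mul_assoc] at h4
  omega

lemma gs_Sc_mono {r R R' : ℕ} {B B' : ℝ} {T T' : Finset ℕ} {L : Fin r → ℕ → ℝ}
    (h : Sc r R B T L) (hR : R' ≤ R) (hB : B' ≤ B) (hT : T' ⊆ T) : Sc r R' B' T' L := by
  intro z hz hzR
  rcases h z hz (fun l => (hzR l).trans (by exact_mod_cast hR)) with h1 | h1
  · left
    intro i hi j hj hij
    have := h1 i (hT hi) j (hT hj) hij
    simp only at this ⊢
    linarith
  · right
    intro i hi j hj hij
    have := h1 i (hT hi) j (hT hj) hij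
    simp only at this ⊢
    linarith

lemma gs_Spread_mono {N : ℕ} {B B' : ℝ} {T T' : Finset ℕ} {G : Fin N → ℕ → ℝ}
    (h : Spread N B T G) (hB : B' ≤ B) (hT : T' ⊆ T) : Spread N B' T' G := by
  intro a b hab i hi j hj hij
  have := h a b hab i (hT hi) j (hT hj) hij
  linarith

/-- TARGET -/
theorem good_step (hRd : RoundStmt) (hF : FinishStmt) (hSo : SortStmt) (hNS : NewScaleStmt)
    (d M N k r : ℕ) (hr : r < d) (hG : GoodStmt d M N k (r + 1)) : GoodStmt d M N k r := by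
  obtain ⟨R2, B2, A2, hB2, hA2, hG⟩ := hG
  obtain ⟨R0, hR0⟩ : ∃ R0, R0 = R2 * R2.factorial := ⟨_, rfl⟩
  obtain ⟨Q, hQe⟩ : ∃ Q, Q = R2.factorial := ⟨_, rfl⟩
  obtain ⟨P, hPe⟩ : ∃ P, P = (2 * R0 + 1) ^ r := ⟨_, rfl⟩
  have hP : 1 ≤ P := by rw [hPe]; exact Nat.one_le_pow _ _ (by omega)
  have hQ : 1 ≤ Q := by rw [hQe]; exact Nat.factorial_pos _
  have hQR : (1 : ℝ) ≤ (Q : ℝ) := by exact_mod_cast hQ
  have hR2R0 : R2 ≤ 2 * R0 := by
    rw [hR0]
    have : R2 * 1 ≤ R2 * R2.factorial := Nat.mul_le_mul_left _ (Nat.factorial_pos _)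
    omega
  obtain ⟨A1, hA1, B0, hRd⟩ := hRd P hP B2 hB2 N
  obtain ⟨Af, hAf, B0f, hF⟩ := hF P N k B2 (by linarith)
  obtain ⟨An, hAn, hNS⟩ := hNS r R2
  obtain ⟨Bm, hBm⟩ : ∃ Bm : ℝ, Bm = max (max B0 B0f) 1 := ⟨_, rfl⟩
  have hBm0 : B0 ≤ Bm := by rw [hBm]; exact (le_max_left _ _).trans (le_max_left _ _)
  have hBmf : B0f ≤ Bm := by rw [hBm]; exact (le_max_right _ _).trans (le_max_left _ _)
  have hBm1 : 1 ≤ Bm := by rw [hBm]; exact le_max_right _ _
  have hQB : 0 ≤ (Q : ℝ) * Bm := by positivity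
  refine ⟨2 * R0, Q * Bm + B2, 2 * (A1 * An * A2 + Af), by linarith, ?_, ?_⟩
  · omega
  intro m hm T hT h hAD mu hmu hSc c
  -- the towers
  obtain ⟨D, hD⟩ : ∃ D, D = 6 * (d - (r + 1)) + 12 := ⟨_, rfl⟩
  have hDE : 6 * (d - r) + 12 = 6 + D := by omega
  rw [hDE] at hT
  obtain ⟨m1, hm1⟩ : ∃ m1, m1 = tw D (A2 * m) := ⟨_, rfl⟩
  have hA2m : 1 ≤ A2 * m := Nat.mul_pos hA2 hm
  have hm1p : 1 ≤ m1 := by rw [hm1]; exact tw_pos _ _ hA2m
  obtain ⟨S, hS⟩ : ∃ S, S = tw 4 (An * m1) := ⟨_, rfl⟩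
  have hAnm : 1 ≤ An * m1 := Nat.mul_pos hAn hm1p
  have hSp : 1 ≤ S := by rw [hS]; exact tw_pos _ _ hAnm
  have hX : tw 2 (A1 * S) ≤ tw (6 + D) (A1 * An * A2 * m) := by
    have h1 : A1 * S ≤ tw 4 (A1 * (An * m1)) := by rw [hS]; exact mul_tw_le 4 A1 _ hA1 hAnm
    have h2 : A1 * (An * m1) ≤ tw D (A1 * An * A2 * m) := by
      rw [hm1, ← mul_assoc]
      refine (mul_tw_le D (A1 * An) (A2 * m) (Nat.mul_pos hA1 hAn) hA2m).trans (le_of_eq ?_)
      congr 1
      ring
    calc tw 2 (A1 * S) ≤ tw 2 (tw 4 (tw D (A1 * An * A2 * m))) :=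
          tw_mono 2 (h1.trans (tw_mono 4 h2))
      _ = tw (6 + D) (A1 * An * A2 * m) := by rw [tw_tw, tw_tw]
  have ha1 : 1 ≤ A1 * An * A2 := Nat.mul_pos (Nat.mul_pos hA1 hAn) hA2
  have hXT : tw 2 (A1 * S) ≤ T.card := by
    refine hX.trans (le_trans (tw_mono _ ?_) hT)
    exact Nat.mul_le_mul_right _ (by omega)
  -- the sorted types
  obtain ⟨L, hL⟩ : ∃ L : Fin r → ℕ → ℝ, L = fun l i => Real.log |lin h (mu l) i| := ⟨_, rfl⟩
  have hScL : Sc r (2 * R0) (Q * Bm + B2) T L := by rw [hL]; exact hSc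
  obtain ⟨e, he⟩ : ∃ e : Fin P ≃ (Fin r → Fin (2 * R0 + 1)),
      Spread P ((Q * Bm + B2) / Q) T (fun b => Gt R0 Q L (e b)) := by
    rw [hPe]
    exact hSo r R0 Q hQ (Q * Bm + B2) (by linarith) T L hScL
  have hBQ : Bm ≤ (Q * Bm + B2) / Q := by
    rw [le_div_iff₀ (by linarith)]
    nlinarith
  have hSp0 : Spread P B0 T (fun b => Gt R0 Q L (e b)) :=
    gs_Spread_mono he (hBm0.trans hBQ) (Finset.Subset.refl T)
  rcases hRd S hSp T (fun b => Gt R0 Q L (e b)) hXT hSp0 h with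
    ⟨nu, T2, hT2, hST2, hgen0, hgen⟩ | ⟨A, w, T2, hT2, hcard, hnear, Lam, hLam⟩
  · -- a generic combination gives a new scale
    have hScT2 : Sc r R2 B2 T2 L := gs_Sc_mono hScL hR2R0 (by linarith) hT2
    have hNSc : ∀ x : Fin r → Fin (2 * (R2 * R2.factorial) + 1), ∀ i ∈ T2, ∀ j ∈ T2, i ≠ j →
        B2 ≤ |(Real.log |lin h nu i| - Gt (R2 * R2.factorial) R2.factorial L x i) -
          (Real.log |lin h nu j| - Gt (R2 * R2.factorial) R2.factorial L x j)| := by
      subst hR0 hQe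
      intro x i hi j hj hij
      have := hgen (e.symm x) i hi j hj hij
      simpa using this
    obtain ⟨T3, hT3, hm1T3, hSc3⟩ := hNS B2 (by linarith) m1 hm1p T2 L
      (fun i => Real.log |lin h nu i|) (by rw [← hS]; exact hST2) hScT2 hNSc
    have hfun : (fun (l : Fin (r + 1)) (i : ℕ) =>
        Real.log |lin h ((Fin.snoc mu nu : Fin (r + 1) → Fin N → ℝ) l) i|) =
        (Fin.snoc L (fun i => Real.log |lin h nu i|) : Fin (r + 1) → ℕ → ℝ) := by
      funext l
      refine Fin.lastCases ?_ (fun l' => ?_) l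
      · simp
      · simp [hL]
    obtain ⟨T', hT', hmT', hhom⟩ := hG m hm T3 (by rw [← hD, ← hm1]; exact hm1T3) h hAD
      (Fin.snoc mu nu : Fin (r + 1) → Fin N → ℝ) (by
        intro l
        refine Fin.lastCases ?_ (fun l' => ?_) l
        · intro i hi
          rw [Fin.snoc_last]
          exact hgen0 i (hT3 hi)
        · intro i hi
          rw [Fin.snoc_castSucc]
          exact hmu l' i (hT2 (hT3 hi))) (by rw [hfun]; exact hSc3) c
    exact ⟨T', hT'.trans (hT3.trans hT2), hmT', hhom⟩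
  · -- a spread basis
    have hTf : tw 12 (Af * m) ≤ T2.card := by
      have h1 : tw 12 (Af * m) ≤ tw (6 + D) (Af * m) := gs_tw_le (by omega) _
      have h2 : tw 2 (A1 * S) * tw 12 (Af * m) ≤ tw (6 + D) (A1 * An * A2 * m) * tw (6 + D) (Af * m) :=
        Nat.mul_le_mul hX h1
      have h3 := gs_prod (6 + D) (A1 * An * A2) Af m (by omega) ha1 hm
      have h4 : tw 2 (A1 * S) * tw 12 (Af * m) ≤ tw 2 (A1 * S) * T2.card :=
        h2.trans (h3.trans (hT.trans hcard))
      exact Nat.le_of_mul_le_mul_left h4 (tw_pos 2 _ (Nat.mul_pos hA1 hSp))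
    have hSpf : Spread P B0f T2 (fun b => Gt R0 Q L (e b)) :=
      gs_Spread_mono he (hBmf.trans hBQ) hT2
    obtain ⟨T', hT', hmT', hhom⟩ := hF m hm T2 (fun b => Gt R0 Q L (e b)) hTf hSpf A w hnear h Lam
      hLam c
    exact ⟨T', hT'.trans hT2, hmT', hhom⟩


end LG

section LD


/-- monomial functions of degree at most `e` in each variable -/
def adMo (d : ℕ) (x : ℕ → Fin d → ℝ) (e : ℕ) : Set (ℕ → ℝ) :=
  Set.range (fun β : Fin d → Fin (e + 1) => fun i => ∏ s, x i s ^ (β s : ℕ))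

def adW (d : ℕ) (x : ℕ → Fin d → ℝ) (e : ℕ) : Submodule ℝ (ℕ → ℝ) := Submodule.span ℝ (adMo d x e)

lemma adMo_mem (d : ℕ) (x : ℕ → Fin d → ℝ) (e : ℕ) (β : Fin d → ℕ) (h : ∀ s, β s ≤ e) :
    (fun i => ∏ s, x i s ^ (β s)) ∈ adMo d x e :=
  ⟨fun s => ⟨β s, Nat.lt_succ_of_le (h s)⟩, rfl⟩

lemma adW_mono (d : ℕ) (x : ℕ → Fin d → ℝ) {e e' : ℕ} (h : e ≤ e') : adW d x e ≤ adW d x e' := by
  apply Submodule.span_mono
  rintro _ ⟨β, rfl⟩
  exact adMo_mem d x e' (fun s => (β s : ℕ)) (fun s => le_trans (Nat.lt_succ_iff.mp (β s).2) h)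

lemma adW_one (d : ℕ) (x : ℕ → Fin d → ℝ) (e : ℕ) : (1 : ℕ → ℝ) ∈ adW d x e := by
  apply Submodule.subset_span
  have h := adMo_mem d x e (fun _ => 0) (fun _ => Nat.zero_le _)
  convert h using 1
  funext i
  simp

lemma adW_mul (d : ℕ) (x : ℕ → Fin d → ℝ) {e e' : ℕ} {f g : ℕ → ℝ} (hf : f ∈ adW d x e)
    (hg : g ∈ adW d x e') : f * g ∈ adW d x (e + e') := by
  have h := Submodule.mul_mem_mul hf hg
  unfold adW at h
  rw [Submodule.span_mul_span] at h
  refine Submodule.span_mono ?_ h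
  rintro _ ⟨_, ⟨β, rfl⟩, _, ⟨γ, rfl⟩, rfl⟩
  have h' := adMo_mem d x (e + e') (fun s => (β s : ℕ) + (γ s : ℕ))
    (fun s => Nat.add_le_add (Nat.lt_succ_iff.mp (β s).2) (Nat.lt_succ_iff.mp (γ s).2))
  convert h' using 1
  funext i
  simp only [Pi.mul_apply]
  rw [← Finset.prod_mul_distrib]
  exact Finset.prod_congr rfl fun s _ => (pow_add _ _ _).symm

lemma adW_pow (d : ℕ) (x : ℕ → Fin d → ℝ) {e : ℕ} {f : ℕ → ℝ} (hf : f ∈ adW d x e) (n : ℕ) :
    f ^ n ∈ adW d x (n * e) := by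
  induction n with
  | zero => rw [pow_zero]; exact adW_one d x _
  | succ n ih =>
    rw [pow_succ, Nat.succ_mul]
    exact adW_mul d x ih hf

lemma adW_prod (d : ℕ) (x : ℕ → Fin d → ℝ) {e : ℕ} {ι : Type} (s : Finset ι) (f : ι → ℕ → ℝ)
    (hf : ∀ l ∈ s, f l ∈ adW d x e) : (∏ l ∈ s, f l) ∈ adW d x (s.card * e) := by
  classical
  induction s using Finset.induction_on with
  | empty => rw [Finset.prod_empty]; exact adW_one d x _
  | insert a s ha ih =>
    rw [Finset.prod_insert ha, Finset.card_insert_of_notMem ha, Nat.succ_mul, mul_comm (f a)]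
    exact adW_mul d x (ih fun l hl => hf l (Finset.mem_insert_of_mem hl))
      (hf a (Finset.mem_insert_self _ _))

/-- TARGET: products of monomials of bounded degree are algebraically dependent -/
theorem alg_dep (d D : ℕ) : ∃ M : ℕ, ∀ (x : ℕ → Fin d → ℝ) (N : ℕ) (E : Fin N → (Fin d → ℕ)),
    (∀ j s, E j s ≤ D) → AlgDep d M N (fun j i => ∏ s, x i s ^ (E j s)) := by
  classical
  refine ⟨((d + 1) * D + 1) ^ d, ?_⟩
  intro x N E hE mu
  set M : ℕ := ((d + 1) * D + 1) ^ d with hM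
  have hM1 : 1 ≤ M := Nat.one_le_pow _ _ (by omega)
  set h : Fin N → ℕ → ℝ := fun j i => ∏ s, x i s ^ (E j s) with hh
  set e : ℕ := (d + 1) * (M * D) with he
  have hlin : ∀ l, lin h (mu l) ∈ adW d x D := by
    intro l
    have : lin h (mu l) = ∑ j, mu l j • h j := by
      funext i
      simp [lin, Finset.sum_apply]
    rw [this]
    apply Submodule.sum_mem
    intro j _
    apply Submodule.smul_mem
    apply Submodule.subset_span
    exact adMo_mem d x D (E j) (hE j)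
  have hF : ∀ α : Fin (d + 1) → Fin (M + 1), (∏ l, (lin h (mu l)) ^ (α l : ℕ)) ∈ adW d x e := by
    intro α
    have h1 := adW_prod d x (e := M * D) (Finset.univ : Finset (Fin (d + 1)))
      (fun l => (lin h (mu l)) ^ (α l : ℕ)) (fun l _ =>
        adW_mono d x (Nat.mul_le_mul_right D (Nat.lt_succ_iff.mp (α l).2)) (adW_pow d x (hlin l) _))
    rw [Finset.card_univ, Fintype.card_fin] at h1
    exact h1
  let F : (Fin (d + 1) → Fin (M + 1)) → adW d x e := fun α => ⟨_, hF α⟩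
  haveI : Module.Finite ℝ (adW d x e) := Module.Finite.span_of_finite ℝ (Set.finite_range _)
  have hfr : Module.finrank ℝ (adW d x e) ≤ (e + 1) ^ d := by
    have h1 := finrank_range_le_card (R := ℝ)
      (fun β : Fin d → Fin (e + 1) => (fun i => ∏ s, x i s ^ (β s : ℕ) : ℕ → ℝ))
    rw [Fintype.card_fun, Fintype.card_fin, Fintype.card_fin] at h1
    exact h1
  have hlt : (e + 1) ^ d < (M + 1) ^ (d + 1) := by
    have h1 : e + 1 ≤ M * ((d + 1) * D + 1) := by
      rw [he]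
      calc (d + 1) * (M * D) + 1 ≤ (d + 1) * (M * D) + M := by omega
        _ = M * ((d + 1) * D + 1) := by ring
    calc (e + 1) ^ d ≤ (M * ((d + 1) * D + 1)) ^ d := Nat.pow_le_pow_left h1 d
      _ = M ^ d * M := by rw [mul_pow, ← hM]
      _ = M ^ (d + 1) := by rw [pow_succ]
      _ < (M + 1) ^ (d + 1) := Nat.pow_lt_pow_left (by omega) (by omega)
  have hnot : ¬ LinearIndependent ℝ F := by
    intro hli
    have h1 := hli.fintype_card_le_finrank
    rw [Fintype.card_fun, Fintype.card_fin, Fintype.card_fin] at h1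
    omega
  rw [Fintype.not_linearIndependent_iff] at hnot
  obtain ⟨c, hc, α0, hα0⟩ := hnot
  refine ⟨c, ?_, ?_⟩
  · intro h0
    apply hα0
    rw [h0]
    rfl
  · intro i
    have h1 := congrArg (fun w : adW d x e => (w : ℕ → ℝ) i) hc
    simp only [F, Submodule.coe_sum, Submodule.coe_smul, Finset.sum_apply, Pi.smul_apply,
      Finset.prod_apply, Pi.pow_apply, smul_eq_mul, Submodule.coe_zero, Pi.zero_apply] at h1
    exact h1


end LD

/-- algebraic dependence statement -/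
def AlgDepStmt : Prop := ∀ (d D : ℕ), ∃ M : ℕ, ∀ (x : ℕ → Fin d → ℝ) (N : ℕ) (E : Fin N → (Fin d → ℕ)),
    (∀ j s, E j s ≤ D) → AlgDep d M N (fun j i => ∏ s, x i s ^ (E j s))

theorem good_all (hT : ∀ d M N k, GoodStmt d M N k d)
    (hS : ∀ d M N k r, r < d → GoodStmt d M N k (r + 1) → GoodStmt d M N k r) (d M N k : ℕ) :
    GoodStmt d M N k 0 := by
  have key : ∀ j, ∀ r, r + j = d → GoodStmt d M N k r := by
    intro j
    induction j with
    | zero => intro r hr; have : r = d := by omega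
              subst this; exact hT r M N k
    | succ j ih => intro r hr; exact hS d M N k r (by omega) (ih (r + 1) (by omega))
  exact key d 0 (by omega)

/-- the monomial functions of bounded degree, enumerated -/
noncomputable def enumE (d D : ℕ) : Fin ((D + 1) ^ d) ≃ (Fin d → Fin (D + 1)) :=
  (Fintype.equivFinOfCardEq (by simp)).symm

noncomputable def Ex (d D : ℕ) (j : Fin ((D + 1) ^ d)) (s : Fin d) : ℕ := (enumE d D j s : ℕ)

noncomputable def phi (k d D : ℕ) (a : Fin k → Fin ((D + 1) ^ d)) : (Fin k × Fin d) →₀ ℕ :=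
  Finsupp.equivFunOnFinite.symm (fun p => Ex d D (a p.1) p.2)

lemma phi_apply (k d D : ℕ) (a : Fin k → Fin ((D + 1) ^ d)) (p : Fin k × Fin d) :
    phi k d D a p = Ex d D (a p.1) p.2 := rfl

lemma phi_inj (k d D : ℕ) : Function.Injective (phi k d D) := by
  intro a b hab
  funext l
  apply (enumE d D).injective
  funext s
  apply Fin.val_injective
  have := congrArg (fun g => g (l, s)) hab
  simpa [phi_apply, Ex] using this

lemma eval_eq_sum (k d D : ℕ) (f : MvPolynomial (Fin k × Fin d) ℝ) (hf : ∀ p, f.degreeOf p ≤ D)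
    (x : Fin k × Fin d → ℝ) :
    MvPolynomial.eval x f = ∑ a : Fin k → Fin ((D + 1) ^ d),
      f.coeff (phi k d D a) * ∏ l, ∏ s, x (l, s) ^ (Ex d D (a l) s) := by
  classical
  rw [MvPolynomial.eval_eq']
  have hsub : f.support ⊆ Finset.univ.image (phi k d D) := by
    intro s hs
    rw [Finset.mem_image]
    refine ⟨fun l => (enumE d D).symm (fun j => ⟨s (l, j), ?_⟩), Finset.mem_univ _, ?_⟩
    · exact Nat.lt_succ_of_le (le_trans (MvPolynomial.monomial_le_degreeOf (l, j) hs) (hf (l, j)))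
    · ext p
      rw [phi_apply]
      simp [Ex]
  rw [Finset.sum_subset hsub, Finset.sum_image (fun a _ b _ h => phi_inj k d D h)]
  · apply Finset.sum_congr rfl
    intro a _
    congr 1
    rw [Fintype.prod_prod_type]
    rfl
  · intro s _ hs
    rw [MvPolynomial.notMem_support_iff.1 hs, zero_mul]

/-- uniform statement on increasing tuples -/
theorem uniform (hA : AlgDepStmt) (hG : ∀ d M N k, GoodStmt d M N k 0) (d D k : ℕ) :
    ∃ A : ℕ, 1 ≤ A ∧ ∀ m : ℕ, 1 ≤ m → ∀ T : Finset ℕ, tw (6 * d + 12) (A * m) ≤ T.card →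
    ∀ (x : ℕ → Fin d → ℝ) (f : MvPolynomial (Fin k × Fin d) ℝ), (∀ p, f.degreeOf p ≤ D) →
    ∃ T' ⊆ T, m ≤ T'.card ∧
      ((∀ t, Inc k T' t → 0 ≤ MvPolynomial.eval (fun p : Fin k × Fin d => x (t p.1) p.2) f) ∨
       (∀ t, Inc k T' t → MvPolynomial.eval (fun p : Fin k × Fin d => x (t p.1) p.2) f < 0)) := by
  obtain ⟨M, hM⟩ := hA d D
  obtain ⟨R, B, A, -, hA1, h⟩ := hG d M ((D + 1) ^ d) k
  refine ⟨A, hA1, ?_⟩
  intro m hm T hT x f hf
  obtain ⟨T', hT', hm', hH⟩ := h m hm T (by simpa using hT)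
    (fun j i => ∏ s, x i s ^ (Ex d D j s))
    (hM x _ (Ex d D) (fun j s => Nat.lt_succ_iff.1 (enumE d D j s).2))
    (fun l => l.elim0) (fun l => l.elim0)
    (fun z hz => absurd (Subsingleton.elim z 0) hz) (fun a => f.coeff (phi k d D a))
  refine ⟨T', hT', hm', ?_⟩
  have key : ∀ t : Fin k → ℕ, MvPolynomial.eval (fun p : Fin k × Fin d => x (t p.1) p.2) f =
      ∑ a : Fin k → Fin ((D + 1) ^ d), f.coeff (phi k d D a) *
        ∏ l, ∏ s, x (t l) s ^ (Ex d D (a l) s) := fun t => eval_eq_sum k d D f hf _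
  rcases hH with h | h
  · left; intro t ht; rw [key t]; exact h t ht
  · right; intro t ht; rw [key t]; exact h t ht

theorem dominance_all : DominanceStmt := by
  have hD : DomStmt := by
    intro ι τ _ _ x κ h1 h2 h3 h4 _
    exact dom x κ h1 h2 h3 h4
  have hL : SemilinearStmt := fun N k q B => semilinear ramsey N k q B
  exact fun N k => dominance hD hL N k

theorem main_all : ∀ m, MainStmt m
  | 0 => main_zero window
  | (m + 1) => main_succ (chain interp) m
      (one_step window common interp m (main_all m))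

theorem uniformity (d D k : ℕ) :
    ∃ A : ℕ, 1 ≤ A ∧ ∀ m : ℕ, 1 ≤ m → ∀ T : Finset ℕ, tw (6 * d + 12) (A * m) ≤ T.card →
    ∀ (x : ℕ → Fin d → ℝ) (f : MvPolynomial (Fin k × Fin d) ℝ), (∀ p, f.degreeOf p ≤ D) →
    ∃ T' ⊆ T, m ≤ T'.card ∧
      ((∀ t, Inc k T' t → 0 ≤ MvPolynomial.eval (fun p : Fin k × Fin d => x (t p.1) p.2) f) ∨
       (∀ t, Inc k T' t → MvPolynomial.eval (fun p : Fin k × Fin d => x (t p.1) p.2) f < 0)) := by
  have hRd : RoundStmt := round main_all
  have hF : FinishStmt := finish dominance_all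
  exact uniform alg_dep (good_all (good_top hRd hF sort_types alg_gen)
    (good_step hRd hF sort_types (new_scale ramsey))) d D k

end Pool.Agent.Helper863.RAbs
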