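import Mathlib

namespace Pool.Agent.Helper863.RPolyCore

/-- tower of twos: `tw j x` is `2^(2^(...^x))` with `j` twos -/
def tw : ℕ → ℕ → ℕ
  | 0, x => x
  | (j+1), x => 2 ^ tw j x

/-- `t` is a strictly increasing `r`-tuple of elements of `T` -/
def Inc (r : ℕ) (T : Finset ℕ) (t : Fin r → ℕ) : Prop := StrictMono t ∧ ∀ i, t i ∈ T

lemma tw_mono (C : ℕ) : Monotone (tw C) := by
  induction C with
  | zero => exact fun a b h => h
  | succ j ih => exact fun a b h => Nat.pow_le_pow_right (by norm_num) (ih h)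

lemma tw_pos (C x : ℕ) (hx : 1 ≤ x) : 1 ≤ tw C x := by
  cases C with
  | zero => exact hx
  | succ j => exact Nat.one_le_two_pow

lemma mul_tw_le (C c x : ℕ) (hc : 1 ≤ c) (hx : 1 ≤ x) : c * tw C x ≤ tw C (c * x) := by
  induction C with
  | zero => exact le_rfl
  | succ j ih =>
    show c * 2 ^ tw j x ≤ 2 ^ tw j (c * x)
    have h1 : 2 ^ (c * tw j x) ≤ 2 ^ tw j (c * x) := Nat.pow_le_pow_right (by norm_num) ih
    refine le_trans ?_ h1
    have hy := tw_pos j x hx
    set y := tw j x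
    obtain ⟨c', rfl⟩ : ∃ c', c = c' + 1 := ⟨c - 1, by omega⟩
    have h2 : c' + 1 ≤ 2 ^ c' := by
      have := @Nat.lt_two_pow_self c'
      omega
    calc (c' + 1) * 2 ^ y ≤ 2 ^ c' * 2 ^ y := Nat.mul_le_mul_right _ h2
      _ = 2 ^ (c' + y) := by rw [pow_add]
      _ ≤ 2 ^ ((c' + 1) * y) := Nat.pow_le_pow_right (by norm_num) (by nlinarith)

lemma tw_tw (a b x : ℕ) : tw a (tw b x) = tw (a + b) x := by
  induction a with
  | zero => simp [tw]
  | succ j ih => rw [Nat.succ_add]; show 2 ^ tw j (tw b x) = 2 ^ tw (j + b) x; rw [ih]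

lemma Inc.mono {r : ℕ} {S T : Finset ℕ} (h : S ⊆ T) {t : Fin r → ℕ} (ht : Inc r S t) : Inc r T t :=
  ⟨ht.1, fun i => h (ht.2 i)⟩


/-- Ramsey's theorem for increasing `r`-tuples with a tower bound of height `2r` -/
def RamseyStmt : Prop := ∀ r q : ℕ, ∃ A : ℕ, 1 ≤ A ∧ ∀ m : ℕ, 1 ≤ m → ∀ S : Finset ℕ,
  tw (2 * r) (A * m) ≤ S.card → ∀ (κ : Type) [Fintype κ], Fintype.card κ ≤ q →
  ∀ c : (Fin r → ℕ) → κ, ∃ T ⊆ S, m ≤ T.card ∧ ∀ t t', Inc r T t → Inc r T t' → c t = c t'

/-- the differences `G b - G a` (`a < b`) are increasing on `S`, with jumps at least `B` -/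
def Spread (N : ℕ) (B : ℝ) (S : Finset ℕ) (G : Fin N → ℕ → ℝ) : Prop :=
  ∀ a b : Fin N, a < b → ∀ i ∈ S, ∀ j ∈ S, i < j → (G b i - G a i) + B ≤ G b j - G a j

section S1


/-- inductive step for `end_hom` -/
theorem end_hom_aux (κ : Type) [Fintype κ] (M : ℕ) (S : Finset ℕ)
    (hS : (2 * (Fintype.card κ) ^ (2 ^ M)) ^ M ≤ S.card) (c : Finset ℕ → κ) (j : ℕ) :
    j ≤ M → ∃ X Y : Finset ℕ, X ⊆ S ∧ Y ⊆ S ∧ X.card = j ∧ (∀ x ∈ X, ∀ y ∈ Y, x < y) ∧
      (2 * (Fintype.card κ) ^ (2 ^ M)) ^ (M - j) ≤ Y.card ∧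
      ∀ P ⊆ X, ∀ x ∈ X, (∀ p ∈ P, p < x) → ∀ y ∈ X ∪ Y, (∀ p ∈ P, p < y) →
        c (insert x P) = c (insert y P) := by
  classical
  induction j with
  | zero =>
    intro _
    refine ⟨∅, S, Finset.empty_subset _, subset_rfl, rfl, by simp, by simpa using hS, ?_⟩
    intro P _ x hx
    simp at hx
  | succ j ih =>
    intro hj
    obtain ⟨X, Y, hXS, hYS, hXc, hXY, hYc, hI⟩ := ih (by omega)
    have hκ : 0 < Fintype.card κ := Fintype.card_pos_iff.2 ⟨c ∅⟩
    set Q : ℕ := (Fintype.card κ) ^ (2 ^ M) with hQ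
    have hQpos : 0 < Q := by positivity
    let f : ℕ → ({P // P ∈ X.powerset} → κ) := fun y P => c (insert y P.1)
    have hcard : Fintype.card ({P // P ∈ X.powerset} → κ) ≤ Q := by
      rw [Fintype.card_fun, Fintype.card_coe, Finset.card_powerset, hXc, hQ]
      exact Nat.pow_le_pow_right hκ (Nat.pow_le_pow_right (by norm_num) (by omega))
    have hMj : M - j = (M - (j + 1)) + 1 := by omega
    have hpig : (Finset.univ : Finset ({P // P ∈ X.powerset} → κ)).card *
        (2 * (2 * Q) ^ (M - (j + 1))) ≤ Y.card := by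
      rw [Finset.card_univ]
      refine le_trans (Nat.mul_le_mul_right _ hcard) (le_trans (le_of_eq ?_) hYc)
      rw [hMj, pow_succ]; ring
    have hne : (Finset.univ : Finset ({P // P ∈ X.powerset} → κ)).Nonempty :=
      ⟨fun _ => c ∅, Finset.mem_univ _⟩
    obtain ⟨g, _, hg⟩ := Finset.exists_le_card_fiber_of_mul_le_card_of_maps_to
      (s := Y) (t := Finset.univ) (f := f) (fun a _ => Finset.mem_univ _) hne hpig
    set Y' := Y.filter (fun y => f y = g) with hY'
    have h1 : 1 ≤ (2 * Q) ^ (M - (j + 1)) := Nat.one_le_pow _ _ (by positivity)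
    have hY'ne : Y'.Nonempty := by
      rw [← Finset.card_pos]; omega
    set x := Y'.min' hY'ne with hx
    have hxY' : x ∈ Y' := Finset.min'_mem _ _
    have hxY : x ∈ Y := (Finset.mem_filter.1 hxY').1
    have hxX : x ∉ X := fun h => lt_irrefl _ (hXY x h x hxY)
    refine ⟨insert x X, Y'.erase x, ?_, ?_, ?_, ?_, ?_, ?_⟩
    · exact Finset.insert_subset (hYS hxY) hXS
    · exact (Finset.erase_subset _ _).trans ((Finset.filter_subset _ _).trans hYS)
    · rw [Finset.card_insert_of_notMem hxX, hXc]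
    · intro a ha b hb
      have hbY' : b ∈ Y' := Finset.mem_of_mem_erase hb
      rcases Finset.mem_insert.1 ha with rfl | ha
      · exact lt_of_le_of_ne (Finset.min'_le _ _ hbY') (Finset.ne_of_mem_erase hb).symm
      · exact hXY a ha b (Finset.mem_filter.1 hbY').1
    · rw [Finset.card_erase_of_mem hxY']; omega
    · intro P hP a ha hPa b hb hPb
      -- `x ∉ P`
      have hxP : x ∉ P := by
        intro hxP
        have h2 := hPa x hxP
        rcases Finset.mem_insert.1 ha with rfl | ha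
        · exact lt_irrefl _ h2
        · exact lt_asymm h2 (hXY a ha x hxY)
      have hPX : P ⊆ X := by
        intro p hp
        rcases Finset.mem_insert.1 (hP hp) with rfl | h
        · exact absurd hp hxP
        · exact h
      have hbb : b ∈ X ∨ b ∈ Y' := by
        rcases Finset.mem_union.1 hb with h | h
        · rcases Finset.mem_insert.1 h with rfl | h
          · exact Or.inr hxY'
          · exact Or.inl h
        · exact Or.inr (Finset.mem_of_mem_erase h)
      have haa : a ∈ X ∨ a ∈ Y' := by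
        rcases Finset.mem_insert.1 ha with rfl | h
        · exact Or.inr hxY'
        · exact Or.inl h
      have hsub : ∀ z, z ∈ Y' → z ∈ X ∪ Y := fun z hz =>
        Finset.mem_union_right _ (Finset.mem_filter.1 hz).1
      rcases haa with ha' | ha'
      · refine hI P hPX a ha' hPa b ?_ hPb
        rcases hbb with h | h
        · exact Finset.mem_union_left _ h
        · exact hsub b h
      · rcases hbb with h | h
        · exact (hI P hPX b h hPb a (hsub a ha') hPa).symm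
        · have e1 : f a = g := (Finset.mem_filter.1 ha').2
          have e2 : f b = g := (Finset.mem_filter.1 h).2
          have e3 := congrFun (e1.trans e2.symm) ⟨P, Finset.mem_powerset.2 hPX⟩
          exact e3

/-- TARGET 1: end-homogeneous subset -/
theorem end_hom (κ : Type) [Fintype κ] (M : ℕ) (S : Finset ℕ)
    (hS : (2 * (Fintype.card κ) ^ (2 ^ M)) ^ M ≤ S.card) (c : Finset ℕ → κ) :
    ∃ T ⊆ S, T.card = M ∧ ∀ P ⊆ T, ∀ y ∈ T, ∀ y' ∈ T,
      (∀ p ∈ P, p < y) → (∀ p ∈ P, p < y') → c (insert y P) = c (insert y' P) := by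
  obtain ⟨X, Y, hXS, _, hXc, _, _, hI⟩ := end_hom_aux κ M S hS c M le_rfl
  exact ⟨X, hXS, hXc, fun P hP y hy y' hy' h1 h2 =>
    hI P hP y hy h1 y' (Finset.mem_union_left _ hy') h2⟩

open Classical in
/-- TARGET 2 -/
theorem ramsey : RamseyStmt := by
  intro r
  induction r with
  | zero =>
    intro q
    refine ⟨1, le_rfl, fun m _ S hS κ _ _ c => ⟨S, subset_rfl, by simpa [tw] using hS, ?_⟩⟩
    intro t t' _ _
    congr 1
    exact Subsingleton.elim _ _
  | succ r ih =>
    intro q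
    obtain ⟨A, hA, ih⟩ := ih q
    refine ⟨(q + 4) * A, Nat.one_le_iff_ne_zero.2 (by positivity), ?_⟩
    intro m hm S hS κ _ hκ c
    set a : ℕ := tw (2 * r) (A * m) with ha
    have hAm : 1 ≤ A * m := Nat.one_le_iff_ne_zero.2 (by positivity)
    have ha1 : 1 ≤ a := tw_pos _ _ hAm
    set M : ℕ := a + 1 with hM
    -- size estimate
    have hsize : (2 * (Fintype.card κ) ^ (2 ^ M)) ^ M ≤ S.card := by
      refine le_trans ?_ hS
      have e0 : 2 * (r + 1) = (2 * r + 1) + 1 := by ring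
      rw [e0]
      show _ ≤ 2 ^ (2 ^ tw (2 * r) ((q + 4) * A * m))
      have h1 : q + 2 * M ≤ tw (2 * r) ((q + 4) * A * m) := by
        have h2 := mul_tw_le (2 * r) (q + 4) (A * m) (by omega) hAm
        rw [← ha] at h2
        rw [mul_assoc (q + 4) A m]
        refine le_trans ?_ h2
        rw [hM]; nlinarith
      have h3 : (2 * (Fintype.card κ) ^ (2 ^ M)) ^ M ≤ 2 ^ ((1 + q * 2 ^ M) * M) := by
        have h4 : Fintype.card κ ≤ 2 ^ q := hκ.trans (Nat.lt_two_pow_self).le
        have h5 : (Fintype.card κ) ^ (2 ^ M) ≤ 2 ^ (q * 2 ^ M) := by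
          rw [pow_mul]
          exact Nat.pow_le_pow_left h4 _
        have h6 : 2 * (Fintype.card κ) ^ (2 ^ M) ≤ 2 ^ (1 + q * 2 ^ M) := by
          rw [pow_add 2 1 (q * 2 ^ M), pow_one]
          exact Nat.mul_le_mul_left _ h5
        rw [pow_mul]
        exact Nat.pow_le_pow_left h6 _
      refine h3.trans (Nat.pow_le_pow_right (by norm_num) ?_)
      have h7 : 1 + q * 2 ^ M ≤ (q + 1) * 2 ^ M := by
        have : 1 ≤ 2 ^ M := Nat.one_le_two_pow
        nlinarith
      have h8 : q + 1 ≤ 2 ^ q := Nat.lt_two_pow_self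
      have h9 : M ≤ 2 ^ M := (Nat.lt_two_pow_self).le
      calc (1 + q * 2 ^ M) * M ≤ (2 ^ q * 2 ^ M) * 2 ^ M :=
            Nat.mul_le_mul (h7.trans (Nat.mul_le_mul_right _ h8)) h9
        _ = 2 ^ (q + 2 * M) := by rw [← pow_add, ← pow_add]; congr 1; ring
        _ ≤ 2 ^ tw (2 * r) ((q + 4) * A * m) := Nat.pow_le_pow_right (by norm_num) h1
    let c0 : Finset ℕ → κ := fun Q =>
      if h : Q.card = r + 1 then c (Q.orderEmbOfFin h) else c (fun _ => 0)
    have hc0 : ∀ t : Fin (r + 1) → ℕ, StrictMono t → c0 (Finset.univ.image t) = c t := by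
      intro t ht
      have h1 : (Finset.univ.image t).card = r + 1 := by
        rw [Finset.card_image_of_injective _ ht.injective, Finset.card_univ, Fintype.card_fin]
      have h2 : t = (Finset.univ.image t).orderEmbOfFin h1 :=
        Finset.orderEmbOfFin_unique h1 (fun x => Finset.mem_image_of_mem _ (Finset.mem_univ _)) ht
      simp only [c0, dif_pos h1]
      rw [← h2]
    obtain ⟨T₀, hT₀S, hT₀c, hend⟩ := end_hom κ M S hsize c0
    have hT₀ne : T₀.Nonempty := by
      rw [← Finset.card_pos]; omega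
    set y₀ := T₀.max' hT₀ne with hy₀
    have hy₀T : y₀ ∈ T₀ := Finset.max'_mem _ _
    have hT₁c : tw (2 * r) (A * m) ≤ (T₀.erase y₀).card := by
      rw [Finset.card_erase_of_mem hy₀T]; omega
    obtain ⟨T, hTT, hTm, hT⟩ := ih m hm (T₀.erase y₀) hT₁c κ hκ
      (fun t => c0 (insert y₀ (Finset.univ.image t)))
    have hTT₀ : T ⊆ T₀ := hTT.trans (Finset.erase_subset _ _)
    refine ⟨T, hTT₀.trans hT₀S, hTm, ?_⟩
    have key : ∀ t : Fin (r + 1) → ℕ, Inc (r + 1) T t →
        c t = c0 (insert y₀ (Finset.univ.image (fun i : Fin r => t i.castSucc))) ∧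
        Inc r T (fun i : Fin r => t i.castSucc) := by
      intro t ht
      have hinc : Inc r T (fun i : Fin r => t i.castSucc) :=
        ⟨fun i j hij => ht.1 (Fin.castSucc_lt_castSucc_iff.2 hij), fun i => ht.2 _⟩
      refine ⟨?_, hinc⟩
      rw [← hc0 t ht.1]
      have e1 : Finset.univ.image t =
          insert (t (Fin.last r)) (Finset.univ.image (fun i : Fin r => t i.castSucc)) := by
        ext z
        simp only [Finset.mem_image, Finset.mem_univ, true_and, Finset.mem_insert]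
        constructor
        · rintro ⟨i, rfl⟩
          rcases Fin.eq_castSucc_or_eq_last i with ⟨k, rfl⟩ | rfl
          · exact Or.inr ⟨k, rfl⟩
          · exact Or.inl rfl
        · rintro (rfl | ⟨k, rfl⟩)
          · exact ⟨_, rfl⟩
          · exact ⟨_, rfl⟩
      rw [e1]
      have hPT : Finset.univ.image (fun i : Fin r => t i.castSucc) ⊆ T := by
        intro z hz
        obtain ⟨i, _, rfl⟩ := Finset.mem_image.1 hz
        exact ht.2 _
      refine hend _ (hPT.trans hTT₀) _ (hTT₀ (ht.2 _)) _ hy₀T ?_ ?_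
      · intro p hp
        obtain ⟨i, _, rfl⟩ := Finset.mem_image.1 hp
        exact ht.1 (Fin.castSucc_lt_last i)
      · intro p hp
        have h1 := hTT (hPT hp)
        exact lt_of_le_of_ne (Finset.le_max' _ _ (Finset.mem_of_mem_erase h1))
          (Finset.ne_of_mem_erase h1)
    intro t t' ht ht'
    rw [(key t ht).1, (key t' ht').1]
    exact hT _ _ (key t ht).2 (key t' ht').2


end S1

section S2


/-- TARGET 1: one member of a finite family dominates -/
theorem dom {ι τ : Type} [Fintype ι] [DecidableEq ι] (x : ι → τ → ℝ) (κ : ℝ)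
    (hκ : 2 * (Fintype.card ι : ℝ) + 2 ≤ κ)
    (hcmp : ∀ l l', l ≠ l' → (∀ t, κ * |x l t| ≤ |x l' t|) ∨ (∀ t, κ * |x l' t| ≤ |x l t|))
    (hsgn : ∀ l, (∀ t, 0 ≤ x l t) ∨ (∀ t, x l t ≤ 0)) (hpos : ∀ t, ∃ l, 0 < |x l t|) [Nonempty ι] :
    ∃ L : ι, (∀ t, ∀ l, |x l t| ≤ |x L t|) ∧
      ((∀ t, |x L t| / 2 ≤ ∑ l, x l t) ∨ (∀ t, ∑ l, x l t ≤ -(|x L t| / 2))) := by
  rcases isEmpty_or_nonempty τ with hτ | ⟨⟨t0⟩⟩
  · exact ⟨Classical.arbitrary ι, fun t => hτ.elim t, Or.inl fun t => hτ.elim t⟩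
  have hκ2 : 2 ≤ κ := by
    have : (0 : ℝ) ≤ Fintype.card ι := Nat.cast_nonneg _
    linarith
  have hκ0 : 0 < κ := by linarith
  obtain ⟨L, -, hL⟩ := Finset.exists_max_image Finset.univ (fun l => |x l t0|)
    Finset.univ_nonempty
  have hL0 : 0 < |x L t0| := by
    obtain ⟨l, hl⟩ := hpos t0
    exact hl.trans_le (hL l (Finset.mem_univ l))
  have hdom : ∀ l, l ≠ L → ∀ t, κ * |x l t| ≤ |x L t| := by
    intro l hl
    rcases hcmp L l (Ne.symm hl) with h | h
    · exfalso
      have h1 := h t0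
      have h2 := hL l (Finset.mem_univ l)
      nlinarith
    · exact h
  have hrest : ∀ t, |∑ l ∈ Finset.univ.erase L, x l t| ≤ |x L t| / 2 := by
    intro t
    calc |∑ l ∈ Finset.univ.erase L, x l t| ≤ ∑ l ∈ Finset.univ.erase L, |x l t| :=
          Finset.abs_sum_le_sum_abs _ _
      _ ≤ ∑ l ∈ Finset.univ.erase L, |x L t| / κ := by
          refine Finset.sum_le_sum fun l hl => ?_
          rw [le_div_iff₀ hκ0, mul_comm]
          exact hdom l (Finset.ne_of_mem_erase hl) t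
      _ ≤ ∑ l : ι, |x L t| / κ :=
          Finset.sum_le_sum_of_subset_of_nonneg (Finset.erase_subset _ _) fun _ _ _ =>
            div_nonneg (abs_nonneg _) hκ0.le
      _ = (Fintype.card ι : ℝ) * (|x L t| / κ) := by
          rw [Finset.sum_const, Finset.card_univ, nsmul_eq_mul]
      _ ≤ |x L t| / 2 := by
          rw [← mul_div_assoc, div_le_div_iff₀ hκ0 two_pos]
          have h1 : 0 ≤ |x L t| := abs_nonneg _
          nlinarith
  have hsum : ∀ t, ∑ l, x l t = x L t + ∑ l ∈ Finset.univ.erase L, x l t := fun t =>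
    (Finset.add_sum_erase _ _ (Finset.mem_univ L)).symm
  refine ⟨L, fun t l => ?_, ?_⟩
  · by_cases hl : l = L
    · rw [hl]
    · have h1 := hdom l hl t
      have h2 : 0 ≤ |x l t| := abs_nonneg _
      nlinarith
  · rcases hsgn L with h | h
    · left
      intro t
      have h1 := (abs_le.1 (hrest t)).1
      rw [hsum t]
      have h2 := abs_of_nonneg (h t)
      rw [h2] at h1 ⊢
      linarith
    · right
      intro t
      have h1 := (abs_le.1 (hrest t)).2
      rw [hsum t]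
      have h2 := abs_of_nonpos (h t)
      rw [h2] at h1 ⊢
      linarith

lemma sl_chain1 (f : ℕ → ℝ) (T : Finset ℕ) : T.Nonempty →
    (∀ i ∈ T, ∀ j ∈ T, i < j → 2 * f i ≤ f j) →
    ∃ a ∈ T, ∃ b ∈ T, (∀ i ∈ T, i ≤ b) ∧ 2 ^ (T.card - 1) * f a ≤ f b := by
  induction T using Finset.induction_on_max with
  | empty => intro h; exact absurd h Finset.not_nonempty_empty
  | insert c T hc ih =>
    intro _ h
    rcases T.eq_empty_or_nonempty with rfl | hne
    · exact ⟨c, by simp, c, by simp, by simp, by simp⟩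
    · obtain ⟨a, ha, b, hb, hmax, hab⟩ := ih hne fun i hi j hj hij =>
        h i (Finset.mem_insert_of_mem hi) j (Finset.mem_insert_of_mem hj) hij
      refine ⟨a, Finset.mem_insert_of_mem ha, c, Finset.mem_insert_self _ _, ?_, ?_⟩
      · intro i hi
        rcases Finset.mem_insert.1 hi with rfl | hi
        · exact le_rfl
        · exact (hc i hi).le
      · have hcT : c ∉ T := fun h' => lt_irrefl _ (hc c h')
        rw [Finset.card_insert_of_notMem hcT, Nat.add_sub_cancel]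
        have h1 := h b (Finset.mem_insert_of_mem hb) c (Finset.mem_insert_self _ _) (hc b hb)
        have h2 : T.card = (T.card - 1) + 1 := by
          have := Finset.card_pos.2 hne
          omega
        rw [h2, pow_succ]
        calc (2 : ℝ) ^ (T.card - 1) * 2 * f a = 2 * (2 ^ (T.card - 1) * f a) := by ring
          _ ≤ 2 * f b := by linarith
          _ ≤ f c := h1

lemma sl_chain2 (f : ℕ → ℝ) (T : Finset ℕ) : T.Nonempty →
    (∀ i ∈ T, ∀ j ∈ T, i < j → 2 * f j ≤ f i) →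
    ∃ a ∈ T, ∃ b ∈ T, (∀ i ∈ T, i ≤ a) ∧ 2 ^ (T.card - 1) * f a ≤ f b := by
  induction T using Finset.induction_on_max with
  | empty => intro h; exact absurd h Finset.not_nonempty_empty
  | insert c T hc ih =>
    intro _ h
    rcases T.eq_empty_or_nonempty with rfl | hne
    · exact ⟨c, by simp, c, by simp, by simp, by simp⟩
    · obtain ⟨a, ha, b, hb, hmax, hab⟩ := ih hne fun i hi j hj hij =>
        h i (Finset.mem_insert_of_mem hi) j (Finset.mem_insert_of_mem hj) hij
      refine ⟨c, Finset.mem_insert_self _ _, b, Finset.mem_insert_of_mem hb, ?_, ?_⟩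
      · intro i hi
        rcases Finset.mem_insert.1 hi with rfl | hi
        · exact le_rfl
        · exact (hc i hi).le
      · have hcT : c ∉ T := fun h' => lt_irrefl _ (hc c h')
        rw [Finset.card_insert_of_notMem hcT, Nat.add_sub_cancel]
        have h1 := h a (Finset.mem_insert_of_mem ha) c (Finset.mem_insert_self _ _) (hc a ha)
        have h2 : T.card = (T.card - 1) + 1 := by
          have := Finset.card_pos.2 hne
          omega
        rw [h2, pow_succ]
        calc (2 : ℝ) ^ (T.card - 1) * 2 * f c = 2 ^ (T.card - 1) * (2 * f c) := by ring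
          _ ≤ 2 ^ (T.card - 1) * f a := mul_le_mul_of_nonneg_left h1 (by positivity)
          _ ≤ f b := hab

/-- a lacunary function cannot stay comparable to a constant on a large set -/
lemma sl_squeeze (f : ℕ → ℝ) (T : Finset ℕ) (κ F : ℝ) (r0 : ℕ) (hκ : 0 < κ) (hr : κ ^ 2 ≤ 2 ^ r0)
    (hT : r0 + 1 ≤ T.card) (hpos : ∀ i ∈ T, 0 < f i)
    (h : (∀ i ∈ T, ∀ j ∈ T, i < j → 2 * f i ≤ f j) ∨ (∀ i ∈ T, ∀ j ∈ T, i < j → 2 * f j ≤ f i))
    (h1 : ∀ i ∈ T, f i < κ * F) (h2 : ∀ i ∈ T, F < κ * f i) : False := by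
  have hne : T.Nonempty := Finset.card_pos.1 (by omega)
  have hex : ∃ a ∈ T, ∃ b ∈ T, 2 ^ (T.card - 1) * f a ≤ f b := by
    rcases h with h | h
    · obtain ⟨a, ha, b, hb, -, hab⟩ := sl_chain1 f T hne h
      exact ⟨a, ha, b, hb, hab⟩
    · obtain ⟨a, ha, b, hb, -, hab⟩ := sl_chain2 f T hne h
      exact ⟨a, ha, b, hb, hab⟩
  obtain ⟨a, ha, b, hb, hab⟩ := hex
  have h3 : (2 : ℝ) ^ r0 ≤ 2 ^ (T.card - 1) := pow_le_pow_right₀ (by norm_num) (by omega)
  have h4 := hpos a ha
  have h5 : κ ^ 2 * f a ≤ f b := (mul_le_mul_of_nonneg_right (hr.trans h3) h4.le).trans hab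
  have h6 := h1 b hb
  have h7 := h2 a ha
  have h8 : κ * F < κ * (κ * f a) := mul_lt_mul_of_pos_left h7 hκ
  nlinarith

lemma sl_centre_inc (D : ℕ → ℝ) (B0 : ℝ) (hB : 0 < B0) (T T' : Finset ℕ) (lo hi : ℕ)
    (hlo : lo ∈ T) (hhi : hi ∈ T) (hT' : ∀ i ∈ T', i ∈ T ∧ lo < i ∧ i < hi)
    (hD : ∀ i ∈ T, ∀ j ∈ T, i < j → D i + B0 ≤ D j)
    (h3 : (∀ x ∈ T, ∀ y ∈ T, ∀ z ∈ T, x < y → y < z → |D y - D x| ≤ |D z - D y|) ∨
      (∀ x ∈ T, ∀ y ∈ T, ∀ z ∈ T, x < y → y < z → ¬ |D y - D x| ≤ |D z - D y|)) :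
    ∃ c : ℝ, ((∀ i ∈ T', B0 ≤ D i - c) ∨ (∀ i ∈ T', D i - c ≤ -B0)) ∧
      ((∀ i ∈ T', ∀ j ∈ T', i < j → 2 * |D i - c| ≤ |D j - c|) ∨
       (∀ i ∈ T', ∀ j ∈ T', i < j → 2 * |D j - c| ≤ |D i - c|)) := by
  rcases h3 with h3 | h3
  · refine ⟨D lo, Or.inl fun i hi' => ?_, Or.inl fun i hi' j hj hij => ?_⟩
    · have := hD lo hlo i (hT' i hi').1 (hT' i hi').2.1
      linarith
    · have e1 := hD lo hlo i (hT' i hi').1 (hT' i hi').2.1
      have e2 := hD i (hT' i hi').1 j (hT' j hj).1 hij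
      have e3 := h3 lo hlo i (hT' i hi').1 j (hT' j hj).1 (hT' i hi').2.1 hij
      rw [abs_of_pos (by linarith), abs_of_pos (by linarith)] at e3
      rw [abs_of_pos (by linarith), abs_of_pos (by linarith)]
      linarith
  · refine ⟨D hi, Or.inr fun i hi' => ?_, Or.inr fun i hi' j hj hij => ?_⟩
    · have := hD i (hT' i hi').1 hi hhi (hT' i hi').2.2
      linarith
    · have e1 := hD j (hT' j hj).1 hi hhi (hT' j hj).2.2
      have e2 := hD i (hT' i hi').1 j (hT' j hj).1 hij
      have e3 := h3 i (hT' i hi').1 j (hT' j hj).1 hi hhi hij (hT' j hj).2.2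
      rw [abs_of_pos (by linarith), abs_of_pos (by linarith)] at e3
      rw [abs_of_neg (by linarith), abs_of_neg (by linarith)]
      push Not at e3
      linarith

lemma sl_centre (D : ℕ → ℝ) (B0 : ℝ) (hB : 0 < B0) (T T' : Finset ℕ) (lo hi : ℕ)
    (hlo : lo ∈ T) (hhi : hi ∈ T) (hT' : ∀ i ∈ T', i ∈ T ∧ lo < i ∧ i < hi)
    (hD : (∀ i ∈ T, ∀ j ∈ T, i < j → D i + B0 ≤ D j) ∨
      (∀ i ∈ T, ∀ j ∈ T, i < j → D j + B0 ≤ D i))
    (h3 : (∀ x ∈ T, ∀ y ∈ T, ∀ z ∈ T, x < y → y < z → |D y - D x| ≤ |D z - D y|) ∨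
      (∀ x ∈ T, ∀ y ∈ T, ∀ z ∈ T, x < y → y < z → ¬ |D y - D x| ≤ |D z - D y|)) :
    ∃ c : ℝ, ((∀ i ∈ T', B0 ≤ D i - c) ∨ (∀ i ∈ T', D i - c ≤ -B0)) ∧
      ((∀ i ∈ T', ∀ j ∈ T', i < j → 2 * |D i - c| ≤ |D j - c|) ∨
       (∀ i ∈ T', ∀ j ∈ T', i < j → 2 * |D j - c| ≤ |D i - c|)) := by
  rcases hD with hD | hD
  · exact sl_centre_inc D B0 hB T T' lo hi hlo hhi hT' hD h3
  · have hab : ∀ a b : ℝ, |(-a) - (-b)| = |a - b| := by
      intro a b
      rw [← abs_neg]
      congr 1
      ring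
    obtain ⟨c, h1, h2⟩ := sl_centre_inc (fun i => - D i) B0 hB T T' lo hi hlo hhi hT'
      (fun i hi' j hj hij => by have := hD i hi' j hj hij; linarith)
      (by simpa only [hab] using h3)
    refine ⟨-c, ?_, ?_⟩
    · rcases h1 with h1 | h1
      · right
        intro i hi'
        have := h1 i hi'
        linarith
      · left
        intro i hi'
        have := h1 i hi'
        linarith
    · have hab2 : ∀ i, |(- D i) - c| = |D i - (-c)| := by
        intro i
        rw [← abs_neg]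
        congr 1
        ring
      simpa only [hab2] using h2

lemma sl_ramsey (hR : RamseyStmt) (r n : ℕ) : ∃ A : ℕ, 1 ≤ A ∧ ∀ m : ℕ, 1 ≤ m →
    ∀ S : Finset ℕ, tw (2 * r) (A * m) ≤ S.card → ∀ (X : Type) [Fintype X],
    Fintype.card X ≤ n → ∀ R : X → (Fin r → ℕ) → Prop, ∃ T ⊆ S, m ≤ T.card ∧
      ∀ x, (∀ t, Inc r T t → R x t) ∨ (∀ t, Inc r T t → ¬ R x t) := by
  obtain ⟨A, hA, h⟩ := hR r (2 ^ n)
  refine ⟨A, hA, fun m hm S hS X _ hX R => ?_⟩
  classical
  obtain ⟨T, hTS, hTm, hc⟩ := h m hm S hS (X → Prop) (by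
    rw [Fintype.card_fun, Fintype.card_prop]
    exact Nat.pow_le_pow_right (by norm_num) hX) (fun t x => R x t)
  refine ⟨T, hTS, hTm, fun x => ?_⟩
  by_cases hx : ∃ t, Inc r T t ∧ R x t
  · left
    obtain ⟨t, ht, htR⟩ := hx
    intro t' ht'
    have h1 : R x t = R x t' := congrFun (hc t t' ht ht') x
    rw [← h1]
    exact htR
  · right
    intro t ht htR
    exact hx ⟨t, ht, htR⟩

lemma sl_inc2 {T : Finset ℕ} {i j : ℕ} (hi : i ∈ T) (hj : j ∈ T) (hij : i < j) :
    Inc 2 T ![i, j] := by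
  refine ⟨?_, ?_⟩
  · intro a b hab
    fin_cases a <;> fin_cases b <;> simp_all
  · intro a
    fin_cases a
    · exact hi
    · exact hj

lemma sl_inc3 {T : Finset ℕ} {x y z : ℕ} (hx : x ∈ T) (hy : y ∈ T) (hz : z ∈ T) (hxy : x < y)
    (hyz : y < z) : Inc 3 T ![x, y, z] := by
  have hxz := hxy.trans hyz
  refine ⟨?_, ?_⟩
  · intro a b hab
    fin_cases a <;> fin_cases b <;> simp_all
  · intro a
    fin_cases a
    · exact hx
    · exact hy
    · exact hz

lemma sl_tw_le (a b x : ℕ) (hab : a ≤ b) : tw a x ≤ tw b x := by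
  induction b, hab using Nat.le_induction with
  | base => exact le_rfl
  | succ b _ ih => exact ih.trans (Nat.lt_two_pow_self).le

/-- the combinatorial core: centres and comparisons -/
lemma sl_core (hR : RamseyStmt) (N k q : ℕ) (κ : ℝ) (hκ : 0 < κ) : ∃ A : ℕ, 1 ≤ A ∧
    ∀ B0 : ℝ, 0 < B0 →
    ∀ m : ℕ, 1 ≤ m → ∀ S : Finset ℕ, tw 12 (A * m) ≤ S.card →
    ∀ G : Fin N → ℕ → ℝ, Spread N B0 S G →
    ∀ (ι : Type) [Fintype ι], Fintype.card ι ≤ q → ∀ Γ : ι → ℝ,
    ∃ T ⊆ S, m ≤ T.card ∧ ∃ zc : Fin N × Fin N → ℝ,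
      (∀ p : Fin N × Fin N, p.1 ≠ p.2 → (∀ i ∈ T, B0 ≤ (G p.1 i - G p.2 i) - zc p) ∨
        (∀ i ∈ T, (G p.1 i - G p.2 i) - zc p ≤ -B0)) ∧
      (∀ u w : Fin N × Fin N, u.1 ≠ u.2 → w.1 ≠ w.2 →
        (∀ i ∈ T, ∀ j ∈ T, i < j → κ * |(G u.1 i - G u.2 i) - zc u| ≤
          |(G w.1 j - G w.2 j) - zc w|) ∨
        (∀ i ∈ T, ∀ j ∈ T, i < j → κ * |(G w.1 j - G w.2 j) - zc w| ≤
          |(G u.1 i - G u.2 i) - zc u|)) ∧
      (∀ (γ : ι) (a b : Fin k → Fin N) (u : Fin N × Fin N), u.1 ≠ u.2 →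
        (∀ i ∈ T, κ * |Γ γ + ∑ l, (if a l = b l then 0 else zc (a l, b l))| ≤
          |(G u.1 i - G u.2 i) - zc u|) ∨
        (∀ i ∈ T, κ * |(G u.1 i - G u.2 i) - zc u| ≤
          |Γ γ + ∑ l, (if a l = b l then 0 else zc (a l, b l))|)) := by
  classical
  obtain ⟨r0, hr0⟩ : ∃ r0 : ℕ, κ ^ 2 ≤ 2 ^ r0 := by
    obtain ⟨n, hn⟩ := pow_unbounded_of_one_lt (κ ^ 2) (one_lt_two (α := ℝ))
    exact ⟨n, hn.le⟩
  obtain ⟨A1, hA1, h1⟩ := sl_ramsey hR 3 (Fintype.card (Fin N × Fin N))
  obtain ⟨A2, hA2, h2⟩ := sl_ramsey hR 2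
    (Fintype.card ((Fin N × Fin N) × (Fin N × Fin N) × Bool) +
      q * Fintype.card ((Fin k → Fin N) × (Fin k → Fin N) × (Fin N × Fin N) × Bool))
  refine ⟨(A1 * 3) * (A2 * (r0 + 3)), by nlinarith [Nat.mul_pos hA1 hA2], ?_⟩
  intro B0 hB0 m hm S hS G hG ι _ hι Γ
  set t4 := tw 4 (A2 * ((r0 + 3) * m)) with ht4
  have hpos4 : 1 ≤ A2 * ((r0 + 3) * m) := Nat.mul_pos hA2 (Nat.mul_pos (by omega) hm)
  have ht41 : 1 ≤ t4 := tw_pos 4 _ hpos4
  have hS' : tw (2 * 3) (A1 * (3 * t4)) ≤ S.card := by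
    refine le_trans ?_ hS
    have e1 : A1 * (3 * t4) ≤ tw 4 ((A1 * 3) * (A2 * ((r0 + 3) * m))) := by
      rw [← mul_assoc]
      exact mul_tw_le 4 (A1 * 3) _ (by omega) hpos4
    have e2 : (A1 * 3) * (A2 * ((r0 + 3) * m)) = (A1 * 3) * (A2 * (r0 + 3)) * m := by ring
    rw [e2] at e1
    calc tw (2 * 3) (A1 * (3 * t4)) ≤ tw (2 * 3) (tw 4 ((A1 * 3) * (A2 * (r0 + 3)) * m)) :=
          tw_mono (2 * 3) e1
      _ = tw (2 * 3 + 4) ((A1 * 3) * (A2 * (r0 + 3)) * m) := tw_tw _ _ _
      _ ≤ tw 12 ((A1 * 3) * (A2 * (r0 + 3)) * m) := sl_tw_le _ _ _ (by norm_num)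
  obtain ⟨T1, hT1S, hT1m, hT1⟩ := h1 (3 * t4) (by omega) S hS' (Fin N × Fin N) le_rfl
    (fun p t => |(G p.1 (t 1) - G p.2 (t 1)) - (G p.1 (t 0) - G p.2 (t 0))| ≤
      |(G p.1 (t 2) - G p.2 (t 2)) - (G p.1 (t 1) - G p.2 (t 1))|)
  have hT1ne : T1.Nonempty := Finset.card_pos.1 (by omega)
  set lo := T1.min' hT1ne with hlo
  set hi := T1.max' hT1ne with hhi
  have hloT : lo ∈ T1 := Finset.min'_mem _ _
  have hhiT : hi ∈ T1 := Finset.max'_mem _ _
  let T1' : Finset ℕ := (T1.erase lo).erase hi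
  have hT1' : ∀ i ∈ T1', i ∈ T1 ∧ lo < i ∧ i < hi := by
    intro i hi'
    have e1 := Finset.mem_erase.1 hi'
    have e2 := Finset.mem_erase.1 e1.2
    exact ⟨e2.2, lt_of_le_of_ne (Finset.min'_le _ _ e2.2) (Ne.symm e2.1),
      lt_of_le_of_ne (Finset.le_max' _ _ e2.2) e1.1⟩
  have hT1'c : t4 ≤ T1'.card := by
    have e1 : (T1.erase lo).card - 1 ≤ T1'.card := Finset.pred_card_le_card_erase
    have e2 : T1.card - 1 ≤ (T1.erase lo).card := Finset.pred_card_le_card_erase
    omega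
  have hzc : ∀ p : Fin N × Fin N, ∃ c : ℝ, p.1 ≠ p.2 →
      ((∀ i ∈ T1', B0 ≤ (G p.1 i - G p.2 i) - c) ∨ (∀ i ∈ T1', (G p.1 i - G p.2 i) - c ≤ -B0)) ∧
      ((∀ i ∈ T1', ∀ j ∈ T1', i < j →
          2 * |(G p.1 i - G p.2 i) - c| ≤ |(G p.1 j - G p.2 j) - c|) ∨
       (∀ i ∈ T1', ∀ j ∈ T1', i < j →
          2 * |(G p.1 j - G p.2 j) - c| ≤ |(G p.1 i - G p.2 i) - c|)) := by
    intro p
    by_cases hp : p.1 = p.2
    · exact ⟨0, fun h => absurd hp h⟩
    · have hD : (∀ i ∈ T1, ∀ j ∈ T1, i < j →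
            (G p.1 i - G p.2 i) + B0 ≤ (G p.1 j - G p.2 j)) ∨
          (∀ i ∈ T1, ∀ j ∈ T1, i < j → (G p.1 j - G p.2 j) + B0 ≤ (G p.1 i - G p.2 i)) := by
        rcases lt_or_gt_of_ne hp with h | h
        · right
          intro i hi' j hj hij
          have := hG p.1 p.2 h i (hT1S hi') j (hT1S hj) hij
          linarith
        · left
          intro i hi' j hj hij
          have := hG p.2 p.1 h i (hT1S hi') j (hT1S hj) hij
          linarith
      obtain ⟨c, hc⟩ := sl_centre (fun i => G p.1 i - G p.2 i) B0 hB0 T1 T1' lo hi hloT hhiT hT1'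
        hD (by
          rcases hT1 p with h | h
          · left
            intro x hx y hy z hz hxy hyz
            exact h _ (sl_inc3 hx hy hz hxy hyz)
          · right
            intro x hx y hy z hz hxy hyz
            exact h _ (sl_inc3 hx hy hz hxy hyz))
      exact ⟨c, fun _ => hc⟩
  choose zc hzc using hzc
  obtain ⟨T2, hT2S, hT2m, hT2⟩ := h2 ((r0 + 3) * m) (Nat.mul_pos (by omega) hm) T1' hT1'c
    (((Fin N × Fin N) × (Fin N × Fin N) × Bool) ⊕
      (ι × (Fin k → Fin N) × (Fin k → Fin N) × (Fin N × Fin N) × Bool))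
    (by
      rw [Fintype.card_sum, Fintype.card_prod ι]
      exact Nat.add_le_add_left (Nat.mul_le_mul_right _ hι) _)
    (fun x t => match x with
      | Sum.inl (u, w, true) => κ * |(G u.1 (t 0) - G u.2 (t 0)) - zc u| ≤
          |(G w.1 (t 1) - G w.2 (t 1)) - zc w|
      | Sum.inl (u, w, false) => κ * |(G w.1 (t 1) - G w.2 (t 1)) - zc w| ≤
          |(G u.1 (t 0) - G u.2 (t 0)) - zc u|
      | Sum.inr (γ, a, b, u, true) =>
          κ * |Γ γ + ∑ l, (if a l = b l then 0 else zc (a l, b l))| ≤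
          |(G u.1 (t 0) - G u.2 (t 0)) - zc u|
      | Sum.inr (γ, a, b, u, false) => κ * |(G u.1 (t 0) - G u.2 (t 0)) - zc u| ≤
          |Γ γ + ∑ l, (if a l = b l then 0 else zc (a l, b l))|)
  have hcard2 : r0 + 3 ≤ T2.card := le_trans (Nat.le_mul_of_pos_right _ hm) hT2m
  have hT2ne : T2.Nonempty := Finset.card_pos.1 (by omega)
  have hT2T : ∀ i ∈ T2, i ∈ T1' := fun i hi' => hT2S hi'
  set mx := T2.max' hT2ne with hmx
  have hmxT : mx ∈ T2 := Finset.max'_mem _ _
  set mn := T2.min' hT2ne with hmn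
  have hmnT : mn ∈ T2 := Finset.min'_mem _ _
  have hlpos : ∀ p : Fin N × Fin N, p.1 ≠ p.2 → ∀ i ∈ T1', 0 < |(G p.1 i - G p.2 i) - zc p| := by
    intro p hp i hi'
    rcases (hzc p hp).1 with h | h
    · have := h i hi'
      rw [abs_of_pos (by linarith)]
      linarith
    · have := h i hi'
      rw [abs_of_neg (by linarith)]
      linarith
  have hsub : ∀ i ∈ T2.erase mx, i ∈ T2 := fun i hi' => Finset.mem_of_mem_erase hi'
  refine ⟨T2.erase mx, fun i hi' => hT1S (hT1' i (hT2T i (hsub i hi'))).1, ?_, zc, ?_, ?_, ?_⟩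
  · have e1 : T2.card - 1 ≤ (T2.erase mx).card := Finset.pred_card_le_card_erase
    have e2 : 3 * m ≤ (r0 + 3) * m := Nat.mul_le_mul_right _ (by omega)
    omega
  · intro p hp
    rcases (hzc p hp).1 with h | h
    · left
      exact fun i hi' => h i (hT2T i (hsub i hi'))
    · right
      exact fun i hi' => h i (hT2T i (hsub i hi'))
  · intro u w hu hw
    have ha := hT2 (Sum.inl (u, w, true))
    have hb := hT2 (Sum.inl (u, w, false))
    rcases ha with ha | ha
    · left
      intro i hi' j hj hij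
      exact ha _ (sl_inc2 (hsub i hi') (hsub j hj) hij)
    rcases hb with hb | hb
    · right
      intro i hi' j hj hij
      exact hb _ (sl_inc2 (hsub i hi') (hsub j hj) hij)
    exfalso
    have hlt : ∀ i ∈ T2.erase mn, mn < i := fun i hi' =>
      lt_of_le_of_ne (Finset.min'_le _ _ (Finset.mem_of_mem_erase hi'))
        (Ne.symm (Finset.ne_of_mem_erase hi'))
    refine sl_squeeze (fun i => |(G w.1 i - G w.2 i) - zc w|) (T2.erase mn) κ
      (|(G u.1 mn - G u.2 mn) - zc u|) r0 hκ hr0 ?_ ?_ ?_ ?_ ?_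
    · have e1 : T2.card - 1 ≤ (T2.erase mn).card := Finset.pred_card_le_card_erase
      omega
    · exact fun i hi' => hlpos w hw i (hT2T i (Finset.mem_of_mem_erase hi'))
    · rcases (hzc w hw).2 with h | h
      · left
        exact fun i hi' j hj hij => h i (hT2T i (Finset.mem_of_mem_erase hi')) j
          (hT2T j (Finset.mem_of_mem_erase hj)) hij
      · right
        exact fun i hi' j hj hij => h i (hT2T i (Finset.mem_of_mem_erase hi')) j
          (hT2T j (Finset.mem_of_mem_erase hj)) hij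
    · intro i hi'
      exact not_le.1 (ha _ (sl_inc2 hmnT (Finset.mem_of_mem_erase hi') (hlt i hi')))
    · intro i hi'
      exact not_le.1 (hb _ (sl_inc2 hmnT (Finset.mem_of_mem_erase hi') (hlt i hi')))
  · intro γ a b u hu
    have ha := hT2 (Sum.inr (γ, a, b, u, true))
    have hb := hT2 (Sum.inr (γ, a, b, u, false))
    have hlt : ∀ i ∈ T2.erase mx, i < mx := fun i hi' =>
      lt_of_le_of_ne (Finset.le_max' _ _ (Finset.mem_of_mem_erase hi'))
        (Finset.ne_of_mem_erase hi')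
    rcases ha with ha | ha
    · left
      intro i hi'
      exact ha _ (sl_inc2 (hsub i hi') hmxT (hlt i hi'))
    rcases hb with hb | hb
    · right
      intro i hi'
      exact hb _ (sl_inc2 (hsub i hi') hmxT (hlt i hi'))
    exfalso
    refine sl_squeeze (fun i => |(G u.1 i - G u.2 i) - zc u|) (T2.erase mx) κ
      (|Γ γ + ∑ l, (if a l = b l then 0 else zc (a l, b l))|) r0 hκ hr0 ?_ ?_ ?_ ?_ ?_
    · have e1 : T2.card - 1 ≤ (T2.erase mx).card := Finset.pred_card_le_card_erase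
      omega
    · exact fun i hi' => hlpos u hu i (hT2T i (hsub i hi'))
    · rcases (hzc u hu).2 with h | h
      · left
        exact fun i hi' j hj hij => h i (hT2T i (hsub i hi')) j (hT2T j (hsub j hj)) hij
      · right
        exact fun i hi' j hj hij => h i (hT2T i (hsub i hi')) j (hT2T j (hsub j hj)) hij
    · intro i hi'
      exact not_le.1 (ha _ (sl_inc2 (hsub i hi') hmxT (hlt i hi')))
    · intro i hi'
      exact not_le.1 (hb _ (sl_inc2 (hsub i hi') hmxT (hlt i hi')))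

/-- TARGET 2: semilinear lemma -/
theorem semilinear (hR : RamseyStmt) (N k q : ℕ) (B : ℝ) : ∃ A : ℕ, 1 ≤ A ∧ ∃ B₀ : ℝ,
    ∀ m : ℕ, 1 ≤ m → ∀ S : Finset ℕ, tw 12 (A * m) ≤ S.card →
    ∀ G : Fin N → ℕ → ℝ, Spread N B₀ S G →
    ∀ (ι : Type) [Fintype ι], Fintype.card ι ≤ q → ∀ Γ : ι → ℝ,
    ∃ T ⊆ S, m ≤ T.card ∧ ∀ (γ : ι) (a b : Fin k → Fin N), a ≠ b →
      (∀ t, Inc k T t → B ≤ Γ γ + ∑ l, (G (a l) (t l) - G (b l) (t l))) ∨
      (∀ t, Inc k T t → Γ γ + ∑ l, (G (a l) (t l) - G (b l) (t l)) ≤ -B) := by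
  classical
  have hκ : (0 : ℝ) < 2 * ((k : ℝ) + 1) + 2 := by positivity
  obtain ⟨A, hA, hcore⟩ := sl_core hR N k q (2 * ((k : ℝ) + 1) + 2) hκ
  refine ⟨A, hA, max (2 * B) 1, fun m hm S hS G hG ι _ hι Γ => ?_⟩
  have hB0 : (0 : ℝ) < max (2 * B) 1 := lt_max_of_lt_right one_pos
  obtain ⟨T, hTS, hTm, zc, hz1, hz2, hz3⟩ := hcore (max (2 * B) 1) hB0 m hm S hS G hG ι hι Γ
  refine ⟨T, hTS, hTm, fun γ a b hab => ?_⟩
  obtain ⟨l0, hl0⟩ : ∃ l, a l ≠ b l := Function.ne_iff.1 hab
  let x : Option {l : Fin k // a l ≠ b l} → {t : Fin k → ℕ // Inc k T t} → ℝ := fun o t =>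
    match o with
    | none => Γ γ + ∑ l, (if a l = b l then 0 else zc (a l, b l))
    | some l => (G (a l) (t.1 l) - G (b l) (t.1 l)) - zc (a l, b l)
  have hsum : ∀ t : {t : Fin k → ℕ // Inc k T t}, ∑ o, x o t
      = Γ γ + ∑ l, (G (a l) (t.1 l) - G (b l) (t.1 l)) := by
    intro t
    rw [Fintype.sum_option]
    show (Γ γ + ∑ l, (if a l = b l then 0 else zc (a l, b l))) +
      ∑ l : {l : Fin k // a l ≠ b l}, ((G (a l) (t.1 l) - G (b l) (t.1 l)) - zc (a l, b l)) = _
    have e1 : ∑ l : {l : Fin k // a l ≠ b l},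
        ((G (a l) (t.1 l) - G (b l) (t.1 l)) - zc (a l, b l))
        = ∑ l ∈ Finset.univ.filter (fun l => a l ≠ b l),
          ((G (a l) (t.1 l) - G (b l) (t.1 l)) - zc (a l, b l)) :=
      (Finset.sum_subtype _ (fun l => by simp)
        (fun l => ((G (a l) (t.1 l) - G (b l) (t.1 l)) - zc (a l, b l)))).symm
    rw [e1, Finset.sum_filter, add_assoc, ← Finset.sum_add_distrib]
    congr 1
    refine Finset.sum_congr rfl fun l _ => ?_
    by_cases hl : a l = b l
    · simp [hl]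
    · simp [hl]
  have hcardle : (Fintype.card (Option {l : Fin k // a l ≠ b l}) : ℝ) ≤ (k : ℝ) + 1 := by
    rw [Fintype.card_option]
    push_cast
    have : Fintype.card {l : Fin k // a l ≠ b l} ≤ k := by
      have := Fintype.card_subtype_le (fun l : Fin k => a l ≠ b l)
      rwa [Fintype.card_fin] at this
    have : (Fintype.card {l : Fin k // a l ≠ b l} : ℝ) ≤ k := by exact_mod_cast this
    linarith
  have hcmp2 : ∀ l l' : {l : Fin k // a l ≠ b l}, l < l' →
      (∀ t, (2 * ((k : ℝ) + 1) + 2) * |x (some l) t| ≤ |x (some l') t|) ∨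
      (∀ t, (2 * ((k : ℝ) + 1) + 2) * |x (some l') t| ≤ |x (some l) t|) := by
    intro l l' hll
    have hll' : (l : Fin k) < l' := hll
    rcases hz2 (a l, b l) (a l', b l') l.2 l'.2 with h | h
    · left
      intro t
      exact h _ (t.2.2 l) _ (t.2.2 l') (t.2.1 hll')
    · right
      intro t
      exact h _ (t.2.2 l) _ (t.2.2 l') (t.2.1 hll')
  obtain ⟨L, hL1, hL2⟩ := dom x (2 * ((k : ℝ) + 1) + 2) (by linarith) (by
    intro l l' hll
    match l, l' with
    | none, none => exact absurd rfl hll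
    | none, some l =>
      rcases hz3 γ a b (a l, b l) l.2 with h | h
      · left
        intro t
        exact h _ (t.2.2 l)
      · right
        intro t
        exact h _ (t.2.2 l)
    | some l, none =>
      rcases hz3 γ a b (a l, b l) l.2 with h | h
      · right
        intro t
        exact h _ (t.2.2 l)
      · left
        intro t
        exact h _ (t.2.2 l)
    | some l, some l' =>
      have hne : l ≠ l' := fun h => hll (by rw [h])
      rcases lt_or_gt_of_ne hne with h | h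
      · exact hcmp2 l l' h
      · exact (hcmp2 l' l h).symm) (by
    intro l
    match l with
    | none =>
      rcases le_total 0 (Γ γ + ∑ l, (if a l = b l then 0 else zc (a l, b l))) with h | h
      · left
        intro t
        exact h
      · right
        intro t
        exact h
    | some l =>
      rcases hz1 (a l, b l) l.2 with h | h
      · left
        intro t
        have := h _ (t.2.2 l)
        exact hB0.le.trans this
      · right
        intro t
        have := h _ (t.2.2 l)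
        exact this.trans (by linarith)) (by
    intro t
    refine ⟨some ⟨l0, hl0⟩, ?_⟩
    rcases hz1 (a l0, b l0) hl0 with h | h
    · have := h _ (t.2.2 l0)
      exact abs_pos_of_pos (hB0.trans_le this)
    · have := h _ (t.2.2 l0)
      exact abs_pos_of_neg (this.trans_lt (by linarith)))
  have hbig : ∀ t : {t : Fin k → ℕ // Inc k T t}, B ≤ |x L t| / 2 := by
    intro t
    have h1 := hL1 t (some ⟨l0, hl0⟩)
    have h2 : max (2 * B) 1 ≤ |x (some ⟨l0, hl0⟩) t| := by
      rcases hz1 (a l0, b l0) hl0 with h | h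
      · have h3 := h _ (t.2.2 l0)
        exact h3.trans (le_abs_self _)
      · have h3 := h _ (t.2.2 l0)
        have h4 : max (2 * B) 1 ≤ -((G (a l0) (t.1 l0) - G (b l0) (t.1 l0)) - zc (a l0, b l0)) := by
          linarith
        exact h4.trans (neg_le_abs _)
    have h3 : 2 * B ≤ max (2 * B) 1 := le_max_left _ _
    linarith
  rcases hL2 with h | h
  · left
    intro t ht
    have h1 := h ⟨t, ht⟩
    rw [hsum] at h1
    exact (hbig ⟨t, ht⟩).trans h1
  · right
    intro t ht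
    have h1 := h ⟨t, ht⟩
    rw [hsum] at h1
    have := hbig ⟨t, ht⟩
    linarith


end S2

section S4


/-- TARGET 1: three-term Plücker relation in rows `p`, `q` -/
theorem plucker {N : ℕ} (W : Matrix (Fin N) (Fin N) ℝ) (p q : Fin N) (hpq : p ≠ q)
    (x y z u : Fin N → ℝ) :
    ((W.updateRow p x).updateRow q z).det * ((W.updateRow p y).updateRow q u).det =
      ((W.updateRow p x).updateRow q y).det * ((W.updateRow p z).updateRow q u).det +
      ((W.updateRow p x).updateRow q u).det * ((W.updateRow p y).updateRow q z).det := by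
  have hD : ∀ a b : Fin N → ℝ, ((W.updateRow p a).updateRow q b).det =
      Matrix.cramer (W.updateRow p a).transpose b q := by
    intro a b
    rw [Matrix.cramer_transpose_apply]
  set W2 := (W.updateRow p z).updateRow q u with hW2
  have hy : ∑ s, (W2.updateRow s y).det • W2 s = W2.det • y := by
    have h1 := Matrix.mulVec_cramer W2.transpose y
    rw [Matrix.det_transpose] at h1
    rw [← h1]
    funext r
    rw [Finset.sum_apply]
    simp only [Matrix.mulVec, dotProduct, Matrix.transpose_apply, Matrix.cramer_transpose_apply,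
      Pi.smul_apply, smul_eq_mul]
    exact Finset.sum_congr rfl (fun s _ => mul_comm _ _)
  have h2 := congrArg (fun b => Matrix.cramer (W.updateRow p x).transpose b q) hy
  simp only [map_sum, map_smul, Finset.sum_apply, Pi.smul_apply, smul_eq_mul] at h2
  simp only [← hD] at h2
  have h3 : ∀ s, s ≠ p → s ≠ q → ((W.updateRow p x).updateRow q (W2 s)).det = 0 := by
    intro s hsp hsq
    apply Matrix.det_zero_of_row_eq hsq
    rw [Matrix.updateRow_self, Matrix.updateRow_ne hsq, Matrix.updateRow_ne hsp, hW2,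
      Matrix.updateRow_ne hsq, Matrix.updateRow_ne hsp]
  have h4 : ∑ s, (W2.updateRow s y).det * ((W.updateRow p x).updateRow q (W2 s)).det =
      (W2.updateRow p y).det * ((W.updateRow p x).updateRow q (W2 p)).det +
      (W2.updateRow q y).det * ((W.updateRow p x).updateRow q (W2 q)).det := by
    rw [← Finset.sum_subset (Finset.subset_univ ({p, q} : Finset (Fin N)))]
    · rw [Finset.sum_pair hpq]
    · intro s _ hs
      simp only [Finset.mem_insert, Finset.mem_singleton, not_or] at hs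
      rw [h3 s hs.1 hs.2, mul_zero]
  rw [h4] at h2
  have e1 : W2 p = z := by
    rw [hW2, Matrix.updateRow_ne hpq, Matrix.updateRow_self]
  have e2 : W2 q = u := by
    rw [hW2, Matrix.updateRow_self]
  have e3 : W2.updateRow p y = (W.updateRow p y).updateRow q u := by
    ext i j
    by_cases hi : i = q
    · subst hi
      rw [Matrix.updateRow_ne (Ne.symm hpq), hW2, Matrix.updateRow_self, Matrix.updateRow_self]
    · by_cases hi2 : i = p
      · subst hi2
        rw [Matrix.updateRow_self, Matrix.updateRow_ne hpq, Matrix.updateRow_self]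
      · rw [Matrix.updateRow_ne hi2, hW2, Matrix.updateRow_ne hi, Matrix.updateRow_ne hi2,
          Matrix.updateRow_ne hi, Matrix.updateRow_ne hi2]
  have e4 : W2.updateRow q y = (W.updateRow p z).updateRow q y := by
    ext i j
    by_cases hi : i = q
    · subst hi
      rw [Matrix.updateRow_self, Matrix.updateRow_self]
    · rw [Matrix.updateRow_ne hi, hW2, Matrix.updateRow_ne hi, Matrix.updateRow_ne hi]
  have e5 : ((W.updateRow p z).updateRow q y).det = - ((W.updateRow p y).updateRow q z).det := by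
    have h5 := Matrix.det_permute (Equiv.swap p q) ((W.updateRow p z).updateRow q y)
    have h6 : ((W.updateRow p z).updateRow q y).submatrix (Equiv.swap p q) id =
        (W.updateRow p y).updateRow q z := by
      ext i j
      rw [Matrix.submatrix_apply, id]
      by_cases hi : i = q
      · subst hi
        rw [Equiv.swap_apply_right, Matrix.updateRow_ne hpq, Matrix.updateRow_self,
          Matrix.updateRow_self]
      · by_cases hi2 : i = p
        · subst hi2
          rw [Equiv.swap_apply_left, Matrix.updateRow_self, Matrix.updateRow_ne hi,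
            Matrix.updateRow_self]
        · rw [Equiv.swap_apply_of_ne_of_ne hi2 hi, Matrix.updateRow_ne hi, Matrix.updateRow_ne hi2,
            Matrix.updateRow_ne hi, Matrix.updateRow_ne hi2]
    rw [h6, Equiv.Perm.sign_swap hpq] at h5
    rw [h5]
    simp
  rw [e1, e2, e3, e4, e5] at h2
  linarith

/-- TARGET 2 -/
theorem four_point (K : ℝ) (hK : 1 ≤ K) (L : ℕ) (R : ℕ → ℝ)
    (hmono : ∀ a b, a < b → b < L → R a < R b)
    (h : ∀ a b c d, a < b → b < c → c < d → d < L →
      (R c - R a) * (R d - R b) < K * ((R b - R a) * (R d - R c))) : (L : ℝ) ≤ 2 * K + 10 := by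
  by_cases hL : L ≤ 10
  · have : (L : ℝ) ≤ 10 := by exact_mod_cast hL
    linarith
  push Not at hL
  obtain ⟨M, rfl⟩ : ∃ M, L = M + 6 := ⟨L - 6, by omega⟩
  have hgap : ∀ i ∈ Finset.range (M + 1), R (M + 4) - R 1 ≤ 2 * K * (R (i + 2 + 1) - R (i + 2)) := by
    intro i hi
    rw [Finset.mem_range] at hi
    have a1 := h (i + 2) (i + 2 + 1) (M + 4) (M + 5) (by omega) (by omega) (by omega) (by omega)
    have a2 := h 0 1 (i + 2) (i + 2 + 1) (by omega) (by omega) (by omega) (by omega)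
    have m1 := hmono (i + 2) (i + 2 + 1) (by omega) (by omega)
    have m2 := hmono (M + 4) (M + 5) (by omega) (by omega)
    have m3 := hmono (i + 2) (M + 4) (by omega) (by omega)
    have m4 := hmono (i + 2 + 1) (M + 4) (by omega) (by omega)
    have m5 := hmono 0 1 (by omega) (by omega)
    have m6 := hmono 1 (i + 2) (by omega) (by omega)
    have b1 : R (M + 4) - R (i + 2) < K * (R (i + 2 + 1) - R (i + 2)) := by
      by_contra hc
      push Not at hc
      have c1 : (K * (R (i + 2 + 1) - R (i + 2))) * (R (M + 5) - R (M + 4)) ≤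
          (R (M + 4) - R (i + 2)) * (R (M + 5) - R (M + 4)) :=
        mul_le_mul_of_nonneg_right hc (by linarith)
      have c2 : (R (M + 4) - R (i + 2)) * (R (M + 5) - R (M + 4)) ≤
          (R (M + 4) - R (i + 2)) * (R (M + 5) - R (i + 2 + 1)) :=
        mul_le_mul_of_nonneg_left (by linarith) (by linarith)
      linarith
    have b2 : R (i + 2 + 1) - R 1 < K * (R (i + 2 + 1) - R (i + 2)) := by
      by_contra hc
      push Not at hc
      have c1 : (R 1 - R 0) * (K * (R (i + 2 + 1) - R (i + 2))) ≤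
          (R 1 - R 0) * (R (i + 2 + 1) - R 1) :=
        mul_le_mul_of_nonneg_left hc (by linarith)
      have c2 : (R 1 - R 0) * (R (i + 2 + 1) - R 1) ≤
          (R (i + 2) - R 0) * (R (i + 2 + 1) - R 1) :=
        mul_le_mul_of_nonneg_right (by linarith) (by linarith)
      linarith
    linarith
  have hs := Finset.sum_le_sum hgap
  rw [Finset.sum_const, Finset.card_range, nsmul_eq_mul, ← Finset.mul_sum,
    Finset.sum_range_sub (fun i => R (i + 2)) (M + 1)] at hs
  have m7 := hmono (M + 1 + 2) (M + 4) (by omega) (by omega)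
  have m8 := hmono 1 2 (by omega) (by omega)
  have m9 := hmono 1 (M + 4) (by omega) (by omega)
  have h5 : ((M + 1 : ℕ) : ℝ) * (R (M + 4) - R 1) ≤ 2 * K * (R (M + 4) - R 1) := by
    refine hs.trans (mul_le_mul_of_nonneg_left ?_ (by linarith))
    simp only [Nat.zero_add] at *
    linarith
  have h6 : ((M + 1 : ℕ) : ℝ) ≤ 2 * K := le_of_mul_le_mul_right h5 (by linarith)
  push_cast at h6 ⊢
  linarith

/-- TARGET 3: the same for brackets -/
theorem bracket (K : ℝ) (hK : 1 ≤ K) (L : ℕ) (br : ℕ → ℕ → ℝ)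
    (hpos : ∀ a b, a < b → b < L → 0 < br a b)
    (hP : ∀ a b c d, a < b → b < c → c < d → d < L →
      br a c * br b d = br a b * br c d + br a d * br b c)
    (h : ∀ a b c d, a < b → b < c → c < d → d < L →
      br a c * br b d < K * (br a b * br c d)) : (L : ℝ) ≤ 2 * K + 12 := by
  by_cases hL : L ≤ 12
  · have : (L : ℝ) ≤ 12 := by exact_mod_cast hL
    linarith
  push Not at hL
  obtain ⟨M, rfl⟩ : ∃ M, L = M + 2 := ⟨L - 2, by omega⟩
  have hd : ∀ a b, a < b → b < M → br 0 (b + 1) / br (b + 1) (M + 1) - br 0 (a + 1) / br (a + 1) (M + 1) =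
      br 0 (M + 1) * br (a + 1) (b + 1) / (br (a + 1) (M + 1) * br (b + 1) (M + 1)) := by
    intro a b hab hb
    have h1 := hP 0 (a + 1) (b + 1) (M + 1) (by omega) (by omega) (by omega) (by omega)
    have p1 := hpos (a + 1) (M + 1) (by omega) (by omega)
    have p2 := hpos (b + 1) (M + 1) (by omega) (by omega)
    rw [div_sub_div _ _ p2.ne' p1.ne', mul_comm (br (b + 1) (M + 1)) (br (a + 1) (M + 1))]
    congr 1
    linarith
  have key := four_point K hK M (fun x => br 0 (x + 1) / br (x + 1) (M + 1)) ?_ ?_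
  · push_cast
    linarith
  · intro a b hab hb
    have h1 := hd a b hab hb
    have p1 := hpos (a + 1) (M + 1) (by omega) (by omega)
    have p2 := hpos (b + 1) (M + 1) (by omega) (by omega)
    have p3 := hpos 0 (M + 1) (by omega) (by omega)
    have p4 := hpos (a + 1) (b + 1) (by omega) (by omega)
    have : 0 < br 0 (M + 1) * br (a + 1) (b + 1) / (br (a + 1) (M + 1) * br (b + 1) (M + 1)) := by
      positivity
    linarith
  · intro a b c d hab hbc hcd hdM
    rw [hd a c (hab.trans hbc) (hcd.trans hdM), hd b d (hbc.trans hcd) hdM,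
      hd a b hab (hbc.trans (hcd.trans hdM)), hd c d hcd hdM]
    have p1 := hpos (a + 1) (M + 1) (by omega) (by omega)
    have p2 := hpos (b + 1) (M + 1) (by omega) (by omega)
    have p3 := hpos (c + 1) (M + 1) (by omega) (by omega)
    have p4 := hpos (d + 1) (M + 1) (by omega) (by omega)
    have p0 := hpos 0 (M + 1) (by omega) (by omega)
    have h1 := h (a + 1) (b + 1) (c + 1) (d + 1) (by omega) (by omega) (by omega) (by omega)
    set ra := br (a + 1) (M + 1)
    set rb := br (b + 1) (M + 1)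
    set rc := br (c + 1) (M + 1)
    set rd := br (d + 1) (M + 1)
    set P := br 0 (M + 1)
    have e1 : P * br (a + 1) (c + 1) / (ra * rc) * (P * br (b + 1) (d + 1) / (rb * rd)) =
        (P ^ 2 / (ra * rb * rc * rd)) * (br (a + 1) (c + 1) * br (b + 1) (d + 1)) := by
      field_simp
    have e2 : K * (P * br (a + 1) (b + 1) / (ra * rb) * (P * br (c + 1) (d + 1) / (rc * rd))) =
        (P ^ 2 / (ra * rb * rc * rd)) * (K * (br (a + 1) (b + 1) * br (c + 1) (d + 1))) := by
      field_simp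
    rw [e1, e2]
    exact mul_lt_mul_of_pos_left h1 (by positivity)


end S4

namespace J5


/-- determinant of the tuple `e ∘ s` -/
noncomputable def nd_D {N : ℕ} (e : ℕ → (Fin N → ℝ)) (s : ℕ → ℕ) : ℝ :=
  Matrix.det (fun p : Fin N => e (s p))

theorem nd_D_congr {N : ℕ} (e : ℕ → (Fin N → ℝ)) (s s' : ℕ → ℕ) (h : ∀ p, p < N → s p = s' p) :
    nd_D e s = nd_D e s' := by
  unfold nd_D
  congr 1
  funext p
  rw [h p p.2]

/-- replace two rows -/
def nd_br (t : ℕ → ℕ) (j x y : ℕ) : ℕ → ℕ := fun p =>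
  if p + 1 < j then t p else if p + 1 = j then x else if p = j then y else t (p + 2)

/-- the alternative for the Ramsey colouring -/
def nd_X {N : ℕ} (e : ℕ → (Fin N → ℝ)) (K : ℝ) (j : ℕ) (t : ℕ → ℕ) : Prop :=
  K * (nd_D e (nd_br t j (t (j - 1)) (t j)) * nd_D e (nd_br t j (t (j + 1)) (t (j + 2)))) ≤
    nd_D e (nd_br t j (t (j - 1)) (t (j + 1))) * nd_D e (nd_br t j (t j) (t (j + 2)))

/-- extension of a tuple -/
def nd_ext {r : ℕ} (t : Fin r → ℕ) : ℕ → ℕ := fun p => if h : p < r then t ⟨p, h⟩ else 0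

theorem nd_X_congr {N : ℕ} (e : ℕ → (Fin N → ℝ)) (K : ℝ) (j : ℕ) (hj : j < N) (t t' : ℕ → ℕ)
    (h : ∀ p, p < N + 2 → t p = t' p) : nd_X e K j t ↔ nd_X e K j t' := by
  unfold nd_X
  rw [h (j - 1) (by omega), h j (by omega), h (j + 1) (by omega), h (j + 2) (by omega)]
  have hb : ∀ x y, nd_D e (nd_br t j x y) = nd_D e (nd_br t' j x y) := by
    intro x y
    apply nd_D_congr
    intro p hp
    unfold nd_br
    rw [h p (by omega), h (p + 2) (by omega)]
  rw [hb, hb, hb, hb]

/-- positions of the bracket -/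
def nd_p2 (Q j α β : ℕ) : ℕ → ℕ := fun p =>
  if p + 1 < j then p else if p + 1 = j then α else if p = j then β else p + Q

/-- positions of the four term tuple -/
def nd_p4 (Q j α β γ δ : ℕ) : ℕ → ℕ := fun p =>
  if p + 1 < j then p else if p + 1 = j then α else if p = j then β else
    if p = j + 1 then γ else if p = j + 2 then δ else p - 2 + Q

theorem nd_X_p4 {N : ℕ} (e : ℕ → (Fin N → ℝ)) (K : ℝ) (j : ℕ) (hj : 1 ≤ j) (τ : ℕ → ℕ)
    (Q α β γ δ : ℕ) : nd_X e K j (fun p => τ (nd_p4 Q j α β γ δ p)) ↔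
      K * (nd_D e (fun p => τ (nd_p2 Q j α β p)) * nd_D e (fun p => τ (nd_p2 Q j γ δ p))) ≤
        nd_D e (fun p => τ (nd_p2 Q j α γ p)) * nd_D e (fun p => τ (nd_p2 Q j β δ p)) := by
  have hb : ∀ x y, nd_br (fun p => τ (nd_p4 Q j α β γ δ p)) j (τ x) (τ y) =
      fun p => τ (nd_p2 Q j x y p) := by
    intro x y
    funext p
    unfold nd_br nd_p2
    by_cases h1 : p + 1 < j
    · rw [if_pos h1, if_pos h1]
      show τ (nd_p4 Q j α β γ δ p) = τ p
      unfold nd_p4
      rw [if_pos h1]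
    · rw [if_neg h1, if_neg h1]
      by_cases h2 : p + 1 = j
      · rw [if_pos h2, if_pos h2]
      · rw [if_neg h2, if_neg h2]
        by_cases h3 : p = j
        · rw [if_pos h3, if_pos h3]
        · rw [if_neg h3, if_neg h3]
          show τ (nd_p4 Q j α β γ δ (p + 2)) = τ (p + Q)
          unfold nd_p4
          rw [if_neg (by omega), if_neg (by omega), if_neg (by omega), if_neg (by omega),
            if_neg (by omega)]
          rfl
  have h1 : nd_p4 Q j α β γ δ (j - 1) = α := by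
    unfold nd_p4
    rw [if_neg (by omega), if_pos (by omega)]
  have h2 : nd_p4 Q j α β γ δ j = β := by
    unfold nd_p4
    rw [if_neg (by omega), if_neg (by omega), if_pos rfl]
  have h3 : nd_p4 Q j α β γ δ (j + 1) = γ := by
    unfold nd_p4
    rw [if_neg (by omega), if_neg (by omega), if_neg (by omega), if_pos rfl]
  have h4 : nd_p4 Q j α β γ δ (j + 2) = δ := by
    unfold nd_p4
    rw [if_neg (by omega), if_neg (by omega), if_neg (by omega), if_neg (by omega), if_pos rfl]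
  unfold nd_X
  simp only [h1, h2, h3, h4, hb]

theorem nd_inc (τ : ℕ → ℕ) (M : ℕ) (T : Finset ℕ) (hτ : ∀ i k, i < k → k < M → τ i < τ k)
    (hT : ∀ i, i < M → τ i ∈ T) (r : ℕ) (π : ℕ → ℕ) (hπ : ∀ p q, p < q → q < r → π p < π q)
    (hM : ∀ p, p < r → π p < M) : Inc r T (fun p : Fin r => τ (π p)) :=
  ⟨fun p q hpq => hτ _ _ (hπ p q hpq q.2) (hM q q.2), fun p => hT _ (hM p p.2)⟩

theorem nd_p2_mono (N Q j α β : ℕ) (hj : 1 ≤ j) (hjN : j < N) (h1 : j - 1 ≤ α) (h2 : α < β)
    (h3 : β ≤ Q + j) : (∀ p q, p < q → q < N → nd_p2 Q j α β p < nd_p2 Q j α β q) ∧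
      ∀ p, p < N → nd_p2 Q j α β p < N + Q := by
  unfold nd_p2
  constructor
  · intro p q hpq hq
    show (if p + 1 < j then p else if p + 1 = j then α else if p = j then β else p + Q) <
      (if q + 1 < j then q else if q + 1 = j then α else if q = j then β else q + Q)
    split_ifs <;> omega
  · intro p hp
    show (if p + 1 < j then p else if p + 1 = j then α else if p = j then β else p + Q) < N + Q
    split_ifs <;> omega

theorem nd_p4_mono (N Q j α β γ δ : ℕ) (hj : 1 ≤ j) (hjN : j < N) (h1 : j - 1 ≤ α) (h2 : α < β)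
    (h3 : β < γ) (h4 : γ < δ) (h5 : δ ≤ Q + j) :
    (∀ p q, p < q → q < N + 2 → nd_p4 Q j α β γ δ p < nd_p4 Q j α β γ δ q) ∧
      ∀ p, p < N + 2 → nd_p4 Q j α β γ δ p < N + Q := by
  unfold nd_p4
  constructor
  · intro p q hpq hq
    show (if p + 1 < j then p else if p + 1 = j then α else if p = j then β else
      if p = j + 1 then γ else if p = j + 2 then δ else p - 2 + Q) <
      (if q + 1 < j then q else if q + 1 = j then α else if q = j then β else
      if q = j + 1 then γ else if q = j + 2 then δ else q - 2 + Q)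
    split_ifs <;> omega
  · intro p hp
    show (if p + 1 < j then p else if p + 1 = j then α else if p = j then β else
      if p = j + 1 then γ else if p = j + 2 then δ else p - 2 + Q) < N + Q
    split_ifs <;> omega

/-- positions of the functional -/
def nd_p1 (Q j k : ℕ) : ℕ → ℕ := fun p => if p < j then p else if p = j then k else p + Q

theorem nd_p1_mono (N Q j k : ℕ) (hjN : j < N) (h1 : j ≤ k) (h2 : k ≤ Q + j) :
    (∀ p q, p < q → q < N → nd_p1 Q j k p < nd_p1 Q j k q) ∧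
      ∀ p, p < N → nd_p1 Q j k p < N + Q := by
  unfold nd_p1
  constructor
  · intro p q hpq hq
    show (if p < j then p else if p = j then k else p + Q) <
      (if q < j then q else if q = j then k else q + Q)
    split_ifs <;> omega
  · intro p hp
    show (if p < j then p else if p = j then k else p + Q) < N + Q
    split_ifs <;> omega

theorem nd_p1_eq (Q j k : ℕ) (hj : 1 ≤ j) : nd_p1 Q j k = nd_p2 Q j (j - 1) k := by
  funext p
  unfold nd_p1 nd_p2
  show (if p < j then p else if p = j then k else p + Q) =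
    (if p + 1 < j then p else if p + 1 = j then j - 1 else if p = j then k else p + Q)
  split_ifs <;> omega

theorem nd_p1_eq' (Q j k : ℕ) (hj : 1 ≤ j) : nd_p1 Q (j - 1) k = nd_p2 Q j k (Q + j) := by
  funext p
  unfold nd_p1 nd_p2
  show (if p < j - 1 then p else if p = j - 1 then k else p + Q) =
    (if p + 1 < j then p else if p + 1 = j then k else if p = j then Q + j else p + Q)
  split_ifs <;> omega

theorem nd_basis {N : ℕ} (G : Fin N → ((Fin N → ℝ) →ₗ[ℝ] ℝ)) (f : Fin N → (Fin N → ℝ))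
    (h0 : ∀ j l : Fin N, l < j → G j (f l) = 0) (h1 : ∀ j, G j (f j) ≠ 0) :
    ∃ v : Fin N → (Fin N → ℝ), ∀ w, w = ∑ j, G j w • v j := by
  set Γ : Matrix (Fin N) (Fin N) ℝ := fun j k => G j (fun i => if k = i then 1 else 0) with hΓ
  have hG : ∀ j w, G j w = (Γ.mulVec w) j := by
    intro j w
    rw [LinearMap.pi_apply_eq_sum_univ (G j) w]
    show ∑ i, w i • (G j (fun k => if i = k then 1 else 0)) = ∑ k, Γ j k * w k
    refine Finset.sum_congr rfl fun k _ => ?_
    rw [smul_eq_mul, mul_comm]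
  set E : Matrix (Fin N) (Fin N) ℝ := fun k l => f l k with hE
  have hA : Γ * E = fun j l => G j (f l) := by
    funext j l
    rw [hG]
    rfl
  have hdet : (Γ * E).det ≠ 0 := by
    rw [hA, Matrix.det_of_isUpperTriangular]
    · exact Finset.prod_ne_zero_iff.2 fun j _ => h1 j
    · intro j l hjl
      exact h0 j l hjl
  rw [Matrix.det_mul] at hdet
  have hΓd : IsUnit Γ.det := isUnit_iff_ne_zero.2 (left_ne_zero_of_mul hdet)
  refine ⟨fun j k => Γ⁻¹ k j, fun w => ?_⟩
  have h2 : w = Γ⁻¹.mulVec (Γ.mulVec w) := by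
    rw [Matrix.mulVec_mulVec, Matrix.nonsing_inv_mul _ hΓd, Matrix.one_mulVec]
  funext k
  rw [Finset.sum_apply]
  conv_lhs => rw [h2]
  show ∑ j, Γ⁻¹ k j * (Γ.mulVec w) j = _
  refine Finset.sum_congr rfl fun j _ => ?_
  rw [← hG, Pi.smul_apply, smul_eq_mul, mul_comm]

theorem nd_le_tw (C x : ℕ) : x ≤ tw C x := by
  induction C with
  | zero => exact le_rfl
  | succ j ih =>
    show x ≤ 2 ^ tw j x
    exact ih.trans (@Nat.lt_two_pow_self (tw j x)).le

theorem nd_enum (T : Finset ℕ) : ∃ τ : ℕ → ℕ, (∀ i k, i < k → k < T.card → τ i < τ k) ∧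
    ∀ i, i < T.card → τ i ∈ T := by
  refine ⟨fun i => if h : i < T.card then T.orderEmbOfFin rfl ⟨i, h⟩ else 0, ?_, ?_⟩
  · intro i k hik hk
    have hi : i < T.card := hik.trans hk
    show (if h : i < T.card then T.orderEmbOfFin rfl ⟨i, h⟩ else 0) <
      (if h : k < T.card then T.orderEmbOfFin rfl ⟨k, h⟩ else 0)
    rw [dif_pos hi, dif_pos hk]
    exact (T.orderEmbOfFin rfl).strictMono hik
  · intro i hi
    show (if h : i < T.card then T.orderEmbOfFin rfl ⟨i, h⟩ else 0) ∈ T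
    rw [dif_pos hi]
    exact Finset.orderEmbOfFin_mem T rfl _

theorem nd_plucker
    (plucker : ∀ {N : ℕ} (W : Matrix (Fin N) (Fin N) ℝ) (p q : Fin N) (_ : p ≠ q)
      (x y z u : Fin N → ℝ),
      ((W.updateRow p x).updateRow q z).det * ((W.updateRow p y).updateRow q u).det =
        ((W.updateRow p x).updateRow q y).det * ((W.updateRow p z).updateRow q u).det +
        ((W.updateRow p x).updateRow q u).det * ((W.updateRow p y).updateRow q z).det)
    {N : ℕ} (e : ℕ → (Fin N → ℝ)) (τ : ℕ → ℕ) (Q j : ℕ) (hj : 1 ≤ j) (hjN : j < N)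
    (a b c d : ℕ) :
    nd_D e (fun p => τ (nd_p2 Q j a c p)) * nd_D e (fun p => τ (nd_p2 Q j b d p)) =
      nd_D e (fun p => τ (nd_p2 Q j a b p)) * nd_D e (fun p => τ (nd_p2 Q j c d p)) +
      nd_D e (fun p => τ (nd_p2 Q j a d p)) * nd_D e (fun p => τ (nd_p2 Q j b c p)) := by
  set p0 : Fin N := ⟨j - 1, by omega⟩ with hp0
  set q0 : Fin N := ⟨j, hjN⟩ with hq0
  have hpq : p0 ≠ q0 := by
    intro h
    have h1 := congrArg Fin.val h
    have h2 : j - 1 = j := h1
    omega
  set W : Matrix (Fin N) (Fin N) ℝ :=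
    fun p => e (τ (if (p : ℕ) + 1 < j then (p : ℕ) else (p : ℕ) + Q)) with hW
  have hb : ∀ x y, nd_D e (fun p => τ (nd_p2 Q j x y p)) =
      ((W.updateRow p0 (e (τ x))).updateRow q0 (e (τ y))).det := by
    intro x y
    unfold nd_D
    congr 1
    funext p
    by_cases h1 : p = q0
    · subst h1
      rw [Matrix.updateRow_self]
      have h2 : nd_p2 Q j x y (q0 : ℕ) = y := by
        unfold nd_p2
        show (if j + 1 < j then j else if j + 1 = j then x else if j = j then y else j + Q) = y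
        rw [if_neg (by omega), if_neg (by omega), if_pos rfl]
      show e (τ (nd_p2 Q j x y (q0 : ℕ))) = e (τ y)
      rw [h2]
    · rw [Matrix.updateRow_ne h1]
      have h1' : (p : ℕ) ≠ j := fun h => h1 (Fin.ext h)
      by_cases h3 : p = p0
      · subst h3
        rw [Matrix.updateRow_self]
        have h2 : nd_p2 Q j x y (p0 : ℕ) = x := by
          unfold nd_p2
          show (if j - 1 + 1 < j then j - 1 else if j - 1 + 1 = j then x else
            if j - 1 = j then y else j - 1 + Q) = x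
          rw [if_neg (by omega), if_pos (by omega)]
        show e (τ (nd_p2 Q j x y (p0 : ℕ))) = e (τ x)
        rw [h2]
      · rw [Matrix.updateRow_ne h3]
        have h3' : (p : ℕ) + 1 ≠ j := fun h => h3 (Fin.ext (by
          show (p : ℕ) = j - 1
          omega))
        show e (τ (nd_p2 Q j x y p)) = e (τ (if (p : ℕ) + 1 < j then (p : ℕ) else (p : ℕ) + Q))
        unfold nd_p2
        by_cases h4 : (p : ℕ) + 1 < j
        · rw [if_pos h4, if_pos h4]
        · rw [if_neg h4, if_neg h4, if_neg h3', if_neg h1']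
  rw [hb, hb, hb, hb, hb, hb]
  exact plucker W p0 q0 hpq _ _ _ _

/-- TARGET -/
theorem nondeg (hR : RamseyStmt)
    (plucker : ∀ {N : ℕ} (W : Matrix (Fin N) (Fin N) ℝ) (p q : Fin N) (_ : p ≠ q)
      (x y z u : Fin N → ℝ),
      ((W.updateRow p x).updateRow q z).det * ((W.updateRow p y).updateRow q u).det =
        ((W.updateRow p x).updateRow q y).det * ((W.updateRow p z).updateRow q u).det +
        ((W.updateRow p x).updateRow q u).det * ((W.updateRow p y).updateRow q z).det)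
    (bracket : ∀ (K : ℝ) (_ : 1 ≤ K) (L : ℕ) (br : ℕ → ℕ → ℝ)
      (_ : ∀ a b, a < b → b < L → 0 < br a b)
      (_ : ∀ a b c d, a < b → b < c → c < d → d < L →
        br a c * br b d = br a b * br c d + br a d * br b c)
      (_ : ∀ a b c d, a < b → b < c → c < d → d < L →
        br a c * br b d < K * (br a b * br c d)), (L : ℝ) ≤ 2 * K + 12)
    (N : ℕ) (B : ℝ) : ∃ A : ℕ, 1 ≤ A ∧
    ∀ m : ℕ, 1 ≤ m → ∀ S : Finset ℕ, tw (2 * (N + 2)) (A * m) ≤ S.card →
    ∀ (e : ℕ → (Fin N → ℝ)) (σ : ℝ), σ * σ = 1 →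
    (∀ t, Inc N S t → 0 < σ * Matrix.det (fun p => e (t p))) →
    ∃ T ⊆ S, m ≤ T.card ∧ ∃ (g : Fin N → ℕ → ℝ) (v : Fin N → (Fin N → ℝ)),
      (∀ i ∈ T, e i = ∑ j, g j i • v j) ∧ (∀ j, ∀ i ∈ T, 0 < g j i) ∧
      Spread N B T (fun j i => Real.log (g j i)) := by
  classical
  rcases Nat.eq_zero_or_pos N with hN0 | hN0
  · subst hN0
    refine ⟨1, le_rfl, ?_⟩
    intro m hm S hS e σ hσ he
    refine ⟨S, Finset.Subset.refl _, ?_, fun _ _ => 0, fun _ => 0, ?_, ?_, ?_⟩
    · rw [one_mul] at hS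
      exact (nd_le_tw _ m).trans hS
    · intro i _
      funext k
      exact k.elim0
    · intro j; exact j.elim0
    · intro a; exact a.elim0
  set B' : ℝ := max B 0 with hB'
  set K : ℝ := Real.exp B' with hK
  have hB0 : 0 ≤ B' := le_max_right _ _
  have hBB : B ≤ B' := le_max_left _ _
  have hK1 : 1 ≤ K := Real.one_le_exp hB0
  obtain ⟨A1, hA1, hRam⟩ := hR (N + 2) (2 ^ N)
  set c : ℕ := 2 * ⌈K⌉₊ + 3 * N + 20 with hc
  refine ⟨A1 * c, Nat.mul_pos hA1 (by omega), ?_⟩
  intro m hm S hS e σ hσ he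
  have hcm : 1 ≤ c * m := Nat.mul_pos (by omega) hm
  rw [mul_assoc] at hS
  obtain ⟨T1, hT1S, hT1card, hT1⟩ := hRam (c * m) hcm S hS (Fin N → Bool)
    (by rw [Fintype.card_fun, Fintype.card_bool, Fintype.card_fin])
    (fun t j => decide (nd_X e K (j : ℕ) (nd_ext t)))
  obtain ⟨τ, hτ, hτT⟩ := nd_enum T1
  set M : ℕ := T1.card with hM
  have hMc : m + (c - 1) ≤ M := by
    refine le_trans ?_ hT1card
    obtain ⟨c', hc'⟩ : ∃ c', c = c' + 1 := ⟨c - 1, by omega⟩
    obtain ⟨m', hm'⟩ : ∃ m', m = m' + 1 := ⟨m - 1, by omega⟩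
    rw [hc', hm']
    have : (c' + 1) * (m' + 1) = c' * m' + c' + m' + 1 := by ring
    rw [this]
    have h2 : 0 ≤ c' * m' := Nat.zero_le _
    omega
  obtain ⟨Q, hQ⟩ : ∃ Q, M = N + Q := ⟨M - N, by omega⟩
  have hposD : ∀ π : ℕ → ℕ, (∀ p q, p < q → q < N → π p < π q) → (∀ p, p < N → π p < N + Q) →
      0 < σ * nd_D e (fun p => τ (π p)) := by
    intro π h1 h2
    exact he _ ((nd_inc τ M T1 hτ hτT N π h1 (by rw [hQ]; exact h2)).mono hT1S)
  have hσ2 : ∀ x y : ℝ, (σ * x) * (σ * y) = x * y := by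
    intro x y
    calc (σ * x) * (σ * y) = (σ * σ) * (x * y) := by ring
      _ = x * y := by rw [hσ, one_mul]
  -- the four term inequality
  have hX : ∀ j, 1 ≤ j → j < N → ∀ α β γ δ, j - 1 ≤ α → α < β → β < γ → γ < δ → δ ≤ Q + j →
      K * (nd_D e (fun p => τ (nd_p2 Q j α β p)) * nd_D e (fun p => τ (nd_p2 Q j γ δ p))) ≤
        nd_D e (fun p => τ (nd_p2 Q j α γ p)) * nd_D e (fun p => τ (nd_p2 Q j β δ p)) := by
    intro j hj hjN α β γ δ h1 h2 h3 h4 h5
    by_contra hcon
    have hinc : ∀ α β γ δ, j - 1 ≤ α → α < β → β < γ → γ < δ → δ ≤ Q + j →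
        Inc (N + 2) T1 (fun p : Fin (N + 2) => τ (nd_p4 Q j α β γ δ p)) := by
      intro α β γ δ h1 h2 h3 h4 h5
      obtain ⟨g1, g2⟩ := nd_p4_mono N Q j α β γ δ hj hjN h1 h2 h3 h4 h5
      exact nd_inc τ M T1 hτ hτT (N + 2) _ g1 (by rw [hQ]; exact g2)
    have hext : ∀ α β γ δ, nd_X e K j (nd_ext (fun p : Fin (N + 2) => τ (nd_p4 Q j α β γ δ p))) ↔
        K * (nd_D e (fun p => τ (nd_p2 Q j α β p)) * nd_D e (fun p => τ (nd_p2 Q j γ δ p))) ≤
        nd_D e (fun p => τ (nd_p2 Q j α γ p)) * nd_D e (fun p => τ (nd_p2 Q j β δ p)) := by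
      intro α β γ δ
      rw [← nd_X_p4 e K j hj τ Q α β γ δ]
      apply nd_X_congr e K j hjN
      intro p hp
      unfold nd_ext
      rw [dif_pos hp]
    have hall : ∀ a b c d, j - 1 ≤ a → a < b → b < c → c < d → d ≤ Q + j →
        nd_D e (fun p => τ (nd_p2 Q j a c p)) * nd_D e (fun p => τ (nd_p2 Q j b d p)) <
        K * (nd_D e (fun p => τ (nd_p2 Q j a b p)) * nd_D e (fun p => τ (nd_p2 Q j c d p))) := by
      intro a b c d g1 g2 g3 g4 g5
      have h6 := congrFun (hT1 _ _ (hinc α β γ δ h1 h2 h3 h4 h5) (hinc a b c d g1 g2 g3 g4 g5))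
        (⟨j, hjN⟩ : Fin N)
      have h7 : (nd_X e K j (nd_ext (fun p : Fin (N + 2) => τ (nd_p4 Q j α β γ δ p))) ↔
          nd_X e K j (nd_ext (fun p : Fin (N + 2) => τ (nd_p4 Q j a b c d p)))) := by
        have h8 : decide (nd_X e K j (nd_ext (fun p : Fin (N + 2) => τ (nd_p4 Q j α β γ δ p)))) =
          decide (nd_X e K j (nd_ext (fun p : Fin (N + 2) => τ (nd_p4 Q j a b c d p)))) := h6
        exact decide_eq_decide.1 h8
      rw [hext, hext] at h7
      exact not_le.1 (fun h => hcon (h7.2 h))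
    have hbr := bracket K hK1 (Q + 2)
      (fun a b => σ * nd_D e (fun p => τ (nd_p2 Q j (j - 1 + a) (j - 1 + b) p)))
      (by
        intro a b hab hb
        obtain ⟨g1, g2⟩ := nd_p2_mono N Q j (j - 1 + a) (j - 1 + b) hj hjN (by omega) (by omega)
          (by omega)
        exact hposD _ g1 g2)
      (by
        intro a b c d _ _ _ _
        show (σ * _) * (σ * _) = (σ * _) * (σ * _) + (σ * _) * (σ * _)
        rw [hσ2, hσ2, hσ2]
        exact nd_plucker plucker e τ Q j hj hjN _ _ _ _)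
      (by
        intro a b c d hab hbc hcd hd
        show (σ * _) * (σ * _) < K * ((σ * _) * (σ * _))
        rw [hσ2, hσ2]
        exact hall _ _ _ _ (by omega) (by omega) (by omega) (by omega) (by omega))
    have hceil : K ≤ (⌈K⌉₊ : ℝ) := Nat.le_ceil K
    have h9 : 2 * ⌈K⌉₊ + 13 ≤ Q + 2 := by omega
    have h10 : (2 * (⌈K⌉₊ : ℝ) + 13) ≤ ((Q + 2 : ℕ) : ℝ) := by exact_mod_cast h9
    linarith
  -- the functionals
  set W : Fin N → Matrix (Fin N) (Fin N) ℝ :=
    fun j p => e (τ (if (p : ℕ) < (j : ℕ) then (p : ℕ) else (p : ℕ) + Q)) with hW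
  set G : Fin N → ((Fin N → ℝ) →ₗ[ℝ] ℝ) := fun j =>
    σ • ((Matrix.detRowAlternating (R := ℝ) (n := Fin N)).toMultilinearMap.toLinearMap (W j) j)
    with hG
  have hGdet : ∀ j w, G j w = σ * ((W j).updateRow j w).det := fun j w => rfl
  have hGτ : ∀ (j : Fin N) (k : ℕ), G j (e (τ k)) = σ * nd_D e (fun p => τ (nd_p1 Q j k p)) := by
    intro j k
    rw [hGdet]
    congr 1
    unfold nd_D
    congr 1
    funext p
    by_cases h1 : p = j
    · subst h1
      rw [Matrix.updateRow_self]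
      have : nd_p1 Q p k p = k := by
        unfold nd_p1
        rw [if_neg (lt_irrefl _), if_pos rfl]
      show e (τ k) = e (τ (nd_p1 Q p k p))
      rw [this]
    · rw [Matrix.updateRow_ne h1]
      have h1' : (p : ℕ) ≠ (j : ℕ) := fun h => h1 (Fin.ext h)
      show e (τ (if (p : ℕ) < (j : ℕ) then (p : ℕ) else (p : ℕ) + Q)) = e (τ (nd_p1 Q j k p))
      unfold nd_p1
      by_cases h2 : (p : ℕ) < (j : ℕ)
      · rw [if_pos h2, if_pos h2]
      · rw [if_neg h2, if_neg h2, if_neg h1']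
  have hGpos : ∀ (j : Fin N) (k : ℕ), (j : ℕ) ≤ k → k ≤ Q + j → 0 < G j (e (τ k)) := by
    intro j k h1 h2
    rw [hGτ]
    obtain ⟨g1, g2⟩ := nd_p1_mono N Q j k j.2 h1 h2
    exact hposD _ g1 g2
  obtain ⟨v, hv⟩ := nd_basis G (fun l => e (τ (l : ℕ)))
    (by
      intro j l hlj
      show G j (e (τ (l : ℕ))) = 0
      rw [hGdet]
      have h1 : ((W j).updateRow j (e (τ (l : ℕ)))).det = 0 := by
        refine Matrix.det_zero_of_row_eq (i := l) (j := j) (ne_of_lt hlj) ?_
        rw [Matrix.updateRow_self, Matrix.updateRow_ne (ne_of_lt hlj)]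
        show e (τ (if (l : ℕ) < (j : ℕ) then (l : ℕ) else (l : ℕ) + Q)) = e (τ (l : ℕ))
        rw [if_pos (show (l : ℕ) < (j : ℕ) from hlj)]
      rw [h1, mul_zero])
    (by
      intro j
      exact (hGpos j j le_rfl (by omega)).ne')
  have hmemT : ∀ k ∈ Finset.Ico N (Q + 1), τ k ∈ T1 := by
    intro k hk
    rw [Finset.mem_Ico] at hk
    exact hτT k (by omega)
  refine ⟨(Finset.Ico N (Q + 1)).image τ, ?_, ?_, fun j i => G j (e i), v, ?_, ?_, ?_⟩
  · intro i hi
    obtain ⟨k, hk, rfl⟩ := Finset.mem_image.1 hi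
    exact hT1S (hmemT k hk)
  · rw [Finset.card_image_of_injOn, Nat.card_Ico]
    · omega
    · intro a ha b hb hab
      rw [Finset.coe_Ico, Set.mem_Ico] at ha hb
      rcases lt_trichotomy a b with h | h | h
      · exact absurd hab (ne_of_lt (hτ a b h (by omega)))
      · exact h
      · exact absurd hab (ne_of_gt (hτ b a h (by omega)))
  · intro i _
    exact hv (e i)
  · intro j i hi
    obtain ⟨k, hk, rfl⟩ := Finset.mem_image.1 hi
    rw [Finset.mem_Ico] at hk
    have := j.2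
    exact hGpos j k (by omega) (by omega)
  · intro a b hab i hi i2 hi2 hii
    obtain ⟨k, hk, rfl⟩ := Finset.mem_image.1 hi
    obtain ⟨k2, hk2, rfl⟩ := Finset.mem_image.1 hi2
    rw [Finset.mem_Ico] at hk hk2
    have hkk : k < k2 := by
      rcases lt_trichotomy k k2 with h | h | h
      · exact h
      · subst h; exact absurd hii (lt_irrefl _)
      · exact absurd (hτ k2 k h (by omega)) (not_lt.2 hii.le)
    show (Real.log (G b (e (τ k))) - Real.log (G a (e (τ k)))) + B ≤
      Real.log (G b (e (τ k2))) - Real.log (G a (e (τ k2)))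
    rw [hGτ, hGτ, hGτ, hGτ]
    set h : ℕ → ℝ := fun n => Real.log (σ * nd_D e (fun p => τ (nd_p1 Q n k2 p))) -
      Real.log (σ * nd_D e (fun p => τ (nd_p1 Q n k p))) with hh
    have hstep : ∀ n, n + 1 < N → h n + B' ≤ h (n + 1) := by
      intro n hn
      have hp : ∀ n k, n < N → n ≤ k → k ≤ Q + n →
          0 < σ * nd_D e (fun p => τ (nd_p1 Q n k p)) := by
        intro n k h0 h1 h2
        obtain ⟨g1, g2⟩ := nd_p1_mono N Q n k h0 h1 h2
        exact hposD _ g1 g2
      have q1 := hp n k (by omega) (by omega) (by omega)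
      have q2 := hp n k2 (by omega) (by omega) (by omega)
      have q3 := hp (n + 1) k (by omega) (by omega) (by omega)
      have q4 := hp (n + 1) k2 (by omega) (by omega) (by omega)
      have hx := hX (n + 1) (by omega) hn n k k2 (Q + (n + 1)) (by omega) (by omega) hkk
        (by omega) le_rfl
      have e1 : ∀ k, nd_p1 Q (n + 1) k = nd_p2 Q (n + 1) n k := fun k =>
        nd_p1_eq Q (n + 1) k (by omega)
      have e2 : ∀ k, nd_p1 Q n k = nd_p2 Q (n + 1) k (Q + (n + 1)) := fun k =>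
        nd_p1_eq' Q (n + 1) k (by omega)
      rw [← e1, ← e2, ← e1, ← e2] at hx
      have hy : K * ((σ * nd_D e (fun p => τ (nd_p1 Q (n + 1) k p))) *
          (σ * nd_D e (fun p => τ (nd_p1 Q n k2 p)))) ≤
          (σ * nd_D e (fun p => τ (nd_p1 Q (n + 1) k2 p))) *
          (σ * nd_D e (fun p => τ (nd_p1 Q n k p))) := by
        rw [hσ2, hσ2]
        exact hx
      have hK0 : 0 < K := Real.exp_pos _
      have hl := Real.log_le_log (mul_pos hK0 (mul_pos q3 q2)) hy
      rw [Real.log_mul hK0.ne' (mul_pos q3 q2).ne', Real.log_mul q3.ne' q2.ne',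
        Real.log_mul q4.ne' q1.ne', hK, Real.log_exp] at hl
      show Real.log _ - Real.log _ + B' ≤ Real.log _ - Real.log _
      linarith
    have hchain : ∀ d, (a : ℕ) + 1 + d < N → h a + B' ≤ h ((a : ℕ) + 1 + d) := by
      intro d
      induction d with
      | zero => intro hd; exact hstep a hd
      | succ d ih =>
        intro hd
        have h1 := ih (by omega)
        have h2 := hstep ((a : ℕ) + 1 + d) (by omega)
        have h3 : (a : ℕ) + 1 + d + 1 = (a : ℕ) + 1 + (d + 1) := by ring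
        rw [h3] at h2
        linarith
    have hab' : (a : ℕ) < (b : ℕ) := hab
    have hb2 := b.2
    have h4 := hchain ((b : ℕ) - ((a : ℕ) + 1)) (by omega)
    have h5 : (a : ℕ) + 1 + ((b : ℕ) - ((a : ℕ) + 1)) = (b : ℕ) := by omega
    rw [h5] at h4
    have h6 : h a = Real.log (σ * nd_D e (fun p => τ (nd_p1 Q a k2 p))) -
      Real.log (σ * nd_D e (fun p => τ (nd_p1 Q a k p))) := rfl
    have h7 : h b = Real.log (σ * nd_D e (fun p => τ (nd_p1 Q b k2 p))) -
      Real.log (σ * nd_D e (fun p => τ (nd_p1 Q b k p))) := rfl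
    rw [h6, h7] at h4
    linarith


end J5

namespace J3


/-- (given) one member of a finite family dominates -/
def DomStmt : Prop := ∀ {ι τ : Type} [Fintype ι] [DecidableEq ι] (x : ι → τ → ℝ) (κ : ℝ)
    (_ : 2 * (Fintype.card ι : ℝ) + 2 ≤ κ)
    (_ : ∀ l l', l ≠ l' → (∀ t, κ * |x l t| ≤ |x l' t|) ∨ (∀ t, κ * |x l' t| ≤ |x l t|))
    (_ : ∀ l, (∀ t, 0 ≤ x l t) ∨ (∀ t, x l t ≤ 0)) (_ : ∀ t, ∃ l, 0 < |x l t|) [Nonempty ι],
    ∃ L : ι, (∀ t, ∀ l, |x l t| ≤ |x L t|) ∧
      ((∀ t, |x L t| / 2 ≤ ∑ l, x l t) ∨ (∀ t, ∑ l, x l t ≤ -(|x L t| / 2)))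

/-- (given) semilinear lemma -/
def SemilinearStmt : Prop := ∀ (N k q : ℕ) (B : ℝ), ∃ A : ℕ, 1 ≤ A ∧ ∃ B₀ : ℝ,
    ∀ m : ℕ, 1 ≤ m → ∀ S : Finset ℕ, tw 12 (A * m) ≤ S.card →
    ∀ G : Fin N → ℕ → ℝ, Spread N B₀ S G →
    ∀ (ι : Type) [Fintype ι], Fintype.card ι ≤ q → ∀ Γ : ι → ℝ,
    ∃ T ⊆ S, m ≤ T.card ∧ ∀ (γ : ι) (a b : Fin k → Fin N), a ≠ b →
      (∀ t, Inc k T t → B ≤ Γ γ + ∑ l, (G (a l) (t l) - G (b l) (t l))) ∨
      (∀ t, Inc k T t → Γ γ + ∑ l, (G (a l) (t l) - G (b l) (t l)) ≤ -B)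

/-- TARGET -/
theorem dominance (hD : DomStmt) (hL : SemilinearStmt) (N k : ℕ) : ∃ A : ℕ, 1 ≤ A ∧ ∃ B₀ : ℝ,
    ∀ m : ℕ, 1 ≤ m → ∀ S : Finset ℕ, tw 12 (A * m) ≤ S.card →
    ∀ g : Fin N → ℕ → ℝ, (∀ a, ∀ i ∈ S, 0 < g a i) →
    Spread N B₀ S (fun a i => Real.log (g a i)) →
    ∀ c : (Fin k → Fin N) → ℝ, ∃ T ⊆ S, m ≤ T.card ∧
      ((∀ t, Inc k T t → 0 ≤ ∑ a : Fin k → Fin N, c a * ∏ l, g (a l) (t l)) ∨
       (∀ t, Inc k T t → ∑ a : Fin k → Fin N, c a * ∏ l, g (a l) (t l) < 0)) := by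
  classical
  set κ : ℝ := 2 * ((N : ℝ) ^ k) + 2 with hκdef
  have hNk : (0 : ℝ) ≤ (N : ℝ) ^ k := by positivity
  have hκ1 : 1 < κ := by rw [hκdef]; linarith
  have hκ0 : 0 < κ := by linarith
  obtain ⟨A, hA, B₀, h⟩ := hL N k (Fintype.card ((Fin k → Fin N) × (Fin k → Fin N))) (Real.log κ)
  refine ⟨A, hA, B₀, ?_⟩
  intro m hm S hS g hg hsp c
  obtain ⟨T, hTS, hTm, hdich⟩ := h m hm S hS (fun a i => Real.log (g a i)) hsp
    ((Fin k → Fin N) × (Fin k → Fin N)) le_rfl
    (fun p => Real.log |c p.1| - Real.log |c p.2|)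
  refine ⟨T, hTS, hTm, ?_⟩
  have hprod : ∀ (a : Fin k → Fin N) (t : Fin k → ℕ), Inc k T t → 0 < ∏ l, g (a l) (t l) :=
    fun a t ht => Finset.prod_pos fun l _ => hg _ _ (hTS (ht.2 l))
  have hsum : ∀ t : Fin k → ℕ, ∑ a : Fin k → Fin N, c a * ∏ l, g (a l) (t l) =
      ∑ a : {a : Fin k → Fin N // c a ≠ 0}, c a.1 * ∏ l, g (a.1 l) (t l) := by
    intro t
    have h1 : ∑ a ∈ Finset.univ.filter (fun a : Fin k → Fin N => c a ≠ 0),
        c a * ∏ l, g (a l) (t l) = ∑ a : Fin k → Fin N, c a * ∏ l, g (a l) (t l) :=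
      Finset.sum_filter_of_ne fun a _ ha hc => ha (by rw [hc, zero_mul])
    rw [← h1]
    exact Finset.sum_subtype _ (fun a => by simp) _
  rcases isEmpty_or_nonempty {a : Fin k → Fin N // c a ≠ 0} with he | hne
  · left
    intro t _
    rw [hsum t, Finset.univ_eq_empty, Finset.sum_empty]
  · have hx := fun (a : {a : Fin k → Fin N // c a ≠ 0}) (t : {t : Fin k → ℕ // Inc k T t}) =>
      hprod a.1 t.1 t.2
    have habs : ∀ (a : {a : Fin k → Fin N // c a ≠ 0}) (t : {t : Fin k → ℕ // Inc k T t}),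
        |c a.1 * ∏ l, g (a.1 l) (t.1 l)| = |c a.1| * ∏ l, g (a.1 l) (t.1 l) := fun a t => by
      rw [abs_mul, abs_of_pos (hx a t)]
    have hpos : ∀ (a : {a : Fin k → Fin N // c a ≠ 0}) (t : {t : Fin k → ℕ // Inc k T t}),
        0 < |c a.1 * ∏ l, g (a.1 l) (t.1 l)| := fun a t => by
      rw [habs a t]
      exact mul_pos (abs_pos.2 a.2) (hx a t)
    have hlog : ∀ (a : {a : Fin k → Fin N // c a ≠ 0}) (t : {t : Fin k → ℕ // Inc k T t}),
        Real.log |c a.1 * ∏ l, g (a.1 l) (t.1 l)| =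
          Real.log |c a.1| + ∑ l, Real.log (g (a.1 l) (t.1 l)) := fun a t => by
      rw [habs a t, Real.log_mul (abs_pos.2 a.2).ne' (hx a t).ne', Real.log_prod]
      intro l _
      exact (hg _ _ (hTS (t.2.2 l))).ne'
    have hcmp : ∀ (a b : {a : Fin k → Fin N // c a ≠ 0}) (t : {t : Fin k → ℕ // Inc k T t}),
        Real.log κ + Real.log |c b.1 * ∏ l, g (b.1 l) (t.1 l)| ≤
          Real.log |c a.1 * ∏ l, g (a.1 l) (t.1 l)| →
        κ * |c b.1 * ∏ l, g (b.1 l) (t.1 l)| ≤ |c a.1 * ∏ l, g (a.1 l) (t.1 l)| := by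
      intro a b t hab
      rw [← Real.log_mul hκ0.ne' (hpos b t).ne'] at hab
      exact (Real.log_le_log_iff (mul_pos hκ0 (hpos b t)) (hpos a t)).1 hab
    obtain ⟨L, hL1, hL2⟩ := hD (ι := {a : Fin k → Fin N // c a ≠ 0})
      (τ := {t : Fin k → ℕ // Inc k T t})
      (fun a t => c a.1 * ∏ l, g (a.1 l) (t.1 l)) κ
      (by
        have h1 : Fintype.card {a : Fin k → Fin N // c a ≠ 0} ≤ N ^ k := by
          have := Fintype.card_subtype_le (fun a : Fin k → Fin N => c a ≠ 0)
          simpa using this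
        have h2 : (Fintype.card {a : Fin k → Fin N // c a ≠ 0} : ℝ) ≤ (N : ℝ) ^ k := by
          exact_mod_cast h1
        rw [hκdef]
        linarith)
      (by
        intro a b hab
        have hab' : a.1 ≠ b.1 := fun h => hab (Subtype.ext h)
        rcases hdich (a.1, b.1) a.1 b.1 hab' with h1 | h1
        · right
          intro t
          refine hcmp a b t ?_
          rw [hlog a t, hlog b t]
          have := h1 t.1 t.2
          rw [Finset.sum_sub_distrib] at this
          simp only at this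
          linarith
        · left
          intro t
          refine hcmp b a t ?_
          rw [hlog a t, hlog b t]
          have := h1 t.1 t.2
          rw [Finset.sum_sub_distrib] at this
          simp only at this
          linarith)
      (by
        intro a
        rcases lt_or_gt_of_ne a.2 with h1 | h1
        · right
          intro t
          exact mul_nonpos_of_nonpos_of_nonneg h1.le (hx a t).le
        · left
          intro t
          exact mul_nonneg h1.le (hx a t).le)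
      (fun t => ⟨Classical.arbitrary _, hpos _ t⟩)
    rcases hL2 with h1 | h1
    · left
      intro t ht
      rw [hsum t]
      have := h1 ⟨t, ht⟩
      have h2 := hpos L ⟨t, ht⟩
      simp only at this h2
      linarith
    · right
      intro t ht
      rw [hsum t]
      have := h1 ⟨t, ht⟩
      have h2 := hpos L ⟨t, ht⟩
      simp only at this h2
      linarith


end J3

section SM


/-- (given) nondegenerate step -/
def NondegStmt : Prop := ∀ (N : ℕ) (B : ℝ), ∃ A : ℕ, 1 ≤ A ∧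
    ∀ m : ℕ, 1 ≤ m → ∀ S : Finset ℕ, tw (2 * (N + 2)) (A * m) ≤ S.card →
    ∀ (e : ℕ → (Fin N → ℝ)) (σ : ℝ), σ * σ = 1 →
    (∀ t, Inc N S t → 0 < σ * Matrix.det (fun p => e (t p))) →
    ∃ T ⊆ S, m ≤ T.card ∧ ∃ (g : Fin N → ℕ → ℝ) (v : Fin N → (Fin N → ℝ)),
      (∀ i ∈ T, e i = ∑ j, g j i • v j) ∧ (∀ j, ∀ i ∈ T, 0 < g j i) ∧
      Spread N B T (fun j i => Real.log (g j i))

/-- (given) dominance -/
def DominanceStmt : Prop := ∀ (N k : ℕ), ∃ A : ℕ, 1 ≤ A ∧ ∃ B₀ : ℝ,
    ∀ m : ℕ, 1 ≤ m → ∀ S : Finset ℕ, tw 12 (A * m) ≤ S.card →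
    ∀ g : Fin N → ℕ → ℝ, (∀ a, ∀ i ∈ S, 0 < g a i) →
    Spread N B₀ S (fun a i => Real.log (g a i)) →
    ∀ c : (Fin k → Fin N) → ℝ, ∃ T ⊆ S, m ≤ T.card ∧
      ((∀ t, Inc k T t → 0 ≤ ∑ a : Fin k → Fin N, c a * ∏ l, g (a l) (t l)) ∨
       (∀ t, Inc k T t → ∑ a : Fin k → Fin N, c a * ∏ l, g (a l) (t l) < 0))

lemma le_tw (j x : ℕ) : x ≤ tw j x := by
  induction j with
  | zero => exact le_rfl
  | succ j ih => exact le_trans ih (le_of_lt Nat.lt_two_pow_self)

lemma tw_le_tw {a b x y : ℕ} (hab : a ≤ b) (hxy : x ≤ y) : tw a x ≤ tw b y := by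
  obtain ⟨c, rfl⟩ := Nat.exists_eq_add_of_le hab
  rw [← tw_tw a c y]
  exact tw_mono a (le_trans hxy (le_tw c y))

/-- an increasing enumeration of an `N`-subset containing a given set -/
lemma exists_inc {N : ℕ} {T I : Finset ℕ} (hI : I ⊆ T) (hr : I.card ≤ N) (hN : N ≤ T.card) :
    ∃ t : Fin N → ℕ, Inc N T t ∧ ∀ i ∈ I, ∃ p, t p = i := by
  obtain ⟨u, hIu, huT, hu⟩ := Finset.exists_subsuperset_card_eq hI hr hN
  refine ⟨u.orderEmbOfFin hu, ⟨(u.orderEmbOfFin hu).strictMono, fun i => huT (u.orderEmbOfFin_mem hu i)⟩, ?_⟩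
  intro i hi
  have : i ∈ Set.range (u.orderEmbOfFin hu) := by
    rw [Finset.range_orderEmbOfFin]; exact hIu hi
  exact this

/-- an independent increasing tuple of the size of the rank -/
lemma exists_indep {V : Type} [AddCommGroup V] [Module ℝ V] [FiniteDimensional ℝ V] (e : ℕ → V)
    (T : Finset ℕ) (r : ℕ) (hr : Module.finrank ℝ (Submodule.span ℝ (e '' T)) = r) :
    ∃ t : Fin r → ℕ, Inc r T t ∧ LinearIndependent ℝ (fun p => e (t p)) := by
  obtain ⟨κ, a, ha, hspan, hli⟩ := exists_linearIndependent' ℝ (fun i : T => e i)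
  have : Finite κ := hli.finite
  have : Fintype κ := Fintype.ofFinite κ
  have hrange : Set.range (fun i : T => e i) = e '' T := by
    ext x; simp
  have hcard : Fintype.card κ = r := by
    rw [← hr, ← hrange, ← hspan]
    exact (finrank_span_eq_card hli).symm
  classical
  set I : Finset ℕ := Finset.univ.image (fun x : κ => ((a x : T) : ℕ)) with hI
  have hinj : Function.Injective (fun x : κ => ((a x : T) : ℕ)) :=
    Subtype.val_injective.comp ha
  have hIc : I.card = r := by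
    rw [hI, Finset.card_image_of_injective _ hinj, Finset.card_univ, hcard]
  have hIT : I ⊆ T := by
    intro i hi
    rw [hI, Finset.mem_image] at hi
    obtain ⟨x, -, rfl⟩ := hi
    exact (a x).2
  refine ⟨I.orderEmbOfFin hIc, ⟨(I.orderEmbOfFin hIc).strictMono,
    fun i => hIT (I.orderEmbOfFin_mem hIc i)⟩, ?_⟩
  have hsel : ∀ p : Fin r, ∃ x : κ, ((a x : T) : ℕ) = I.orderEmbOfFin hIc p := by
    intro p
    obtain ⟨x, -, hx⟩ := Finset.mem_image.1 (I.orderEmbOfFin_mem hIc p)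
    exact ⟨x, hx⟩
  choose s hs using hsel
  have hsinj : Function.Injective s := by
    intro p p' hpp
    have h1 := hs p
    rw [hpp, hs p'] at h1
    exact ((I.orderEmbOfFin hIc).injective h1).symm
  have : (fun p => e ((I.orderEmbOfFin hIc) p)) = ((fun i : T => e i) ∘ a) ∘ s := by
    funext p
    simp only [Function.comp]
    rw [hs p]
  rw [this]
  exact hli.comp s hsinj

lemma det_ne_zero_of_indep {r : ℕ} {W : Type} [AddCommGroup W] [Module ℝ W] (b : Module.Basis (Fin r) ℝ W)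
    (w : Fin r → W) (h : LinearIndependent ℝ w) : Matrix.det (fun p => b.equivFun (w p)) ≠ 0 := by
  have h1 : LinearIndependent ℝ (fun p => b.equivFun (w p)) :=
    h.map' b.equivFun.toLinearMap (LinearMap.ker_eq_bot.2 b.equivFun.injective)
  have h2 : LinearIndependent ℝ (Matrix.row (fun p => b.equivFun (w p))) := h1
  rw [Matrix.linearIndependent_rows_iff_isUnit, Matrix.isUnit_iff_isUnit_det] at h2
  exact h2.ne_zero

/-- the span of a large subset of a rank-homogeneous set is everything -/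
lemma span_large {V : Type} [AddCommGroup V] [Module ℝ V] [FiniteDimensional ℝ V] (e : ℕ → V)
    (N : ℕ) (T : Finset ℕ) (hT : N ≤ T.card)
    (hr : Module.finrank ℝ (Submodule.span ℝ (e '' T)) ≤ N)
    (hhom : ∀ t t', Inc N T t → Inc N T t' →
      Module.finrank ℝ (Submodule.span ℝ (Set.range (fun p => e (t p)))) =
      Module.finrank ℝ (Submodule.span ℝ (Set.range (fun p => e (t' p)))))
    (U : Finset ℕ) (hUT : U ⊆ T) (hU : N ≤ U.card) :
    Submodule.span ℝ (e '' U) = Submodule.span ℝ (e '' T) := by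
  classical
  obtain ⟨r, hrdef⟩ : ∃ r, Module.finrank ℝ (Submodule.span ℝ (e '' T)) = r := ⟨_, rfl⟩
  obtain ⟨t, ht, hli⟩ := exists_indep e T r hrdef
  rw [hrdef] at hr
  set I : Finset ℕ := Finset.univ.image t with hI
  have hIT : I ⊆ T := by
    intro i hi
    rw [hI, Finset.mem_image] at hi
    obtain ⟨p, -, rfl⟩ := hi
    exact ht.2 p
  have hIc : I.card = r := by
    rw [hI, Finset.card_image_of_injective _ ht.1.injective, Finset.card_univ, Fintype.card_fin]
  obtain ⟨t1, ht1, hI1⟩ := exists_inc (N := N) hIT (by rw [hIc]; exact hr) hT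
  obtain ⟨t2, ht2, -⟩ := exists_inc (N := N) (T := U) (I := ∅) (Finset.empty_subset _) (by simp) hU
  have h12 := hhom t1 t2 ht1 (ht2.mono hUT)
  have hge : r ≤ Module.finrank ℝ (Submodule.span ℝ (Set.range (fun p => e (t1 p)))) := by
    have h1 : Module.finrank ℝ (Submodule.span ℝ (Set.range (fun p => e (t p)))) = r := by
      rw [finrank_span_eq_card hli, Fintype.card_fin]
    rw [← h1]
    apply Submodule.finrank_mono
    apply Submodule.span_mono
    rintro x ⟨p, rfl⟩
    obtain ⟨p', hp'⟩ := hI1 (t p) (by rw [hI]; exact Finset.mem_image_of_mem _ (Finset.mem_univ _))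
    exact ⟨p', by simp [hp']⟩
  have hsub1 : Submodule.span ℝ (Set.range (fun p => e (t2 p))) ≤ Submodule.span ℝ (e '' U) := by
    apply Submodule.span_mono
    rintro x ⟨p, rfl⟩
    exact ⟨t2 p, ht2.2 p, rfl⟩
  have hsub2 : Submodule.span ℝ (e '' U) ≤ Submodule.span ℝ (e '' T) := by
    apply Submodule.span_mono
    rintro x ⟨i, hi, rfl⟩
    exact ⟨i, hUT hi, rfl⟩
  apply Submodule.eq_of_le_of_finrank_le hsub2
  calc Module.finrank ℝ (Submodule.span ℝ (e '' T)) = r := hrdef
    _ ≤ Module.finrank ℝ (Submodule.span ℝ (Set.range (fun p => e (t2 p)))) := by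
        rw [← h12]; exact hge
    _ ≤ _ := Submodule.finrank_mono hsub1

lemma comp_le {a b A x : ℕ} (hA : 1 ≤ A) (hx : 1 ≤ x) : tw a (A * tw b x) ≤ tw (a + b) (A * x) := by
  rw [← tw_tw]
  exact tw_mono a (mul_tw_le b A x hA hx)

/-- uniform homogeneity for all multilinear forms on spaces of dimension at most `N` -/
def UniformStmt : Prop := ∀ (N k : ℕ), ∃ A : ℕ, 1 ≤ A ∧ ∀ m : ℕ, 1 ≤ m → ∀ S : Finset ℕ,
    tw (6 * N + 16) (A * m) ≤ S.card →
    ∀ (V : Type) [AddCommGroup V] [Module ℝ V] [FiniteDimensional ℝ V],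
    Module.finrank ℝ V ≤ N → ∀ (e : ℕ → V) (F : MultilinearMap ℝ (fun _ : Fin k => V) ℝ),
    ∃ T ⊆ S, m ≤ T.card ∧ ((∀ t, Inc k T t → 0 ≤ F (fun l => e (t l))) ∨
      (∀ t, Inc k T t → F (fun l => e (t l)) < 0))

theorem uniform (hR : RamseyStmt) (hN : NondegStmt) (hDm : DominanceStmt) : UniformStmt := by
  intro N k
  obtain ⟨A1, hA1, h1⟩ := hR N (N + 1)
  choose A2 hA2 h2 using fun r : ℕ => hR r 3
  choose A4 hA4 B₀ h4 using fun r : ℕ => hDm r k
  choose A3 hA3 h3 using fun r : ℕ => hN r (B₀ r)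
  set P : ℕ := ∏ r ∈ Finset.range (N + 1), (A2 r * A3 r * A4 r * (N + 1)) with hP
  have hterm : ∀ r, 1 ≤ A2 r * A3 r * A4 r * (N + 1) := fun r =>
    Nat.mul_pos (Nat.mul_pos (Nat.mul_pos (hA2 r) (hA3 r)) (hA4 r)) (Nat.succ_pos N)
  have hPr : ∀ r, r ≤ N → A2 r * A3 r * A4 r * (N + 1) ≤ P := by
    intro r hr
    apply Finset.single_le_prod' (f := fun r => A2 r * A3 r * A4 r * (N + 1))
    · intro i _; exact hterm i
    · exact Finset.mem_range.2 (by omega)
  have hP1 : 1 ≤ P := le_trans (hterm 0) (hPr 0 (Nat.zero_le _))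
  refine ⟨A1 * P, Nat.mul_pos hA1 hP1, ?_⟩
  intro m hm S hS V _ _ _ hV e F
  -- step 1
  have hPm : 1 ≤ P * m := Nat.mul_pos hP1 hm
  have hb1 : tw (2 * N) (A1 * tw (4 * N + 16) (P * m)) ≤ S.card := by
    refine le_trans (comp_le hA1 hPm) (le_trans ?_ hS)
    apply tw_le_tw (by omega)
    rw [mul_assoc]
  obtain ⟨T1, hT1S, hT1c, hT1⟩ := h1 (tw (4 * N + 16) (P * m)) (tw_pos _ _ hPm) S hb1 (Fin (N + 1))
    (by simp) (fun t => ⟨Module.finrank ℝ (Submodule.span ℝ (Set.range (fun p => e (t p)))),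
      Nat.lt_succ_of_le (le_trans (Submodule.finrank_le _) hV)⟩)
  have hNm : N + 1 ≤ (N + 1) * m := Nat.le_mul_of_pos_right _ hm
  have hT1N : N ≤ T1.card := by
    have h5 : N + 1 ≤ P * m := by
      have h6 := hPr 0 (Nat.zero_le _)
      have h7 : N + 1 ≤ A2 0 * A3 0 * A4 0 * (N + 1) :=
        Nat.le_mul_of_pos_left _ (Nat.mul_pos (Nat.mul_pos (hA2 0) (hA3 0)) (hA4 0))
      exact le_trans (le_trans h7 h6) (Nat.le_mul_of_pos_right _ hm)
    have := le_tw (4 * N + 16) (P * m)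
    omega
  -- the span
  obtain ⟨r, hr⟩ : ∃ r, Module.finrank ℝ (Submodule.span ℝ (e '' T1)) = r := ⟨_, rfl⟩
  have hrN : r ≤ N := by rw [← hr]; exact le_trans (Submodule.finrank_le _) hV
  set W := Submodule.span ℝ (e '' T1) with hW
  let b : Module.Basis (Fin r) ℝ W := Module.finBasisOfFinrankEq ℝ W hr
  classical
  let e' : ℕ → W := fun i => if h : i ∈ T1 then ⟨e i, Submodule.subset_span ⟨i, h, rfl⟩⟩ else 0
  have he' : ∀ i ∈ T1, ((e' i : W) : V) = e i := by
    intro i hi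
    simp only [e', dif_pos hi]
  -- step 2
  set M := (N + 1) * m with hM
  have hM1 : 1 ≤ M := by omega
  have hAM : 1 ≤ A4 r * M := Nat.mul_pos (hA4 r) hM1
  have hAAM : 1 ≤ A3 r * (A4 r * M) := Nat.mul_pos (hA3 r) hAM
  have hb2 : tw (2 * r) (A2 r * tw (2 * (r + 2)) (A3 r * tw 12 (A4 r * M))) ≤ T1.card := by
    refine le_trans ?_ hT1c
    calc tw (2 * r) (A2 r * tw (2 * (r + 2)) (A3 r * tw 12 (A4 r * M)))
        ≤ tw (2 * r) (A2 r * tw (2 * (r + 2) + 12) (A3 r * (A4 r * M))) :=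
          tw_mono _ (Nat.mul_le_mul_left _ (comp_le (hA3 r) hAM))
      _ ≤ tw (2 * r + (2 * (r + 2) + 12)) (A2 r * (A3 r * (A4 r * M))) :=
          comp_le (hA2 r) hAAM
      _ ≤ tw (4 * N + 16) (P * m) := by
          apply tw_le_tw (by omega)
          calc A2 r * (A3 r * (A4 r * M)) = (A2 r * A3 r * A4 r * (N + 1)) * m := by
                rw [hM]; ring
            _ ≤ P * m := Nat.mul_le_mul_right _ (hPr r hrN)
  have hm3 : 1 ≤ tw 12 (A4 r * M) := tw_pos _ _ hAM
  have hm2 : 1 ≤ tw (2 * (r + 2)) (A3 r * tw 12 (A4 r * M)) :=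
    tw_pos _ _ (Nat.mul_pos (hA3 r) hm3)
  obtain ⟨T2, hT21, hT2c, hT2⟩ := h2 r (tw (2 * (r + 2)) (A3 r * tw 12 (A4 r * M))) hm2 T1 hb2
    SignType (by decide) (fun t => SignType.sign (Matrix.det (fun p => b.equivFun (e' (t p)))))
  have hT2N : N ≤ T2.card := by
    have h5 : M ≤ tw (2 * (r + 2)) (A3 r * tw 12 (A4 r * M)) := by
      calc M ≤ A4 r * M := Nat.le_mul_of_pos_left _ (hA4 r)
        _ ≤ tw 12 (A4 r * M) := le_tw _ _
        _ ≤ A3 r * tw 12 (A4 r * M) := Nat.le_mul_of_pos_left _ (hA3 r)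
        _ ≤ _ := le_tw _ _
    omega
  have hspan2 : Submodule.span ℝ (e '' T2) = W := by
    apply span_large e N T1 hT1N (by rw [← hW, hr]; exact hrN) _ T2 hT21 hT2N
    intro t t' ht ht'
    have := hT1 t t' ht ht'
    simpa using this
  obtain ⟨t0, ht0, hli0⟩ := exists_indep e T2 r (by rw [hspan2]; exact hr)
  have hli1 : LinearIndependent ℝ (fun p => e' (t0 p)) := by
    apply LinearIndependent.of_comp W.subtype
    have : (W.subtype ∘ fun p => e' (t0 p)) = fun p => e (t0 p) := by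
      funext p
      exact he' _ (hT21 (ht0.2 p))
    rw [this]
    exact hli0
  have hdet0 := det_ne_zero_of_indep b _ hli1
  obtain ⟨σ, hσ, hσpos⟩ : ∃ σ : ℝ, σ * σ = 1 ∧ ∀ t, Inc r T2 t →
      0 < σ * Matrix.det (fun p => b.equivFun (e' (t p))) := by
    rcases lt_or_gt_of_ne hdet0 with hneg | hpos
    · refine ⟨-1, by norm_num, ?_⟩
      intro t ht
      have h5 := hT2 t t0 ht ht0
      have h6 : SignType.sign (Matrix.det (fun p => b.equivFun (e' (t p)))) = -1 := by
        exact h5.trans (sign_neg hneg)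
      have h7 := sign_eq_neg_one_iff.1 h6
      linarith
    · refine ⟨1, by norm_num, ?_⟩
      intro t ht
      have h5 := hT2 t t0 ht ht0
      have h6 : SignType.sign (Matrix.det (fun p => b.equivFun (e' (t p)))) = 1 := by
        exact h5.trans (sign_pos hpos)
      have h7 := sign_eq_one_iff.1 h6
      linarith
  -- step 3
  obtain ⟨T3, hT32, hT3c, g, v, hgv, hgpos, hgs⟩ := h3 r (tw 12 (A4 r * M)) hm3 T2 hT2c
    (fun i => b.equivFun (e' i)) σ hσ hσpos
  -- step 4
  obtain ⟨T4, hT43, hT4c, hT4⟩ := h4 r M hM1 T3 hT3c g hgpos hgs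
    (fun a => F (fun l => ((b.equivFun.symm (v (a l)) : W) : V)))
  have hexp : ∀ t, Inc k T4 t → F (fun l => e (t l)) = ∑ a : Fin k → Fin r,
      F (fun l => ((b.equivFun.symm (v (a l)) : W) : V)) * ∏ l, g (a l) (t l) := by
    intro t ht
    have h5 : ∀ l, e (t l) = ∑ j, g j (t l) • ((b.equivFun.symm (v j) : W) : V) := by
      intro l
      have h6 : t l ∈ T3 := hT43 (ht.2 l)
      have h7 : t l ∈ T1 := hT21 (hT32 h6)
      have h8 := hgv _ h6
      have h9 : e' (t l) = ∑ j, g j (t l) • b.equivFun.symm (v j) := by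
        apply b.equivFun.injective
        rw [map_sum]
        simp only [map_smul, LinearEquiv.apply_symm_apply]
        exact h8
      rw [← he' _ h7, h9]
      simp
    have h6 : (fun l => e (t l)) = fun l => ∑ j, g j (t l) • ((b.equivFun.symm (v j) : W) : V) :=
      funext h5
    rw [h6, MultilinearMap.map_sum]
    apply Finset.sum_congr rfl
    intro a _
    rw [MultilinearMap.map_smul_univ, smul_eq_mul, mul_comm]
  refine ⟨T4, (hT43.trans hT32).trans (hT21.trans hT1S),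
    le_trans (Nat.le_mul_of_pos_left m (Nat.succ_pos N)) hT4c, ?_⟩
  rcases hT4 with h | h
  · left
    intro t ht
    rw [hexp t ht]
    exact h t ht
  · right
    intro t ht
    rw [hexp t ht]
    exact h t ht


end SM

theorem uniformity : UniformStmt := by
  have hD : J3.DomStmt := by
    intro ι τ _ _ x κ h1 h2 h3 h4 _
    exact dom x κ h1 h2 h3 h4
  have hL : J3.SemilinearStmt := fun N k q B => semilinear ramsey N k q B
  exact uniform ramsey (fun N B => J5.nondeg ramsey plucker bracket N B)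
    (fun N k => J3.dominance hD hL N k)

end Pool.Agent.Helper863.RPolyCore
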